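import Pool.Agent.TH289.C.C6

/-!
# Definitions for the statement
-/

set_option autoImplicit false

open Filter Topology Set

namespace Pool.Agent.TH289.C

/-- An action of `G` by homeomorphisms. -/
structure Action (G : Type) [Group G] (X : Type) [TopologicalSpace X] where
  map : G → X → X
  cont : ∀ g, Continuous (map g)
  map_one : ∀ x, map 1 x = x
  map_mul : ∀ g h x, map (g * h) x = map g (map h x)

/-- A linear action of `G`. -/
structure LinAction (G : Type) [Group G] (V : Type) [NormedAddCommGroup V] [NormedSpace ℝ V] where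
  map : G → V →L[ℝ] V
  map_one : ∀ v, map 1 v = v
  map_mul : ∀ g h v, map (g * h) v = map g (map h v)

section Conv

variable {G : Type} [Group G]

/-- The action as a homomorphism. -/
def Action.hom {X : Type} [TopologicalSpace X] (a : Action G X) : G →* (X ≃ₜ X) where
  toFun g :=
    { toFun := a.map g
      invFun := a.map g⁻¹
      left_inv := fun x => by rw [← a.map_mul, inv_mul_cancel, a.map_one]
      right_inv := fun x => by rw [← a.map_mul, mul_inv_cancel, a.map_one]
      continuous_toFun := a.cont g
      continuous_invFun := a.cont g⁻¹ }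
  map_one' := by
    ext x
    exact a.map_one x
  map_mul' g h := by
    ext x
    exact a.map_mul g h x

theorem Action.hom_apply {X : Type} [TopologicalSpace X] (a : Action G X) (g : G) (x : X) :
    a.hom g x = a.map g x := rfl

/-- The linear action as a homomorphism. -/
def LinAction.hom {V : Type} [NormedAddCommGroup V] [NormedSpace ℝ V] (a : LinAction G V) :
    G →* (V ≃L[ℝ] V) where
  toFun g := ContinuousLinearEquiv.equivOfInverse (a.map g) (a.map g⁻¹)
    (fun x => by rw [← a.map_mul, inv_mul_cancel, a.map_one])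
    (fun x => by rw [← a.map_mul, mul_inv_cancel, a.map_one])
  map_one' := by
    ext x
    exact a.map_one x
  map_mul' g h := by
    ext x
    exact a.map_mul g h x

theorem LinAction.hom_apply {V : Type} [NormedAddCommGroup V] [NormedSpace ℝ V]
    (a : LinAction G V) (g : G) (x : V) : a.hom g x = a.map g x := rfl

/-- Convergence action: every sequence of elements of `G` that leaves all finite sets has a
subsequence that converges to a constant `p`, locally uniformly off a point `q`. -/
def Converges {X : Type} [TopologicalSpace X] (α : Action G X) : Prop :=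
  ∀ g : ℕ → G, Tendsto g atTop cofinite → ∃ φ : ℕ → ℕ, StrictMono φ ∧ ∃ p q : X,
    ∀ U ∈ 𝓝 p, ∀ W ∈ 𝓝 q, ∀ᶠ n in atTop, ∀ x, x ∉ W → α.map (g (φ n)) x ∈ U

/-- The action on triples of distinct points is cocompact: for some `ε > 0` every triple of distinct
points has a translate whose points have pairwise distance at least `ε`. -/
def TripleCocompact {X : Type} [MetricSpace X] (α : Action G X) : Prop :=
  ∃ ε : ℝ, 0 < ε ∧ ∀ x y z : X, x ≠ y → y ≠ z → x ≠ z → ∃ g : G,
    ε ≤ dist (α.map g x) (α.map g y) ∧ ε ≤ dist (α.map g y) (α.map g z) ∧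
      ε ≤ dist (α.map g x) (α.map g z)

/-- The action on the subset `D` is properly discontinuous. -/
def ActsProperly {V : Type} [TopologicalSpace V] (D : Set V) (a : G → V → V) : Prop :=
  ∀ K ⊆ D, IsCompact K → {g : G | ∃ v ∈ K, a g v ∈ K}.Finite

/-- The action on the subset `D` is cocompact. -/
def ActsCocompactly {V : Type} [TopologicalSpace V] (D : Set V) (a : G → V → V) : Prop :=
  ∃ K ⊆ D, IsCompact K ∧ ∀ v ∈ D, ∃ g, a g v ∈ K

end Conv

/-- Euclidean space of dimension `n + 1`. -/
abbrev Euc (n : ℕ) : Type := EuclideanSpace ℝ (Fin (n + 1))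

/-- The unit sphere of dimension `n`. -/
def Sn (n : ℕ) : Type := Metric.sphere (0 : Euc n) 1

noncomputable instance instSn (n : ℕ) : MetricSpace (Sn n) :=
  inferInstanceAs (MetricSpace (Metric.sphere (0 : Euc n) 1))

/-- Minkowski space `ℝ × ℝⁿ⁺¹`. -/
def Mink (n : ℕ) : Type := ℝ × Euc n

noncomputable instance instMink1 (n : ℕ) : NormedAddCommGroup (Mink n) :=
  inferInstanceAs (NormedAddCommGroup (ℝ × Euc n))

noncomputable instance instMink2 (n : ℕ) : NormedSpace ℝ (Mink n) :=
  inferInstanceAs (NormedSpace ℝ (ℝ × Euc n))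

/-- The Lorentz form. -/
noncomputable def lor {n : ℕ} (v : Mink n) : ℝ :=
  (show ℝ × Euc n from v).1 ^ 2 - ‖(show ℝ × Euc n from v).2‖ ^ 2

/-- The time coordinate. -/
def time {n : ℕ} (v : Mink n) : ℝ := (show ℝ × Euc n from v).1

/-- The light-like vector `(1, x)`, `x` in the sphere. -/
def light {n : ℕ} (x : Sn n) : Mink n := ((1 : ℝ), (x : Metric.sphere (0 : Euc n) 1).1)

/-- The vector `(1, 0)`. -/
def origin (n : ℕ) : Mink n := ((1 : ℝ), (0 : Euc n))

/-- Hyperbolic space of dimension `n + 1`, hyperboloid model. -/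
def HypSpace (n : ℕ) : Set (Mink n) := {v | lor v = 1 ∧ 0 < time v}

/-- `ρ` is an action by isometries of hyperbolic space `H^{n+1}`, and `f` is an equivariant map to
its boundary sphere. -/
def HypSemiconj {n : ℕ} {G : Type} [Group G] (α : Action G (Sn n)) (ρ : LinAction G (Mink n))
    (f : Sn n → Sn n) : Prop :=
  (∀ g v, lor (ρ.map g v) = lor v) ∧ (∀ g, 0 < time (ρ.map g (origin n))) ∧
    ∀ g x, ∃ c : ℝ, 0 < c ∧ ρ.map g (light (f x)) = c • light (f (α.map g x))

/-- `ρ` is a linear action preserving the strictly convex cone `C`, and `f` is an equivariant map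
to the boundary of the domain `P(C)`. -/
def ProjSemiconj {n : ℕ} {G : Type} [Group G] (α : Action G (Sn n)) {V : Type}
    [NormedAddCommGroup V] [NormedSpace ℝ V] (C : Set V) (τ : V →L[ℝ] ℝ) (ρ : LinAction G V)
    (f : Sn n → Bd C τ) : Prop :=
  IsStrictCone C τ ∧ (∀ g, ∀ v ∈ C, ρ.map g v ∈ C) ∧
    ∀ g x, ∃ c : ℝ, 0 < c ∧ ρ.map g (f x).1 = c • (f (α.map g x)).1

/-- The action on the domain `P(C)`, in the affine chart. -/
noncomputable def projAct {G : Type} [Group G] {V : Type}
    [NormedAddCommGroup V] [NormedSpace ℝ V] (τ : V →L[ℝ] ℝ) (ρ : LinAction G V) (g : G) (v : V) :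
    V := proj τ (ρ.map g v)

end Pool.Agent.TH289.C
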