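import Mathlib

/-!
# Convergence actions on compact metric spaces: basic lemmas
-/

set_option autoImplicit false

open Filter Topology Set

namespace Pool.Agent.TH289.C

section Dyn

variable {G : Type} [Group G] {X : Type} [MetricSpace X]

/-- Every sequence of elements of `G` that leaves all finite sets has a subsequence that converges
to a constant `a`, locally uniformly off a point `b`. -/
def IsConvergenceAction (α : G →* (X ≃ₜ X)) : Prop :=
  ∀ g : ℕ → G, Tendsto g atTop cofinite → ∃ φ : ℕ → ℕ, StrictMono φ ∧ ∃ a b : X,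
    ∀ U ∈ 𝓝 a, ∀ W ∈ 𝓝 b, ∀ᶠ n in atTop, ∀ x, x ∉ W → α (g (φ n)) x ∈ U

/-- The action on triples of distinct points is cocompact: for some `ε > 0` every triple of distinct
points has a translate whose points have pairwise distance at least `ε`. -/
def CocompactOnTriples (α : G →* (X ≃ₜ X)) : Prop :=
  ∃ ε : ℝ, 0 < ε ∧ ∀ x y z : X, x ≠ y → y ≠ z → x ≠ z → ∃ g : G,
    ε ≤ dist (α g x) (α g y) ∧ ε ≤ dist (α g y) (α g z) ∧ ε ≤ dist (α g x) (α g z)

/-- The least distance between two of the three points. -/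
noncomputable def sep (t : Fin 3 → X) : ℝ :=
  min (dist (t 0) (t 1)) (min (dist (t 1) (t 2)) (dist (t 0) (t 2)))

theorem sep_le (t : Fin 3 → X) {i j : Fin 3} (h : i ≠ j) : sep t ≤ dist (t i) (t j) := by
  unfold sep
  fin_cases i <;> fin_cases j
  · exact absurd rfl h
  · exact min_le_left _ _
  · exact (min_le_right _ _).trans (min_le_right _ _)
  · exact (min_le_left _ _).trans (dist_comm _ _).le
  · exact absurd rfl h
  · exact (min_le_right _ _).trans (min_le_left _ _)
  · exact ((min_le_right _ _).trans (min_le_right _ _)).trans (dist_comm _ _).le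
  · exact ((min_le_right _ _).trans (min_le_left _ _)).trans (dist_comm _ _).le
  · exact absurd rfl h

theorem le_sep {t : Fin 3 → X} {c : ℝ} (h : ∀ i j, i ≠ j → c ≤ dist (t i) (t j)) : c ≤ sep t := by
  unfold sep
  exact le_min (h 0 1 (by decide)) (le_min (h 1 2 (by decide)) (h 0 2 (by decide)))

theorem lt_sep {t : Fin 3 → X} {c : ℝ} (h : ∀ i j, i ≠ j → c < dist (t i) (t j)) : c < sep t := by
  unfold sep
  exact lt_min (h 0 1 (by decide)) (lt_min (h 1 2 (by decide)) (h 0 2 (by decide)))

theorem continuous_sep : Continuous (sep : (Fin 3 → X) → ℝ) := by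
  unfold sep
  fun_prop

theorem two_outside {t : Fin 3 → X} {r : ℝ} (h : 2 * r ≤ sep t) (b : X) :
    ∃ i j, i ≠ j ∧ r ≤ dist (t i) b ∧ r ≤ dist (t j) b := by
  have key : ∀ i j : Fin 3, i ≠ j → dist (t i) b < r → r ≤ dist (t j) b := by
    intro i j hij hi
    by_contra hj
    push Not at hj
    have h1 := h.trans (sep_le t hij)
    have h2 := dist_triangle_right (t i) (t j) b
    linarith
  by_cases h0 : dist (t 0) b < r
  · exact ⟨1, 2, by decide, key 0 1 (by decide) h0, key 0 2 (by decide) h0⟩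
  · by_cases h1 : dist (t 1) b < r
    · exact ⟨0, 2, by decide, not_lt.1 h0, key 1 2 (by decide) h1⟩
    · exact ⟨0, 1, by decide, not_lt.1 h0, not_lt.1 h1⟩

theorem common (i j k l : Fin 3) (hij : i ≠ j) (hkl : k ≠ l) : i = k ∨ i = l ∨ j = k ∨ j = l := by
  revert i j k l
  decide

/-- The diagonal action on triples. -/
def act (α : G →* (X ≃ₜ X)) (g : G) (t : Fin 3 → X) : Fin 3 → X := fun i => α g (t i)

theorem continuous_act (α : G →* (X ≃ₜ X)) (g : G) : Continuous (act α g) := by
  unfold act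
  exact continuous_pi fun i => (α g).continuous.comp (continuous_apply i)

theorem act_mul (α : G →* (X ≃ₜ X)) (g h : G) (t : Fin 3 → X) :
    act α (g * h) t = act α g (act α h t) := by
  funext i
  simp [act, map_mul]

theorem act_one (α : G →* (X ≃ₜ X)) (t : Fin 3 → X) : act α 1 t = t := by
  funext i
  simp [act, map_one]

omit [Group G] in
theorem tendsto_cofinite_of_ne {g : ℕ → G} (h : ∀ g₀, ∀ᶠ n in atTop, g n ≠ g₀) :
    Tendsto g atTop cofinite := by
  intro s hs
  rw [mem_cofinite] at hs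
  have := (Filter.eventually_all_finite hs).2 fun g₀ _ => h g₀
  rw [Filter.mem_map]
  filter_upwards [this] with n hn
  by_contra hns
  exact hn (g n) hns rfl

omit [Group G] in
theorem tendsto_cofinite_of_inj {g : ℕ → G} (h : Function.Injective g) :
    Tendsto g atTop cofinite := by
  rw [← Nat.cofinite_eq_atTop]
  exact h.tendsto_cofinite

/-- Only finitely many elements move a separated triple to a separated triple. -/
theorem finite_meet {α : G →* (X ≃ₜ X)} (hα : IsConvergenceAction α) {c d : ℝ} (hc : 0 < c)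
    (hd : 0 < d) : {g : G | ∃ t : Fin 3 → X, c ≤ sep t ∧ d ≤ sep (act α g t)}.Finite := by
  by_contra hinf
  have hinf' : {g : G | ∃ t : Fin 3 → X, c ≤ sep t ∧ d ≤ sep (act α g t)}.Infinite := hinf
  set e := hinf'.natEmbedding
  have hg : Function.Injective fun n => (e n : G) := fun m n h => e.injective (Subtype.ext h)
  obtain ⟨φ, hφ, a, b, hab⟩ := hα _ (tendsto_cofinite_of_inj hg)
  have h1 := hab (Metric.ball a (d / 2)) (Metric.ball_mem_nhds a (by positivity))
    (Metric.ball b (c / 2)) (Metric.ball_mem_nhds b (by positivity))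
  obtain ⟨n, hn⟩ := h1.exists
  obtain ⟨t, ht1, ht2⟩ := (e (φ n)).2
  obtain ⟨i, j, hij, hi, hj⟩ := two_outside (t := t) (r := c / 2) (by linarith) b
  have h2 := hn (t i) (by simpa using hi)
  have h3 := hn (t j) (by simpa using hj)
  have h4 := ht2.trans (sep_le _ hij)
  have h5 := dist_triangle_right (act α (e (φ n)) t i) (act α (e (φ n)) t j) a
  simp only [Metric.mem_ball] at h2 h3
  simp only [act] at h4 h5
  linarith

/-- A triple with two points within `η` of `ξ`. -/
def Near (ξ : X) (η : ℝ) (t : Fin 3 → X) : Prop :=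
  ∃ i j, i ≠ j ∧ dist (t i) ξ < η ∧ dist (t j) ξ < η

/-- If triples `t n` degenerate to `ξ` and `g n ⁻¹ t n` stay separated, then some subsequence of
`g n` converges to `ξ` off a point. -/
theorem attract_of_near [CompactSpace X] {α : G →* (X ≃ₜ X)} (hα : IsConvergenceAction α) {ε : ℝ}
    (hε : 0 < ε) {ξ : X} (g : ℕ → G) (t : ℕ → Fin 3 → X)
    (hnear : ∀ n : ℕ, Near ξ (1 / ((n : ℝ) + 1)) (t n))
    (hsep : ∀ n, ε ≤ sep (act α (g n)⁻¹ (t n))) :
    ∃ φ : ℕ → ℕ, StrictMono φ ∧ ∃ b : X,
      ∀ U ∈ 𝓝 ξ, ∀ W ∈ 𝓝 b, ∀ᶠ n in atTop, ∀ x, x ∉ W → α (g (φ n)) x ∈ U := by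
  have hlim : Tendsto (fun n : ℕ => 1 / ((n : ℝ) + 1)) atTop (𝓝 0) :=
    tendsto_one_div_add_atTop_nhds_zero_nat
  -- `g` leaves all finite sets
  have hcof : Tendsto g atTop cofinite := by
    refine tendsto_cofinite_of_ne fun g₀ => ?_
    have huc : UniformContinuous (α g₀⁻¹) :=
      CompactSpace.uniformContinuous_of_continuous (α g₀⁻¹).continuous
    obtain ⟨δ, hδ, hδ'⟩ := Metric.uniformContinuous_iff.1 huc ε hε
    filter_upwards [hlim.eventually_lt_const (half_pos hδ)] with n hn heq
    obtain ⟨k, l, hkl, hk, hl⟩ := hnear n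
    have h1 : dist (t n k) (t n l) < δ := by
      have := dist_triangle_right (t n k) (t n l) ξ
      linarith
    have h2 := hδ' h1
    have h3 := (hsep n).trans (sep_le _ hkl)
    rw [heq] at h3
    simp only [act] at h3
    linarith
  obtain ⟨φ, hφ, a, b, hab⟩ := hα g hcof
  have haξ : a = ξ := by
    by_contra hne
    have hd : 0 < dist a ξ := dist_pos.2 hne
    have h1 := hab (Metric.ball a (dist a ξ / 2)) (Metric.ball_mem_nhds a (by positivity))
      (Metric.ball b (ε / 2)) (Metric.ball_mem_nhds b (by positivity))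
    have h2 : ∀ᶠ n in atTop, 1 / (((φ n : ℕ) : ℝ) + 1) < dist a ξ / 2 :=
      (hlim.comp hφ.tendsto_atTop).eventually_lt_const (by positivity)
    obtain ⟨n, hn1, hn2⟩ := (h1.and h2).exists
    obtain ⟨i, j, hij, hi, hj⟩ := two_outside (t := act α (g (φ n))⁻¹ (t (φ n))) (r := ε / 2)
      (by linarith [hsep (φ n)]) b
    obtain ⟨k, l, hkl, hk, hl⟩ := hnear (φ n)
    have hinv : ∀ i, α (g (φ n)) (act α (g (φ n))⁻¹ (t (φ n)) i) = t (φ n) i := by
      intro i
      have := congrFun (act_mul α (g (φ n)) (g (φ n))⁻¹ (t (φ n))) i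
      rw [mul_inv_cancel, act_one] at this
      exact this.symm
    have h3 : ∀ i, ε / 2 ≤ dist (act α (g (φ n))⁻¹ (t (φ n)) i) b →
        dist (t (φ n) i) a < dist a ξ / 2 := by
      intro i hi
      have := hn1 (act α (g (φ n))⁻¹ (t (φ n)) i) (by simpa using hi)
      rwa [hinv, Metric.mem_ball] at this
    have h4 : ∀ i, dist (t (φ n) i) a < dist a ξ / 2 → dist (t (φ n) i) ξ < 1 / (((φ n : ℕ) : ℝ) + 1)
        → False := by
      intro i h5 h6
      have := dist_triangle_left a ξ (t (φ n) i)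
      linarith
    rcases common i j k l hij hkl with h | h | h | h
    · exact h4 i (h3 i hi) (h ▸ hk)
    · exact h4 i (h3 i hi) (h ▸ hl)
    · exact h4 j (h3 j hj) (h ▸ hk)
    · exact h4 j (h3 j hj) (h ▸ hl)
  exact ⟨φ, hφ, b, haξ ▸ hab⟩

end Dyn

end Pool.Agent.TH289.C
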