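import Pool.Agent.TH289.C.C0

/-!
# Strictly convex cones
-/

set_option autoImplicit false

open Filter Topology Set

namespace Pool.Agent.TH289.C

section Cone

variable {V : Type} [NormedAddCommGroup V] [NormedSpace ℝ V]

/-- `C` is a nonempty open convex cone, its closure contains no line (`τ` is positive on
`closure C \ {0}`), and it is strictly convex: the sum of two nonproportional vectors of `closure C`
lies in `C`. -/
structure IsStrictCone (C : Set V) (τ : V →L[ℝ] ℝ) : Prop where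
  isOpen : IsOpen C
  nonempty : C.Nonempty
  smul_mem : ∀ c : ℝ, 0 < c → ∀ v ∈ C, c • v ∈ C
  add_mem : ∀ v ∈ C, ∀ w ∈ C, v + w ∈ C
  pos : ∀ v ∈ closure C, v ≠ 0 → 0 < τ v
  strict : ∀ v ∈ closure C, ∀ w ∈ closure C, τ v = 1 → τ w = 1 → v ≠ w → v + w ∈ C

/-- The affine picture of the convex domain `P(C)`. -/
def Dom (C : Set V) (τ : V →L[ℝ] ℝ) : Set V := {v | v ∈ C ∧ τ v = 1}

/-- The boundary of the convex domain `P(C)`. -/
def Bd (C : Set V) (τ : V →L[ℝ] ℝ) : Set V := {v | v ∈ closure C ∧ v ∉ C ∧ τ v = 1}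

/-- The closed convex domain. -/
def Kbar (C : Set V) (τ : V →L[ℝ] ℝ) : Set V := {v | v ∈ closure C ∧ τ v = 1}

/-- Radial projection to the affine hyperplane `τ = 1`. -/
noncomputable def proj (τ : V →L[ℝ] ℝ) (v : V) : V := (τ v)⁻¹ • v

variable {C : Set V} {τ : V →L[ℝ] ℝ}

theorem IsStrictCone.smul_cl (h : IsStrictCone C τ) {c : ℝ} (hc : 0 < c) {v : V}
    (hv : v ∈ closure C) : c • v ∈ closure C := by
  have h1 : MapsTo (fun v : V => c • v) C C := fun v hv => h.smul_mem c hc v hv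
  exact h1.closure (continuous_const_smul c) hv

theorem IsStrictCone.add_cl (h : IsStrictCone C τ) {v w : V} (hv : v ∈ C) (hw : w ∈ closure C) :
    v + w ∈ C := by
  -- choose `w'` near `w` in `C`
  have h1 : ∀ᶠ w' in 𝓝 w, v + (w - w') ∈ C := by
    have hc : Continuous fun w' : V => v + (w - w') := by fun_prop
    have := hc.continuousAt (x := w)
    exact this (by simpa using h.isOpen.mem_nhds hv)
  obtain ⟨w', hw1, hw2⟩ := (mem_closure_iff_nhds.1 hw) _ h1
  have := h.add_mem _ hw1 _ hw2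
  simpa [add_assoc] using this

theorem IsStrictCone.add_clcl (h : IsStrictCone C τ) {v w : V} (hv : v ∈ closure C)
    (hw : w ∈ closure C) : v + w ∈ closure C := by
  have h1 : MapsTo (fun v : V => v + w) C C := fun v hv => h.add_cl hv hw
  exact h1.closure (by fun_prop) hv

theorem IsStrictCone.zero_cl (h : IsStrictCone C τ) : (0 : V) ∈ closure C := by
  obtain ⟨v, hv⟩ := h.nonempty
  rw [mem_closure_iff_seq_limit]
  refine ⟨fun n : ℕ => (1 / ((n : ℝ) + 1)) • v, fun n => h.smul_mem _ (by positivity) v hv, ?_⟩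
  have := (tendsto_one_div_add_atTop_nhds_zero_nat (𝕜 := ℝ)).smul_const v
  simpa using this

theorem IsStrictCone.smul_cl' (h : IsStrictCone C τ) {c : ℝ} (hc : 0 ≤ c) {v : V}
    (hv : v ∈ closure C) : c • v ∈ closure C := by
  rcases hc.eq_or_lt with rfl | hc
  · simpa using h.zero_cl
  · exact h.smul_cl hc hv

theorem ne_zero_of_one {v : V} (hv : τ v = 1) : v ≠ 0 := by
  rintro rfl
  simp at hv

/-- A vector of `Kbar` exists besides; `0` is not in `C` when the boundary is nonempty. -/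
theorem IsStrictCone.zero_notMem (h : IsStrictCone C τ) {q : V} (hq : q ∈ Bd C τ) :
    (0 : V) ∉ C := by
  intro h0
  have := h.add_cl h0 hq.1
  rw [zero_add] at this
  exact hq.2.1 this

theorem IsStrictCone.pos_of_mem (h : IsStrictCone C τ) (h0 : (0 : V) ∉ C) {v : V} (hv : v ∈ C) :
    0 < τ v :=
  h.pos v (subset_closure hv) (fun hv0 => h0 (hv0 ▸ hv))

theorem proj_mem_Dom (h : IsStrictCone C τ) {v : V} (hv : v ∈ C) (hp : 0 < τ v) :
    proj τ v ∈ Dom C τ :=
  ⟨h.smul_mem _ (inv_pos.2 hp) v hv, by simp [proj, hp.ne']⟩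

theorem proj_mem_Kbar (h : IsStrictCone C τ) {v : V} (hv : v ∈ closure C) (hp : 0 < τ v) :
    proj τ v ∈ Kbar C τ :=
  ⟨h.smul_cl (inv_pos.2 hp) hv, by simp [proj, hp.ne']⟩

theorem proj_of_one {v : V} (hv : τ v = 1) : proj τ v = v := by simp [proj, hv]

theorem proj_smul {c : ℝ} (hc : c ≠ 0) (v : V) : proj τ (c • v) = proj τ v := by
  simp only [proj, map_smul, smul_eq_mul, smul_smul]
  congr 1
  by_cases hv : τ v = 0
  · simp [hv]
  · field_simp

theorem continuousAt_proj {v : V} (hv : τ v ≠ 0) : ContinuousAt (proj τ) v := by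
  unfold proj
  exact ((τ.continuous.continuousAt).inv₀ hv).smul continuousAt_id

/-- `proj (v + w)` is a convex combination. -/
theorem proj_add {v w : V} (hv : 0 < τ v) (hw : 0 < τ w) :
    proj τ (v + w) = (τ v / τ (v + w)) • proj τ v + (1 - τ v / τ (v + w)) • proj τ w := by
  have h1 : τ (v + w) = τ v + τ w := map_add _ _ _
  have h2 : (1 - τ v / τ (v + w)) = τ w / τ (v + w) := by
    rw [h1]; field_simp; ring
  rw [h2]
  simp only [proj, smul_smul, smul_add]
  congr 1
  · congr 1; field_simp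
  · congr 1; field_simp

theorem isClosed_Kbar : IsClosed (Kbar C τ) :=
  isClosed_closure.inter (isClosed_eq τ.continuous continuous_const)

theorem isCompact_Kbar [FiniteDimensional ℝ V] (h : IsStrictCone C τ) : IsCompact (Kbar C τ) := by
  have : ProperSpace V := FiniteDimensional.proper ℝ V
  have hS : IsCompact (closure C ∩ Metric.sphere (0 : V) 1) :=
    (isCompact_sphere (0 : V) 1).inter_left isClosed_closure
  obtain ⟨m, hm, hm'⟩ := hS.exists_forall_le' (f := τ) τ.continuous.continuousOn (a := 0)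
    (fun v hv => h.pos v hv.1 (by
      rintro rfl
      simp at hv))
  refine Metric.isCompact_of_isClosed_isBounded isClosed_Kbar ?_
  rw [isBounded_iff_forall_norm_le]
  refine ⟨1 / m, fun v hv => ?_⟩
  have hv0 : v ≠ 0 := ne_zero_of_one hv.2
  have hn : 0 < ‖v‖ := norm_pos_iff.2 hv0
  have h1 := hm' (‖v‖⁻¹ • v) ⟨h.smul_cl (inv_pos.2 hn) hv.1, by
    simp [norm_smul, hn.ne']⟩
  rw [map_smul, hv.2, smul_eq_mul, mul_one] at h1
  rw [le_div_iff₀ hm]
  have := mul_le_mul_of_nonneg_left h1 hn.le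
  rw [mul_inv_cancel₀ hn.ne'] at this
  linarith

/-- Proper convex combinations of distinct points are interior. -/
theorem comb_mem (h : IsStrictCone C τ) {a s : V} (ha : a ∈ Kbar C τ) (hs : s ∈ Kbar C τ)
    (hne : a ≠ s) {l : ℝ} (hl0 : 0 < l) (hl1 : l < 1) : l • a + (1 - l) • s ∈ C := by
  have h1 := h.strict a ha.1 s hs.1 ha.2 hs.2 hne
  set μ := min l (1 - l) with hμ
  have hμ0 : 0 < μ := lt_min hl0 (by linarith)
  have h2 : l • a + (1 - l) • s = (μ • (a + s) + (l - μ) • a) + ((1 - l) - μ) • s := by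
    module
  rw [h2]
  refine h.add_cl (h.add_cl (h.smul_mem _ hμ0 _ h1) (h.smul_cl' ?_ ha.1)) (h.smul_cl' ?_ hs.1)
  · linarith [min_le_left l (1 - l)]
  · linarith [min_le_right l (1 - l)]

theorem extreme_nhd [FiniteDimensional ℝ V] (h : IsStrictCone C τ) {q : V} (hq : q ∈ Bd C τ)
    {κ : ℝ} (hκ : 0 < κ) {U : Set V} (hU : U ∈ 𝓝 q) :
    ∃ W ∈ 𝓝 q, ∀ a ∈ Kbar C τ, ∀ s ∈ Kbar C τ, ∀ l ∈ Icc κ 1,
      l • a + (1 - l) • s ∈ W → a ∈ U := by
  obtain ⟨U', hU', hU'o, hqU'⟩ := mem_nhds_iff.1 hU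
  have hQ : IsCompact ((Kbar C τ \ U') ×ˢ (Kbar C τ ×ˢ Icc κ 1)) :=
    ((isCompact_Kbar h).diff hU'o).prod ((isCompact_Kbar h).prod isCompact_Icc)
  have hcont : Continuous fun p : V × (V × ℝ) => p.2.2 • p.1 + (1 - p.2.2) • p.2.1 := by fun_prop
  have hcl := (hQ.image hcont).isClosed
  refine ⟨_, hcl.isOpen_compl.mem_nhds ?_, ?_⟩
  · rintro ⟨⟨a, s, l⟩, ⟨⟨ha, haU⟩, hs, hl⟩, hEq⟩
    change l • a + (1 - l) • s = q at hEq
    rcases hl.2.eq_or_lt with h1 | h1
    · have h1' : l = 1 := h1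
      rw [h1', one_smul, sub_self, zero_smul, add_zero] at hEq
      exact haU (hEq ▸ hqU')
    · by_cases has : a = s
      · subst has
        have : l • a + (1 - l) • a = a := by module
        rw [this] at hEq
        exact haU (hEq ▸ hqU')
      · have := comb_mem h ha hs has (lt_of_lt_of_le hκ hl.1) h1
        rw [hEq] at this
        exact hq.2.1 this
  · intro a ha s hs l hl hmem
    by_contra haU
    exact hmem ⟨(a, s, l), ⟨⟨ha, fun h' => haU (hU' h')⟩, hs, hl⟩, rfl⟩

/-- Convex combinations of two points tending to `q` tend to `q`. -/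
theorem tendsto_comb {ι : Type} {l : Filter ι} {a s : ι → V} {c : ι → ℝ} {q : V}
    (ha : Tendsto a l (𝓝 q)) (hs : Tendsto s l (𝓝 q)) (hc : ∀ i, c i ∈ Icc (0 : ℝ) 1) :
    Tendsto (fun i => c i • a i + (1 - c i) • s i) l (𝓝 q) := by
  rw [Metric.tendsto_nhds] at ha hs ⊢
  intro ε hε
  filter_upwards [ha ε hε, hs ε hε] with i h1 h2
  have hconv := convex_ball q ε
  exact hconv h1 h2 (hc i).1 (by linarith [(hc i).2]) (by ring)

/-- A family of linear maps preserving `C` that sends two distinct points of the closed domain to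
sequences tending to a boundary point `q` tends to `q` uniformly on compact sets of the domain. -/
theorem attract_compact [FiniteDimensional ℝ V] (h : IsStrictCone C τ) {ι : Type} {l : Filter ι}
    (r : ι → V →L[ℝ] V) (hr : ∀ i, ∀ v ∈ C, r i v ∈ C) {y₁ y₂ q : V} (hy₁ : y₁ ∈ Kbar C τ)
    (hy₂ : y₂ ∈ Kbar C τ) (hne : y₁ ≠ y₂) (hq : q ∈ Bd C τ)
    (hp₁ : ∀ i, 0 < τ (r i y₁)) (hp₂ : ∀ i, 0 < τ (r i y₂))
    (h₁ : Tendsto (fun i => proj τ (r i y₁)) l (𝓝 q))
    (h₂ : Tendsto (fun i => proj τ (r i y₂)) l (𝓝 q)) {K : Set V} (hK : IsCompact K)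
    (hKC : K ⊆ C) {U : Set V} (hU : U ∈ 𝓝 q) :
    ∀ᶠ i in l, ∀ v ∈ K, proj τ (r i v) ∈ U := by
  have h0 : (0 : V) ∉ C := h.zero_notMem hq
  set m := y₁ + y₂ with hm
  have hmC : m ∈ C := h.strict _ hy₁.1 _ hy₂.1 hy₁.2 hy₂.2 hne
  -- constants
  obtain ⟨c, hc, hcK⟩ : ∃ c : ℝ, 0 < c ∧ ∀ v ∈ K, v - c • m ∈ C := by
    obtain ⟨δ, hδ, hδ'⟩ := hK.exists_thickening_subset_open h.isOpen hKC
    refine ⟨δ / (2 * (‖m‖ + 1)), by positivity, fun v hv => hδ' ?_⟩
    rw [Metric.mem_thickening_iff]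
    refine ⟨v, hv, ?_⟩
    rw [dist_eq_norm]
    have : v - (δ / (2 * (‖m‖ + 1))) • m - v = -((δ / (2 * (‖m‖ + 1))) • m) := by abel
    rw [this, norm_neg, norm_smul, Real.norm_of_nonneg (by positivity)]
    have hn := norm_nonneg m
    rw [div_mul_eq_mul_div, div_lt_iff₀ (by positivity)]
    nlinarith
  obtain ⟨D, hD, hDK⟩ : ∃ D : ℝ, 0 < D ∧ ∀ v ∈ K, D • m - v ∈ C := by
    obtain ⟨M, hM⟩ := hK.isBounded.exists_norm_le
    obtain ⟨δ, hδ, hδ'⟩ := Metric.isOpen_iff.1 h.isOpen m hmC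
    have hM1 : 0 ≤ |M| := abs_nonneg M
    refine ⟨(|M| + 1) / δ, by positivity, fun v hv => ?_⟩
    have h1 : m - (δ / (|M| + 1)) • v ∈ C := by
      refine hδ' ?_
      rw [Metric.mem_ball, dist_eq_norm]
      have : m - (δ / (|M| + 1)) • v - m = -((δ / (|M| + 1)) • v) := by abel
      rw [this, norm_neg, norm_smul, Real.norm_of_nonneg (by positivity)]
      have hv' := (hM v hv).trans (le_abs_self M)
      rw [div_mul_eq_mul_div, div_lt_iff₀ (by positivity)]
      nlinarith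
    have h2 := h.smul_mem ((|M| + 1) / δ) (by positivity) _ h1
    have h3 : ((|M| + 1) / δ) • (m - (δ / (|M| + 1)) • v) = ((|M| + 1) / δ) • m - v := by
      rw [smul_sub, smul_smul]
      congr 1
      have : (|M| + 1) / δ * (δ / (|M| + 1)) = 1 := by field_simp
      rw [this, one_smul]
    rwa [h3] at h2
  obtain ⟨W, hW, hW'⟩ := extreme_nhd h hq (κ := min (c / D) 1) (by positivity) hU
  -- `r i m` tends to `q`
  have hlim : Tendsto (fun i => proj τ (r i m)) l (𝓝 q) := by
    have := tendsto_comb (c := fun i => τ (r i y₁) / τ (r i y₁ + r i y₂)) h₁ h₂ (fun i => by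
      have a1 := hp₁ i
      have a2 := hp₂ i
      rw [map_add]
      exact ⟨by positivity, by rw [div_le_one (by positivity)]; linarith⟩)
    refine this.congr fun i => ?_
    rw [hm, map_add (r i), proj_add (hp₁ i) (hp₂ i)]
  filter_upwards [hlim hW] with i hi v hv
  have hA : r i v ∈ C := hr i v (hKC hv)
  have hB : r i (D • m - v) ∈ C := hr i _ (hDK v hv)
  have hA0 := h.pos_of_mem h0 hA
  have hB0 := h.pos_of_mem h0 hB
  have hsum : r i v + r i (D • m - v) = D • r i m := by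
    rw [← map_add, ← map_smul]
    congr 1
    abel
  have hmem := proj_add hA0 hB0
  rw [hsum, proj_smul hD.ne'] at hmem
  refine hW' _ (proj_mem_Kbar h (subset_closure hA) hA0) _
    (proj_mem_Kbar h (subset_closure hB) hB0) (τ (r i v) / τ (D • r i m)) ?_ ?_
  · have hcm : 0 < τ (r i (v - c • m)) := h.pos_of_mem h0 (hr i _ (hcK v hv))
    rw [map_sub, map_sub, map_smul, map_smul, smul_eq_mul] at hcm
    have hm0 : 0 < τ (r i m) := by
      rw [hm, map_add, map_add]
      linarith [hp₁ i, hp₂ i]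
    constructor
    · refine (min_le_left _ _).trans ?_
      rw [map_smul, smul_eq_mul, div_le_div_iff₀ hD (by positivity)]
      nlinarith
    · rw [← hsum, map_add, div_le_one (by positivity)]
      linarith
  · rw [← hmem]
    exact hi

end Cone

end Pool.Agent.TH289.C
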