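import Pool.Agent.TH289.C.C9

/-!
# Factors of projective actions: the main theorem
-/

set_option autoImplicit false

open Filter Topology Set

namespace Pool.Agent.TH289.C

section Gen

variable {V : Type} [NormedAddCommGroup V] [NormedSpace ℝ V] {G : Type} [Group G] {X : Type}
  [MetricSpace X]
variable {C : Set V} {τ : V →L[ℝ] ℝ} {α : G →* (X ≃ₜ X)} {ρ : G →* (V ≃L[ℝ] V)}
  {hh : Bd C τ → X}

theorem Wv_memP (hα : IsConvergenceAction α) (h : IsStrictCone C τ)
    (hpres : ∀ g, ∀ v ∈ C, ρ g v ∈ C) {ε : ℝ} (hε : 0 < ε)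
    (hco : ∀ x y z : X, x ≠ y → y ≠ z → x ≠ z → ∃ g : G,
      ε ≤ dist (α g x) (α g y) ∧ ε ≤ dist (α g y) (α g z) ∧ ε ≤ dist (α g x) (α g z))
    {o : V} (ho : o ∈ C) {t : Fin 3 → X} (ht : 0 < sep t) : Wv α ρ ε o t ∈ C := by
  obtain ⟨s, hs, hW⟩ := exists_finset hα hε o ρ ht
  obtain ⟨g, hg⟩ := exists_wt_pos hε hco ht
  have hg' : g⁻¹ ∈ s := (hs _).2 (wt_pos.2 (by rw [inv_inv]; linarith))
  rw [hW]
  refine Finset.sum_induction_nonempty _ (fun v => v ∈ C) (fun v w hv hw => h.add_mem v hv w hw)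
    ⟨_, hg'⟩ ?_
  intro g hg
  exact h.smul_mem _ ((hs g).1 hg) _ (hpres g o ho)

theorem compact_core [CompactSpace X] (hα : IsConvergenceAction α) (h : IsStrictCone C τ)
    (h0 : (0 : V) ∉ C)
    (hpres : ∀ g, ∀ v ∈ C, ρ g v ∈ C) {ε : ℝ} (hε : 0 < ε)
    (hco : ∀ x y z : X, x ≠ y → y ≠ z → x ≠ z → ∃ g : G,
      ε ≤ dist (α g x) (α g y) ∧ ε ≤ dist (α g y) (α g z) ∧ ε ≤ dist (α g x) (α g z))
    {o : V} (ho : o ∈ C) :
    IsCompact ((fun t : Fin 3 → X => proj τ (Wv α ρ ε o t)) '' {t | ε ≤ sep t}) ∧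
      ((fun t : Fin 3 → X => proj τ (Wv α ρ ε o t)) '' {t | ε ≤ sep t}) ⊆ Dom C τ := by
  have hcl : IsCompact {t : Fin 3 → X | ε ≤ sep t} :=
    (isClosed_le continuous_const continuous_sep).isCompact
  refine ⟨hcl.image_of_continuousOn fun t ht => ?_, ?_⟩
  · have h1 := Wv_memP (ρ := ρ) hα h hpres hε hco ho (hε.trans_le ht)
    exact (ContinuousAt.comp (g := proj τ) (f := Wv α ρ ε o)
      (continuousAt_proj (h.pos_of_mem h0 h1).ne')
      (continuousAt_Wv hα hε o (hε.trans_le ht))).continuousWithinAt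
  · rintro _ ⟨t, ht, rfl⟩
    have := Wv_memP (ρ := ρ) hα h hpres hε hco ho (hε.trans_le ht)
    exact proj_mem_Dom h this (h.pos_of_mem h0 this)

/-- Translating to the compact core. -/
theorem proj_core (hα : IsConvergenceAction α) (h : IsStrictCone C τ) (h0 : (0 : V) ∉ C)
    (hpres : ∀ g, ∀ v ∈ C, ρ g v ∈ C) {ε : ℝ} (hε : 0 < ε)
    (hco : ∀ x y z : X, x ≠ y → y ≠ z → x ≠ z → ∃ g : G,
      ε ≤ dist (α g x) (α g y) ∧ ε ≤ dist (α g y) (α g z) ∧ ε ≤ dist (α g x) (α g z))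
    {o : V} (ho : o ∈ C) {t : Fin 3 → X} (ht : 0 < sep t) (g : G) :
    proj τ (Wv α ρ ε o (act α g t)) = proj τ (ρ g (proj τ (Wv α ρ ε o t))) := by
  have hτ : τ (Wv α ρ ε o t) ≠ 0 :=
    (h.pos_of_mem h0 (Wv_memP (ρ := ρ) hα h hpres hε hco ho ht)).ne'
  rw [Wv_act hα hε o g ht]
  conv_rhs => rw [proj.eq_1 τ (Wv α ρ ε o t), map_smul, proj_smul (inv_ne_zero hτ)]

theorem near_factor [CompactSpace X] [FiniteDimensional ℝ V] (hα : IsConvergenceAction α)
    (hf : IsFactor C τ α ρ hh) {ε : ℝ} (hε : 0 < ε)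
    (hco : ∀ x y z : X, x ≠ y → y ≠ z → x ≠ z → ∃ g : G,
      ε ≤ dist (α g x) (α g y) ∧ ε ≤ dist (α g y) (α g z) ∧ ε ≤ dist (α g x) (α g z))
    {o : V} (ho : o ∈ C) {v₀ : V} (hv₀ : v₀ ∈ Dom C τ) (ξ : X) {U : Set X} (hU : U ∈ 𝓝 ξ) :
    ∃ η > 0, ∀ t : Fin 3 → X, 0 < sep t → Near ξ η t → ∀ y : Bd C τ,
      (y : V) = retr C v₀ (proj τ (Wv α ρ ε o t)) → hh y ∈ U := by
  have h := hf.cone
  obtain ⟨y₀, -⟩ := hf.three
  have h0 : (0 : V) ∉ C := h.zero_notMem (y₀ 0).2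
  by_contra hcon
  push Not at hcon
  choose t ht1 ht2 y hy1 hy2 using fun n : ℕ => hcon (1 / ((n : ℝ) + 1)) (by positivity)
  choose g hg using fun n => exists_wt_pos hε hco (ht1 n)
  obtain ⟨φ, hφ, b, hb⟩ := attract_of_near hα hε (fun n => (g n)⁻¹) t ht2
    (fun n => by rw [inv_inv]; exact hg n)
  obtain ⟨hKc, hKD⟩ := compact_core (ρ := ρ) (τ := τ) hα h h0 hf.pres hε hco ho
  obtain ⟨ψ, hψ, q, hq, hlim, -⟩ := accumulate hf (g := fun n => (g (φ n))⁻¹) (a := ξ) (b := b)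
    hb hKc (fun v hv => (hKD hv).1)
    (fun n => proj τ (Wv α ρ ε o (act α (g (φ n)) (t (φ n)))))
    (fun n => ⟨_, hg (φ n), rfl⟩)
  have hlim' : Tendsto (fun n => proj τ (Wv α ρ ε o (t (φ (ψ n))))) atTop (𝓝 (q : V)) := by
    refine hlim.congr fun n => ?_
    rw [← proj_core hα h h0 hf.pres hε hco ho (hε.trans_le (hg _)), ← act_mul, inv_mul_cancel,
      act_one]
  have hqne : (q : V) ≠ v₀ := fun he => q.2.2.1 (he ▸ hv₀.1)
  have h1 : Tendsto (fun n => (y (φ (ψ n)) : V)) atTop (𝓝 (q : V)) := by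
    have h2 := (continuousAt_retr h hv₀ hqne q.2.2.2).tendsto.comp hlim'
    rw [retr_of_bd h hv₀ q.2] at h2
    refine h2.congr fun n => ?_
    exact (hy1 _).symm
  have h3 : Tendsto (fun n => y (φ (ψ n))) atTop (𝓝 q) := tendsto_subtype_rng.2 h1
  have h4 := (hf.cont.tendsto q).comp h3
  rw [hq] at h4
  have h5 : ∀ᶠ n in atTop, hh (y (φ (ψ n))) ∈ U := h4 hU
  obtain ⟨n, hn⟩ := h5.exists
  exact hy2 _ hn

end Gen

section Main

variable {V : Type} [NormedAddCommGroup V] [NormedSpace ℝ V] {G : Type} [Group G] {E : Type}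
  [NormedAddCommGroup E] [InnerProductSpace ℝ E]
variable {C : Set V} {τ : V →L[ℝ] ℝ} {α : G →* (Sph E ≃ₜ Sph E)} {ρ : G →* (V ≃L[ℝ] V)}
  {hh : Bd C τ → Sph E}

omit [InnerProductSpace ℝ E] in
theorem zero_of_neg [NormedSpace ℝ E] {x : E} (h : -x = x) : x = 0 := by
  have h1 : x + x = 0 := by
    nth_rewrite 1 [← h]
    exact neg_add_cancel x
  have h2 : (2 : ℝ) • x = 0 := by rw [two_smul]; exact h1
  exact (smul_eq_zero.1 h2).resolve_left (by norm_num)

/-- No map to the sphere is the identity on the sphere. -/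
theorem no_retr [FiniteDimensional ℝ E] (Ψ : E → Sph E) (hΨ : Continuous Ψ)
    (hid : ∀ x : Sph E, Ψ (x : E) = x) : False := by
  obtain ⟨x, hx⟩ := Helper31.GZ.Brouwer.brouwer (fun p => -(Ψ p : E))
    (continuous_subtype_val.comp hΨ).neg 1 (fun p => by rw [norm_neg, norm_coe])
  have hx1 : ‖x‖ = 1 := by rw [← hx, norm_neg, norm_coe]
  have h1 : Ψ x = ⟨x, by simpa using hx1⟩ := hid ⟨x, by simpa using hx1⟩
  rw [h1] at hx
  have h2 : x = 0 := by
    have h3 : -x = x := hx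
    exact zero_of_neg h3
  rw [h2] at hx1
  simp at hx1

open Classical in
theorem surj_factor [FiniteDimensional ℝ E] [FiniteDimensional ℝ V]
    (hα : IsConvergenceAction α)
    (hf : IsFactor C τ α ρ hh) {ε : ℝ} (hε : 0 < ε)
    (hco : ∀ x y z : Sph E, x ≠ y → y ≠ z → x ≠ z → ∃ g : G,
      ε ≤ dist (α g x) (α g y) ∧ ε ≤ dist (α g y) (α g z) ∧ ε ≤ dist (α g x) (α g z))
    {o : V} (ho : o ∈ C) {v₀ : V} (hv₀ : v₀ ∈ Dom C τ) :
    ∃ t : Fin 3 → Sph E, 0 < sep t ∧ proj τ (Wv α ρ ε o t) = v₀ := by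
  have : ProperSpace E := FiniteDimensional.proper ℝ E
  have hcS : CompactSpace (Sph E) := isCompact_iff_compactSpace.1 (isCompact_sphere (0 : E) 1)
  by_contra hcon
  push Not at hcon
  have h := hf.cone
  obtain ⟨y₀, hy₀⟩ := hf.three
  have h0 : (0 : V) ∉ C := h.zero_notMem (y₀ 0).2
  set a : Fin 3 → Sph E := fun i => hh (y₀ i) with ha'
  have ha : ∀ i j, i ≠ j → a i ≠ a j := hy₀
  have hWC : ∀ t : Fin 3 → Sph E, 0 < sep t → Wv α ρ ε o t ∈ C := fun t ht =>
    Wv_memP hα h hf.pres hε hco ho ht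
  have hWD : ∀ t : Fin 3 → Sph E, 0 < sep t → proj τ (Wv α ρ ε o t) ∈ Dom C τ := fun t ht =>
    proj_mem_Dom h (hWC t ht) (h.pos_of_mem h0 (hWC t ht))
  have hB : ∀ t : Fin 3 → Sph E, 0 < sep t → retr C v₀ (proj τ (Wv α ρ ε o t)) ∈ Bd C τ :=
    fun t ht => retr_mem h hv₀ (hcon t ht) (hWD t ht).2
  set Ψ : E → Sph E := fun p => if hp : ‖p‖ < 1 then
    hh ⟨retr C v₀ (proj τ (Wv α ρ ε o (sig a p))), hB _ (sep_sig ha hp)⟩ else nrm (a 0) p with hΨ
  have hΨin : ∀ {p : E} (hp : ‖p‖ < 1), Ψ p =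
      hh ⟨retr C v₀ (proj τ (Wv α ρ ε o (sig a p))), hB _ (sep_sig ha hp)⟩ := fun hp => by
    simp [hΨ, hp]
  have hΨout : ∀ {p : E} (_ : ¬ ‖p‖ < 1), Ψ p = nrm (a 0) p := fun hp => by
    simp only [hΨ, dif_neg hp]
  refine no_retr Ψ ?_ ?_
  · rw [continuous_iff_continuousAt]
    intro p
    rcases lt_trichotomy ‖p‖ 1 with hp | hp | hp
    · -- interior point
      intro U hU
      rw [hΨin hp] at hU
      have hs := sep_sig ha hp
      set y : Bd C τ := ⟨retr C v₀ (proj τ (Wv α ρ ε o (sig a p))), hB _ hs⟩ with hy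
      have h1 : hh ⁻¹' U ∈ 𝓝 y := hf.cont.continuousAt hU
      rw [nhds_subtype, Filter.mem_comap] at h1
      obtain ⟨O, hO, hOU⟩ := h1
      have h3 : ContinuousAt (fun q => Wv α ρ ε o (sig a q)) p :=
        ContinuousAt.comp (f := sig a) (g := Wv α ρ ε o) (continuousAt_Wv hα hε o hs)
          (continuousAt_sig a hp)
      have h4 : ContinuousAt (fun q => proj τ (Wv α ρ ε o (sig a q))) p :=
        ContinuousAt.comp (f := fun q => Wv α ρ ε o (sig a q)) (g := proj τ)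
          (continuousAt_proj (h.pos_of_mem h0 (hWC _ hs)).ne') h3
      have h5 : ContinuousAt (fun q => retr C v₀ (proj τ (Wv α ρ ε o (sig a q)))) p :=
        ContinuousAt.comp (f := fun q => proj τ (Wv α ρ ε o (sig a q))) (g := retr C v₀)
          (continuousAt_retr h hv₀ (hcon _ hs) (hWD _ hs).2) h4
      have h6 : ∀ᶠ q in 𝓝 p, ‖q‖ < 1 := continuous_norm.continuousAt.eventually_lt_const hp
      rw [Filter.mem_map]
      filter_upwards [h5 hO, h6] with q hq1 hq2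
      change Ψ q ∈ U
      rw [hΨin hq2]
      exact hOU hq1
    · obtain ⟨ξ, rfl⟩ : ∃ ξ : Sph E, (ξ : E) = p := ⟨⟨p, by simpa using hp⟩, rfl⟩
      intro U hU
      rw [hΨout (by rw [hp]; exact lt_irrefl _), nrm_self] at hU
      obtain ⟨η, hη, hη'⟩ := near_factor hα hf hε hco ho hv₀ ξ hU
      have h1 := near_sig ha ξ hη
      have hξ0 : (ξ : E) ≠ 0 := by rw [← norm_pos_iff, hp]; norm_num
      have h3 : ∀ᶠ q in 𝓝 (ξ : E), nrm (a 0) q ∈ U := by
        refine continuousAt_nrm (a 0) hξ0 ?_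
        rwa [nrm_self]
      rw [Filter.mem_map]
      filter_upwards [h1, h3] with q hq1 hq2
      change Ψ q ∈ U
      by_cases hq : ‖q‖ < 1
      · rw [hΨin hq]
        exact hη' _ (sep_sig ha hq) hq1 _ rfl
      · rw [hΨout hq]
        exact hq2
    · have h1 : ∀ᶠ q in 𝓝 p, 1 < ‖q‖ := continuous_norm.continuousAt.eventually_const_lt hp
      have h2 : nrm (a 0) =ᶠ[𝓝 p] Ψ := by
        filter_upwards [h1] with q hq
        rw [hΨout (not_lt.2 hq.le)]
      have hp0 : p ≠ 0 := by rw [← norm_pos_iff]; linarith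
      exact (continuousAt_nrm _ hp0).congr h2
  · intro x
    rw [hΨout (by rw [norm_coe]; exact lt_irrefl _), nrm_self]

/-- Every point of the sphere is conical. -/
theorem conical [FiniteDimensional ℝ E] (hE : 2 ≤ Module.finrank ℝ E)
    (hα : IsConvergenceAction α) (hco : CocompactOnTriples α) (x : Sph E) :
    ∃ (g : ℕ → G) (a : Sph E) (δ : ℝ), 0 < δ ∧ Conv α g a x ∧ ∀ n, δ ≤ dist (α (g n) x) a := by
  have hrank : 1 < Module.rank ℝ E := by
    rw [← Module.finrank_eq_rank]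
    exact_mod_cast hE
  have hconn : ConnectedSpace (Sph E) :=
    Subtype.connectedSpace (isConnected_sphere hrank (0 : E) zero_le_one)
  obtain ⟨ε, hε, hco⟩ := hco
  have hx1 : ‖(x : E)‖ = 1 := norm_coe x
  -- the antipode
  set w : Sph E := ⟨-(x : E), by simp [hx1]⟩ with hw
  have hwx : w ≠ x := by
    intro he
    have h1 : -(x : E) = x := congrArg Subtype.val he
    have h2 : (x : E) = 0 := zero_of_neg h1
    rw [h2] at hx1
    simp at hx1
  have hnt : Nontrivial (Sph E) := ⟨⟨w, x, hwx⟩⟩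
  have hnb : (𝓝[≠] x).NeBot := inferInstance
  have hu : ∀ n : ℕ, ∃ u : Sph E, u ≠ x ∧ u ≠ w ∧ dist u x < 1 / ((n : ℝ) + 1) := by
    intro n
    have h1 : ∀ᶠ u in 𝓝[≠] x, u ≠ x ∧ u ≠ w ∧ dist u x < 1 / ((n : ℝ) + 1) := by
      have e1 : ∀ᶠ u in 𝓝[≠] x, u ≠ x := eventually_mem_nhdsWithin
      have e2 : ∀ᶠ u in 𝓝 x, u ≠ w := isOpen_compl_singleton.mem_nhds (by simpa using hwx.symm)
      have e3 : ∀ᶠ u in 𝓝 x, dist u x < 1 / ((n : ℝ) + 1) :=
        Metric.ball_mem_nhds x (by positivity)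
      exact e1.and ((e2.and e3).filter_mono nhdsWithin_le_nhds)
    exact h1.exists
  choose u hu1 hu2 hu3 using hu
  choose g hg1 hg2 hg3 using fun n => hco x (u n) w (hu1 n).symm (hu2 n) hwx.symm
  have hlim : Tendsto (fun n : ℕ => 1 / ((n : ℝ) + 1)) atTop (𝓝 0) :=
    tendsto_one_div_add_atTop_nhds_zero_nat
  have hulim : Tendsto u atTop (𝓝 x) := by
    rw [tendsto_iff_dist_tendsto_zero]
    exact squeeze_zero (fun _ => dist_nonneg) (fun n => (hu3 n).le) hlim
  have hcof : Tendsto g atTop cofinite := by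
    refine tendsto_cofinite_of_ne fun g₀ => ?_
    have h1 : Tendsto (fun n => dist (α g₀ x) (α g₀ (u n))) atTop (𝓝 (dist (α g₀ x) (α g₀ x))) :=
      tendsto_const_nhds.dist (((α g₀).continuous.tendsto x).comp hulim)
    rw [dist_self] at h1
    filter_upwards [h1.eventually_lt_const hε] with n hn heq
    have := hg1 n
    rw [heq] at this
    linarith
  obtain ⟨φ, hφ, a, b, hab⟩ := hα g hcof
  have hbx : b = x := by
    by_contra hne
    have hd : 0 < dist x b := dist_pos.2 (Ne.symm hne)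
    have h1 := hab (Metric.ball a (ε / 2)) (Metric.ball_mem_nhds a (by positivity))
      (Metric.ball b (dist x b / 2)) (Metric.ball_mem_nhds b (by positivity))
    have h2 : ∀ᶠ n in atTop, dist (u (φ n)) x < dist x b / 2 :=
      (hulim.comp hφ.tendsto_atTop).eventually (Metric.ball_mem_nhds x (by positivity))
    obtain ⟨n, hn1, hn2⟩ := (h1.and h2).exists
    have h3 := hn1 x (by simp only [Metric.mem_ball, not_lt]; linarith)
    have h4 := hn1 (u (φ n)) (by
      simp only [Metric.mem_ball, not_lt]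
      have := dist_triangle_left x b (u (φ n))
      linarith)
    have h5 := hg1 (φ n)
    have h6 := dist_triangle_right (α (g (φ n)) x) (α (g (φ n)) (u (φ n))) a
    simp only [Metric.mem_ball] at h3 h4
    linarith
  subst hbx
  have hw' : Tendsto (fun n => α (g (φ n)) w) atTop (𝓝 a) :=
    Conv.tendsto (g := fun n => g (φ n)) hab hwx
  obtain ⟨N, hN⟩ := ((Metric.tendsto_nhds.1 hw') (ε / 2) (half_pos hε)).exists_forall_of_atTop
  refine ⟨fun n => g (φ (n + N)), a, ε / 2, half_pos hε, ?_, fun n => ?_⟩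
  · intro U hU W hW
    exact (tendsto_add_atTop_nat N).eventually (hab U hU W hW)
  · have h1 := hN (n + N) (by omega)
    have h2 := hg3 (φ (n + N))
    have h3 := dist_triangle_right (α (g (φ (n + N))) b) (α (g (φ (n + N))) w) a
    linarith

/-- The main theorem on factors. -/
theorem main_factor [FiniteDimensional ℝ E] [FiniteDimensional ℝ V] (hE : 2 ≤ Module.finrank ℝ E)
    (hα : IsConvergenceAction α) (hco : CocompactOnTriples α) (hf : IsFactor C τ α ρ hh) :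
    (∀ K ⊆ Dom C τ, IsCompact K → {g : G | ∃ v ∈ K, proj τ (ρ g v) ∈ K}.Finite) ∧
    (∃ K ⊆ Dom C τ, IsCompact K ∧ ∀ v ∈ Dom C τ, ∃ g, proj τ (ρ g v) ∈ K) ∧
    IsHomeomorph hh := by
  have : ProperSpace E := FiniteDimensional.proper ℝ E
  have hcS : CompactSpace (Sph E) := isCompact_iff_compactSpace.1 (isCompact_sphere (0 : E) 1)
  have h := hf.cone
  obtain ⟨y₀, hy₀⟩ := hf.three
  have h0 : (0 : V) ∉ C := h.zero_notMem (y₀ 0).2
  obtain ⟨o₁, ho₁⟩ := h.nonempty
  set o := proj τ o₁ with hodef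
  have ho : o ∈ Dom C τ := proj_mem_Dom h ho₁ (h.pos_of_mem h0 ho₁)
  have hco' := hco
  obtain ⟨ε, hε, hco⟩ := hco
  obtain ⟨hKc, hKD⟩ := compact_core (ρ := ρ) (τ := τ) hα h h0 hf.pres hε hco ho.1
  refine ⟨fun K hK hKc => proper_factor hα hf hKc hK, ?_, ?_⟩
  · refine ⟨_, hKD, hKc, fun v hv => ?_⟩
    obtain ⟨t, ht, htv⟩ := surj_factor hα hf hε hco ho.1 hv
    obtain ⟨g, hg⟩ := exists_wt_pos hε hco ht
    refine ⟨g, act α g t, hg, ?_⟩
    change proj τ (Wv α ρ ε o (act α g t)) = _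
    rw [proj_core hα h h0 hf.pres hε hco ho.1 ht g, htv]
  · have hcB : CompactSpace (Bd C τ) := by
      rw [← isCompact_iff_compactSpace]
      have h1 : Bd C τ = Kbar C τ ∩ Cᶜ := by
        ext v
        constructor
        · rintro ⟨h1, h2, h3⟩
          exact ⟨⟨h1, h3⟩, h2⟩
        · rintro ⟨⟨h1, h3⟩, h2⟩
          exact ⟨h1, h2, h3⟩
      rw [h1]
      exact (isCompact_Kbar h).inter_right h.isOpen.isClosed_compl
    rw [isHomeomorph_iff_continuous_bijective]
    refine ⟨hf.cont, ?_, ?_⟩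
    · -- injectivity
      intro y₁ y₂ hyy
      obtain ⟨g, a, δ, hδ, hconv, hfar⟩ := conical hE hα hco' (hh y₁)
      obtain ⟨φ, hφ, q, hq, -, y', hy'⟩ := accumulate hf hconv (K := {o}) isCompact_singleton
        (by simpa using ho.1) (fun _ => o) (fun _ => rfl)
      have key : ∀ y : Bd C τ, hh y = hh y₁ → y = y' := by
        intro y hy
        by_contra hne
        have h1 := hy' y hne
        rw [hy] at h1
        obtain ⟨n, hn⟩ := ((Metric.tendsto_nhds.1 h1) δ hδ).exists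
        exact absurd hn (not_lt.2 (hfar _))
      rw [key y₁ rfl, key y₂ hyy.symm]
    · intro x
      obtain ⟨g, a, δ, hδ, hconv, hfar⟩ := conical hE hα hco' x
      -- use the inverse sequence, which converges to `x`
      have hinv : ∀ n : ℕ, ∃ t : Fin 3 → Sph E, 0 < sep t ∧ Near x (1 / ((n : ℝ) + 1)) t := by
        intro n
        have ha : ∀ i j, i ≠ j → (fun i => hh (y₀ i)) i ≠ (fun i => hh (y₀ i)) j := hy₀
        have h1 := near_sig ha x (η := 1 / ((n : ℝ) + 1)) (by positivity)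
        have h2 : ∃ᶠ p in 𝓝 (x : E), ‖p‖ < 1 := by
          have h3 : Tendsto (fun s : ℝ => s • (x : E)) (𝓝[<] 1) (𝓝 (x : E)) := by
            have : Tendsto (fun s : ℝ => s • (x : E)) (𝓝 1) (𝓝 ((1 : ℝ) • (x : E))) :=
              (continuous_id.smul continuous_const).tendsto 1
            rw [one_smul] at this
            exact this.mono_left nhdsWithin_le_nhds
          refine h3.frequently (Filter.Eventually.frequently ?_)
          have h4 : ∀ᶠ s : ℝ in 𝓝[<] 1, 0 < s :=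
            nhdsWithin_le_nhds (lt_mem_nhds zero_lt_one)
          filter_upwards [h4, self_mem_nhdsWithin] with s hs hs1
          rw [norm_smul, norm_coe, mul_one, Real.norm_of_nonneg hs.le]
          exact hs1
        obtain ⟨p, hp1, hp2⟩ := (h2.and_eventually h1).exists
        exact ⟨_, sep_sig ha hp1, hp2⟩
      choose t ht1 ht2 using hinv
      choose k hk using fun n => exists_wt_pos hε hco (ht1 n)
      obtain ⟨φ, hφ, b, hb⟩ := attract_of_near hα hε (fun n => (k n)⁻¹) t ht2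
        (fun n => by rw [inv_inv]; exact hk n)
      obtain ⟨ψ, hψ, q, hq, -, -⟩ := accumulate hf (g := fun n => (k (φ n))⁻¹) (a := x) (b := b)
        hb (K := {o}) isCompact_singleton (by simpa using ho.1) (fun _ => o) (fun _ => rfl)
      exact ⟨q, hq⟩

end Main

end Pool.Agent.TH289.C
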