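import Pool.Agent.TH289.C.C7
import Pool.Agent.TH289.C.C10

/-!
# Factors of Möbius actions
-/

set_option autoImplicit false

open Filter Topology Set

namespace Pool.Agent.TH289.C

section Lor

variable {E : Type} [NormedAddCommGroup E] [InnerProductSpace ℝ E] {G : Type} [Group G]
variable {ρ : G →* ((ℝ × E) ≃L[ℝ] (ℝ × E))}

theorem Hyp_Lc {v : ℝ × E} (hv : v ∈ Hyp E) : v ∈ Lc E :=
  mem_Lc_iff.2 ⟨by rw [hv.1]; exact one_pos, hv.2⟩

theorem Lc_pos {v : ℝ × E} (hv : v ∈ Lc E) : 0 < ContinuousLinearMap.fst ℝ ℝ E v :=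
  (mem_Lc_iff.1 hv).2

theorem hyp_proper
    (h1 : ∀ K ⊆ Dom (Lc E) (ContinuousLinearMap.fst ℝ ℝ E), IsCompact K →
      {g : G | ∃ v ∈ K, proj (ContinuousLinearMap.fst ℝ ℝ E) (ρ g v) ∈ K}.Finite) :
    ∀ K ⊆ Hyp E, IsCompact K → {g : G | ∃ v ∈ K, ρ g v ∈ K}.Finite := by
  set τ := ContinuousLinearMap.fst ℝ ℝ E with hτ
  have hS : IsStrictCone (Lc E) τ := isStrictCone_Lc
  intro K hK hKc
  have hc : ContinuousOn (proj τ) K := fun v hv =>
    (continuousAt_proj (Lc_pos (Hyp_Lc (hK hv))).ne').continuousWithinAt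
  refine (h1 (proj τ '' K) ?_ (hKc.image_of_continuousOn hc)).subset ?_
  · rintro _ ⟨v, hv, rfl⟩
    exact proj_mem_Dom hS (Hyp_Lc (hK hv)) (Lc_pos (Hyp_Lc (hK hv)))
  · rintro g ⟨v, hv, hgv⟩
    refine ⟨proj τ v, ⟨v, hv, rfl⟩, ρ g v, hgv, ?_⟩
    have hp := Lc_pos (Hyp_Lc (hK hv))
    conv_rhs => rw [proj.eq_1 τ v, map_smul, proj_smul (inv_ne_zero hp.ne')]

theorem qf_smul (c : ℝ) (v : ℝ × E) : qf (c • v) = c ^ 2 * qf v := by
  unfold qf
  simp only [Prod.smul_fst, Prod.smul_snd, smul_eq_mul]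
  rw [norm_smul, Real.norm_eq_abs, mul_pow, mul_pow, sq_abs]
  ring

theorem hyp_cocompact (hρ : ∀ g, IsIso (ρ g))
    (h2 : ∃ K ⊆ Dom (Lc E) (ContinuousLinearMap.fst ℝ ℝ E), IsCompact K ∧
      ∀ v ∈ Dom (Lc E) (ContinuousLinearMap.fst ℝ ℝ E),
        ∃ g, proj (ContinuousLinearMap.fst ℝ ℝ E) (ρ g v) ∈ K) :
    ∃ K ⊆ Hyp E, IsCompact K ∧ ∀ v ∈ Hyp E, ∃ g, ρ g v ∈ K := by
  set τ := ContinuousLinearMap.fst ℝ ℝ E with hτ
  have hS : IsStrictCone (Lc E) τ := isStrictCone_Lc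
  obtain ⟨K, hKD, hKc, hK⟩ := h2
  set nm : ℝ × E → ℝ × E := fun v => (Real.sqrt (qf v))⁻¹ • v with hnm
  have hnmc : ContinuousOn nm K := by
    intro v hv
    have hq : 0 < qf v := (mem_Lc_iff.1 (hKD hv).1).1
    have hqc : Continuous (qf : ℝ × E → ℝ) := by
      unfold qf; fun_prop
    have : ContinuousAt (fun v : ℝ × E => (Real.sqrt (qf v))⁻¹) v :=
      ((Real.continuous_sqrt.comp hqc).continuousAt).inv₀ (Real.sqrt_pos.2 hq).ne'
    exact (this.smul continuousAt_id).continuousWithinAt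
  refine ⟨nm '' K, ?_, hKc.image_of_continuousOn hnmc, ?_⟩
  · rintro _ ⟨v, hv, rfl⟩
    have hq := (mem_Lc_iff.1 (hKD hv).1)
    have hs := Real.sqrt_pos.2 hq.1
    refine ⟨?_, ?_⟩
    · rw [hnm]
      simp only
      rw [qf_smul, inv_pow, Real.sq_sqrt hq.1.le, inv_mul_cancel₀ hq.1.ne']
    · simp only [hnm, Prod.smul_fst, smul_eq_mul]
      exact mul_pos (inv_pos.2 hs) hq.2
  · intro v hv
    have hvL := Hyp_Lc hv
    have hp := Lc_pos hvL
    obtain ⟨g, hg⟩ := hK (proj τ v) (proj_mem_Dom hS hvL hp)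
    have h5 : proj τ (ρ g (proj τ v)) = proj τ (ρ g v) := by
      conv_lhs => rw [proj.eq_1 τ v, map_smul, proj_smul (inv_ne_zero hp.ne')]
    rw [h5] at hg
    refine ⟨g, proj τ (ρ g v), hg, ?_⟩
    have hw : ρ g v ∈ Lc E := isIso_pres (hρ g) hvL
    have hwp := Lc_pos hw
    have hq1 : qf (ρ g v) = 1 := by rw [(hρ g).1, hv.1]
    have hq2 : qf (proj τ (ρ g v)) = ((τ (ρ g v))⁻¹) ^ 2 := by
      unfold proj
      rw [qf_smul, hq1, mul_one]
    rw [hnm]
    simp only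
    rw [hq2, Real.sqrt_sq (inv_pos.2 hwp).le, inv_inv, proj, smul_smul, mul_inv_cancel₀ hwp.ne',
      one_smul]

theorem bd_snd_mem (v : Bd (Lc E) (ContinuousLinearMap.fst ℝ ℝ E)) :
    (v : ℝ × E).2 ∈ Metric.sphere (0 : E) 1 := by
  rw [mem_sphere_zero_iff_norm]
  exact (Bd_Lc.1 v.2).2

theorem light_mem (x : Sph E) :
    ((1 : ℝ), (x : E)) ∈ Bd (Lc E) (ContinuousLinearMap.fst ℝ ℝ E) :=
  Bd_Lc.2 ⟨rfl, norm_coe x⟩

theorem bd_left (v : Bd (Lc E) (ContinuousLinearMap.fst ℝ ℝ E)) :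
    ((1 : ℝ), (v : ℝ × E).2) = (v : ℝ × E) :=
  Prod.ext (Bd_Lc.1 v.2).1.symm rfl

/-- The identification of the boundary of the light cone with the sphere. -/
noncomputable def bdFun (v : Bd (Lc E) (ContinuousLinearMap.fst ℝ ℝ E)) : Sph E :=
  ⟨(v : ℝ × E).2, bd_snd_mem v⟩

/-- The inverse map. -/
noncomputable def bdInv (x : Sph E) : Bd (Lc E) (ContinuousLinearMap.fst ℝ ℝ E) :=
  ⟨((1 : ℝ), (x : E)), light_mem x⟩

theorem continuous_bdFun : Continuous (bdFun (E := E)) :=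
  Continuous.subtype_mk (continuous_snd.comp continuous_subtype_val) _

theorem continuous_bdInv : Continuous (bdInv (E := E)) :=
  Continuous.subtype_mk (continuous_const.prodMk continuous_subtype_val) _

/-- The identification of the boundary of the light cone with the sphere. -/
noncomputable def bdHomeo : Bd (Lc E) (ContinuousLinearMap.fst ℝ ℝ E) ≃ₜ Sph E where
  toFun := bdFun
  invFun := bdInv
  left_inv v := Subtype.ext (bd_left v)
  right_inv _ := Subtype.ext rfl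
  continuous_toFun := continuous_bdFun
  continuous_invFun := continuous_bdInv

/-- The main theorem on factors, for hyperbolic space. -/
theorem main_factor_hyp {E' : Type} [NormedAddCommGroup E'] [InnerProductSpace ℝ E']
    [FiniteDimensional ℝ E'] [FiniteDimensional ℝ E]
    (hE' : 2 ≤ Module.finrank ℝ E') (hE : 2 ≤ Module.finrank ℝ E)
    {α : G →* (Sph E' ≃ₜ Sph E')} (hα : IsConvergenceAction α) (hco : CocompactOnTriples α)
    (hρ : ∀ g, IsIso (ρ g)) (f : C(Sph E, Sph E')) (hne : ∃ x y, f x ≠ f y)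
    (hequi : ∀ g (x y : Sph E) (c : ℝ), 0 < c → ρ g (1, (x : E)) = c • (1, (y : E)) →
      f y = α g (f x)) :
    (∀ K ⊆ Hyp E, IsCompact K → {g : G | ∃ v ∈ K, ρ g v ∈ K}.Finite) ∧
    (∃ K ⊆ Hyp E, IsCompact K ∧ ∀ v ∈ Hyp E, ∃ g, ρ g v ∈ K) ∧
    IsHomeomorph f := by
  obtain ⟨z, hz⟩ := exists_three'' hE f hne
  have hf : IsFactor (Lc E) (ContinuousLinearMap.fst ℝ ℝ E) α ρ (fun v => f (bdHomeo v)) := by
    refine ⟨isStrictCone_Lc, f.continuous.comp bdHomeo.continuous,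
      fun g v hv => isIso_pres (hρ g) hv, ?_, ⟨fun i => bdHomeo.symm (z i), fun i j hij => ?_⟩⟩
    · intro g y w hw
      have hp : 0 < ContinuousLinearMap.fst ℝ ℝ E (ρ g y) :=
        rho_pos isStrictCone_Lc (fun g v hv => isIso_pres (hρ g) hv) g y.2.1
          (ne_zero_of_one y.2.2.2)
      refine hequi g (bdHomeo y) (bdHomeo w) _ hp ?_
      have h1 : ((1 : ℝ), ((bdHomeo y : Sph E) : E)) = (y : ℝ × E) :=
        bd_left y
      have h2 : ((1 : ℝ), ((bdHomeo w : Sph E) : E)) = (w : ℝ × E) :=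
        bd_left w
      rw [h1, h2, hw, proj, smul_smul, mul_inv_cancel₀ hp.ne', one_smul]
    · simp only [Homeomorph.apply_symm_apply]
      exact hz i j hij
  obtain ⟨h1, h2, h3⟩ := main_factor hE' hα hco hf
  refine ⟨hyp_proper h1, hyp_cocompact hρ h2, ?_⟩
  have h4 := h3.comp bdHomeo.symm.isHomeomorph
  have h5 : (fun v => f (bdHomeo v)) ∘ bdHomeo.symm = (f : Sph E → Sph E') := by
    funext x
    simp
  rwa [h5] at h4

end Lor

/-- `ρ` is an action by isometries of hyperbolic space `H^{m+1}`, and `h` is an equivariant map from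
its boundary sphere `S^m` to the `G`-space `S^n`. -/
def HypFactor {m n : ℕ} {G : Type} [Group G] (α : Action G (Sn n)) (ρ : LinAction G (Mink m))
    (h : Sn m → Sn n) : Prop :=
  (∀ g v, lor (ρ.map g v) = lor v) ∧ (∀ g, 0 < time (ρ.map g (origin m))) ∧
    ∀ g x y (c : ℝ), 0 < c → ρ.map g (light x) = c • light y → h y = α.map g (h x)

/-- `ρ` is a linear action preserving the strictly convex cone `C`, and `h` is an equivariant map
from the boundary of the domain `P(C)` to the `G`-space `S^n`. -/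
def ProjFactor {n : ℕ} {G : Type} [Group G] (α : Action G (Sn n)) {V : Type}
    [NormedAddCommGroup V] [NormedSpace ℝ V] (C : Set V) (τ : V →L[ℝ] ℝ) (ρ : LinAction G V)
    (h : Bd C τ → Sn n) : Prop :=
  IsStrictCone C τ ∧ (∀ g, ∀ v ∈ C, ρ.map g v ∈ C) ∧
    ∀ g (y z : Bd C τ), z.1 = projAct τ ρ g y.1 → h z = α.map g (h y)

end Pool.Agent.TH289.C
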