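import Pool.Agent.TH289.C.C11

/-!
# Equivariant maps from closed invariant subsets of the boundary
-/

set_option autoImplicit false

open Filter Topology Set

namespace Pool.Agent.TH289.C

section FactorOn

variable {V : Type} [NormedAddCommGroup V] [NormedSpace ℝ V] {G : Type} [Group G] {X : Type}
  [MetricSpace X]
variable {C : Set V} {τ : V →L[ℝ] ℝ} {α : G →* (X ≃ₜ X)} {ρ : G →* (V ≃L[ℝ] V)}
  {Λ : Set V} {hh : Λ → X}

variable (C τ α ρ) in
/-- `hh` is an equivariant map to `X` from the closed invariant subset `Λ` of the boundary of the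
domain. -/
structure IsFactorOn (Λ : Set V) (hh : Λ → X) : Prop where
  cone : IsStrictCone C τ
  sub : Λ ⊆ Bd C τ
  closed : IsClosed Λ
  inv : ∀ g, ∀ v ∈ Λ, proj τ (ρ g v) ∈ Λ
  cont : Continuous hh
  pres : ∀ g, ∀ v ∈ C, ρ g v ∈ C
  equi : ∀ g (y z : Λ), (z : V) = proj τ (ρ g y) → hh z = α g (hh y)
  three : ∃ y : Fin 3 → Λ, ∀ i j, i ≠ j → hh (y i) ≠ hh (y j)

theorem IsFactorOn.lim_mem (hf : IsFactorOn C τ α ρ Λ hh) {o : V}
    (ho : o ∈ Dom C τ) {g : ℕ → G} {A : V →L[ℝ] V}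
    (hA : Tendsto (fun n => nA τ ρ o (g n)) atTop (𝓝 A)) (y : Λ)
    (hpos : 0 < τ (A y)) : proj τ (A y) ∈ Λ := by
  have ho0 : ∀ g, 0 < τ (ρ g o) := fun g =>
    rho_pos hf.cone hf.pres g (subset_closure ho.1) (ne_zero_of_one ho.2)
  have h1 : Tendsto (fun n => nA τ ρ o (g n) (y : V)) atTop (𝓝 (A y)) :=
    ((ContinuousLinearMap.apply ℝ V (y : V)).continuous.tendsto A).comp hA
  have h2 : Tendsto (fun n => proj τ (nA τ ρ o (g n) (y : V))) atTop (𝓝 (proj τ (A y))) :=
    (continuousAt_proj hpos.ne').tendsto.comp h1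
  refine hf.closed.mem_of_tendsto h2 (Eventually.of_forall fun n => ?_)
  rw [nA_apply, proj_smul (inv_ne_zero (ho0 _).ne')]
  exact hf.inv (g n) y y.2

theorem IsFactorOn.tendsto_of_lim (hf : IsFactorOn C τ α ρ Λ hh) {o : V}
    (ho : o ∈ Dom C τ) {g : ℕ → G} {A : V →L[ℝ] V}
    (hA : Tendsto (fun n => nA τ ρ o (g n)) atTop (𝓝 A)) {y z : Λ}
    (hz : (z : V) = proj τ (A y)) (hpos : 0 < τ (A y)) :
    Tendsto (fun n => α (g n) (hh y)) atTop (𝓝 (hh z)) := by
  have ho0 : ∀ g, 0 < τ (ρ g o) := fun g =>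
    rho_pos hf.cone hf.pres g (subset_closure ho.1) (ne_zero_of_one ho.2)
  set w : ℕ → Λ := fun n => ⟨proj τ (ρ (g n) y), hf.inv (g n) y y.2⟩ with hw
  have h1 : Tendsto (fun n => nA τ ρ o (g n) (y : V)) atTop (𝓝 (A y)) :=
    ((ContinuousLinearMap.apply ℝ V (y : V)).continuous.tendsto A).comp hA
  have h2 : Tendsto (fun n => proj τ (nA τ ρ o (g n) (y : V))) atTop (𝓝 (proj τ (A y))) :=
    (continuousAt_proj hpos.ne').tendsto.comp h1
  have h3 : Tendsto (fun n => (w n : V)) atTop (𝓝 (z : V)) := by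
    rw [hz]
    refine h2.congr fun n => ?_
    rw [nA_apply, proj_smul (inv_ne_zero (ho0 _).ne')]
  have h4 : Tendsto w atTop (𝓝 z) := tendsto_subtype_rng.2 h3
  have h5 := (hf.cont.tendsto z).comp h4
  refine h5.congr fun n => ?_
  exact hf.equi (g n) y (w n) rfl

/-- Limits of the normalised maps along converging sequences are singular. -/
theorem not_interior_on [FiniteDimensional ℝ V] (hf : IsFactorOn C τ α ρ Λ hh) {o : V}
    (ho : o ∈ Dom C τ) {g : ℕ → G} {a b : X} (hab : Conv α g a b) {A : V →L[ℝ] V}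
    (hA : Tendsto (fun n => nA τ ρ o (g n)) atTop (𝓝 A))
    (hAc : ∀ v ∈ closure C, A v ∈ closure C) (hAo : τ (A o) = 1) : A o ∈ Bd C τ := by
  have h := hf.cone
  obtain ⟨y, hy⟩ := hf.three
  have hbd : ∀ y : Λ, (y : V) ∈ Bd C τ := fun y => hf.sub y.2
  have h0 : (0 : V) ∉ C := h.zero_notMem (hbd (y 0))
  refine ⟨hAc o (subset_closure ho.1), fun hAC => ?_, hAo⟩
  have ho0 : ∀ g, 0 < τ (ρ g o) := fun g =>
    rho_pos h hf.pres g (subset_closure ho.1) (ne_zero_of_one ho.2)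
  obtain ⟨φ, hφ, B, v₀, -, hB, -, hBc, hBo⟩ := exists_lim h h0 hf.pres ho (fun n => (g n)⁻¹)
    (K := {o}) isCompact_singleton (fun _ => o) (fun _ => rfl)
  have hA' : Tendsto (fun n => nA τ ρ o (g (φ n))) atTop (𝓝 A) := hA.comp hφ.tendsto_atTop
  set c : ℕ → ℝ := fun n => (τ (ρ (g (φ n))⁻¹ o))⁻¹ * (τ (ρ (g (φ n)) o))⁻¹ with hc
  have hBA : ∀ n v, nA τ ρ o (g (φ n))⁻¹ (nA τ ρ o (g (φ n)) v) = c n • v := by
    intro n v
    rw [nA_apply, nA_apply, map_smul, rho_inv, smul_smul]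
  have hAB : ∀ n v, nA τ ρ o (g (φ n)) (nA τ ρ o (g (φ n))⁻¹ v) = c n • v := by
    intro n v
    rw [nA_apply, nA_apply, map_smul, ← rho_mul, mul_inv_cancel, rho_one, smul_smul, hc, mul_comm]
  have hcompc : ∀ v, Tendsto (fun n => nA τ ρ o (g (φ n))⁻¹ (nA τ ρ o (g (φ n)) v)) atTop
      (𝓝 (B (A v))) := by
    intro v
    have h1 : Tendsto (fun n => nA τ ρ o (g (φ n)) v) atTop (𝓝 (A v)) :=
      tendsto_clm hA' tendsto_const_nhds
    exact tendsto_clm hB h1
  have hcompc' : ∀ v, Tendsto (fun n => nA τ ρ o (g (φ n)) (nA τ ρ o (g (φ n))⁻¹ v)) atTop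
      (𝓝 (A (B v))) := by
    intro v
    have h1 : Tendsto (fun n => nA τ ρ o (g (φ n))⁻¹ v) atTop (𝓝 (B v)) :=
      tendsto_clm hB tendsto_const_nhds
    exact tendsto_clm hA' h1
  have hclim : Tendsto c atTop (𝓝 (τ (B (A o)))) := by
    have h1 := (τ.continuous.tendsto _).comp (hcompc o)
    refine h1.congr fun n => ?_
    change τ (nA τ ρ o (g (φ n))⁻¹ (nA τ ρ o (g (φ n)) o)) = c n
    rw [hBA, map_smul, ho.2, smul_eq_mul, mul_one]
  set c₀ := τ (B (A o)) with hc₀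
  have hc₀pos : 0 < c₀ := pos_of_interior h ho.1 hBc hBo hAC
  have hABv : ∀ v, A (B v) = c₀ • v := by
    intro v
    refine tendsto_nhds_unique (hcompc' v) ?_
    refine (hclim.smul_const v).congr fun n => ?_
    rw [hAB]
  have hz : ∀ i, ∃ z : Λ, (y i : V) = proj τ (A z) ∧ 0 < τ (A z) := by
    intro i
    have hBy : B (y i) ∈ closure C := hBc _ (hbd (y i)).1
    have hBy0 : B (y i) ≠ 0 := by
      intro hb
      have h1 := hABv (y i)
      rw [hb, map_zero] at h1
      exact ne_zero_of_one (hbd (y i)).2.2 ((smul_eq_zero.1 h1.symm).resolve_left hc₀pos.ne')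
    have hp := h.pos _ hBy hBy0
    have hAz : A (proj τ (B (y i))) = ((τ (B (y i)))⁻¹ * c₀) • (y i : V) := by
      rw [proj, map_smul, hABv, smul_smul]
    refine ⟨⟨proj τ (B (y i)), hf.lim_mem ho hB (y i) hp⟩, ?_, ?_⟩
    · change (y i : V) = proj τ (A (proj τ (B (y i))))
      rw [hAz, proj_smul (by positivity), proj_of_one (hbd (y i)).2.2]
    · change 0 < τ (A (proj τ (B (y i))))
      rw [hAz, map_smul, (hbd (y i)).2.2]
      simp only [smul_eq_mul, mul_one]
      positivity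
  choose z hz1 hz2 using hz
  have hlim : ∀ i, Tendsto (fun n => α (g n) (hh (z i))) atTop (𝓝 (hh (y i))) := fun i =>
    hf.tendsto_of_lim ho hA (hz1 i) (hz2 i)
  have hone : ∀ i, hh (y i) ≠ a → hh (z i) = b := by
    intro i hi
    by_contra hne
    exact hi (tendsto_nhds_unique (hlim i) (hab.tendsto hne))
  have htwo : ∃ i j, i ≠ j ∧ hh (z i) = b ∧ hh (z j) = b := by
    have key : ∀ i j, i ≠ j → hh (y i) = a → hh (z j) = b := by
      intro i j hij h1
      exact hone j fun h2 => hy i j hij (h1.trans h2.symm)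
    by_cases h1 : hh (y 0) = a
    · exact ⟨1, 2, by decide, key 0 1 (by decide) h1, key 0 2 (by decide) h1⟩
    · by_cases h2 : hh (y 1) = a
      · exact ⟨0, 2, by decide, hone 0 h1, key 1 2 (by decide) h2⟩
      · exact ⟨0, 1, by decide, hone 0 h1, hone 1 h2⟩
  obtain ⟨i, j, hij, hi, hj⟩ := htwo
  have h1 := hlim i
  have h2 := hlim j
  rw [hi] at h1
  rw [hj] at h2
  exact hy i j hij (tendsto_nhds_unique h1 h2)

theorem accumulate_on [FiniteDimensional ℝ V] (hf : IsFactorOn C τ α ρ Λ hh) {g : ℕ → G} {a b : X}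
    (hab : Conv α g a b) {K : Set V} (hK : IsCompact K) (hKC : K ⊆ C) (v : ℕ → V)
    (hv : ∀ n, v n ∈ K) : ∃ φ : ℕ → ℕ, StrictMono φ ∧ ∃ q : Λ, hh q = a ∧
      Tendsto (fun n => proj τ (ρ (g (φ n)) (v (φ n)))) atTop (𝓝 (q : V)) ∧
      ∃ y' : Λ, ∀ y : Λ, y ≠ y' →
        Tendsto (fun n => α (g (φ n)) (hh y)) atTop (𝓝 a) := by
  have h := hf.cone
  obtain ⟨y, hy⟩ := hf.three
  have hbd : ∀ y : Λ, (y : V) ∈ Bd C τ := fun y => hf.sub y.2
  have h0 : (0 : V) ∉ C := h.zero_notMem (hbd (y 0))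
  obtain ⟨o₁, ho₁⟩ := h.nonempty
  set o := proj τ o₁ with hodef
  have ho : o ∈ Dom C τ := proj_mem_Dom h ho₁ (h.pos_of_mem h0 ho₁)
  have ho0 : ∀ g, 0 < τ (ρ g o) := fun g =>
    rho_pos h hf.pres g (subset_closure ho.1) (ne_zero_of_one ho.2)
  obtain ⟨φ, hφ, A, v₀, hv₀, hA, hvlim, hAc, hAo⟩ := exists_lim h h0 hf.pres ho g hK v hv
  have hab' := hab.comp hφ
  have hq : A o ∈ Bd C τ := not_interior_on hf ho hab' hA hAc hAo
  have hrank : ∀ v ∈ closure C, A v = τ (A v) • A o := fun v hv => rank_one h ho.1 hAc hq hv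
  have hproj : ∀ v ∈ closure C, 0 < τ (A v) → proj τ (A v) = A o := by
    intro v hv hp
    conv_lhs => rw [hrank v hv]
    rw [proj_smul hp.ne', proj_of_one hAo]
  have hkill : ∀ y₁ y₂ : Λ, y₁ ≠ y₂ → ¬ 0 < τ (A y₁) → 0 < τ (A y₂) := by
    intro y₁ y₂ hne h1
    have h2 := tau_nonneg h (hAc _ (hbd y₁).1)
    have h3 := tau_nonneg h (hAc _ (hbd y₂).1)
    have hC : (y₁ : V) + y₂ ∈ C := h.strict _ (hbd y₁).1 _ (hbd y₂).1 (hbd y₁).2.2 (hbd y₂).2.2
      (fun he => hne (Subtype.ext he))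
    have h4 := pos_of_interior h ho.1 hAc hAo hC
    rw [map_add, map_add] at h4
    push Not at h1
    linarith
  have hyy : ∀ i j, i ≠ j → y i ≠ y j := fun i j hij he => hy i j hij (by rw [he])
  have hqΛ : A o ∈ Λ := by
    by_cases h1 : 0 < τ (A (y 0))
    · have h2 := hf.lim_mem ho hA (y 0) h1
      rwa [hproj _ (hbd (y 0)).1 h1] at h2
    · have h3 := hkill (y 0) (y 1) (hyy 0 1 (by decide)) h1
      have h2 := hf.lim_mem ho hA (y 1) h3
      rwa [hproj _ (hbd (y 1)).1 h3] at h2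
  set q : Λ := ⟨A o, hqΛ⟩ with hqdef
  have hlim : ∀ y : Λ, 0 < τ (A y) →
      Tendsto (fun n => α (g (φ n)) (hh y)) atTop (𝓝 (hh q)) := fun y hp =>
    hf.tendsto_of_lim ho hA (z := q) (hproj y (hbd y).1 hp).symm hp
  have hqa : hh q = a := by
    have : ∃ i, hh (y i) ≠ b ∧ 0 < τ (A (y i)) := by
      by_contra hcon
      push Not at hcon
      have h3 : ∀ i, hh (y i) = b ∨ ¬ 0 < τ (A (y i)) := by
        intro i
        by_cases hb : hh (y i) = b
        · exact Or.inl hb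
        · exact Or.inr (not_lt.2 (hcon i hb))
      have hbb : ∀ i j, i ≠ j → hh (y i) = b → hh (y j) ≠ b := fun i j hij h1 h2 =>
        hy i j hij (h1.trans h2.symm)
      have hkk : ∀ i j, i ≠ j → ¬ 0 < τ (A (y i)) → 0 < τ (A (y j)) := fun i j hij h1 =>
        hkill _ _ (hyy i j hij) h1
      rcases h3 0 with h4 | h4 <;> rcases h3 1 with h5 | h5 <;> rcases h3 2 with h6 | h6
      · exact hbb 0 1 (by decide) h4 h5
      · exact hbb 0 1 (by decide) h4 h5
      · exact hbb 0 2 (by decide) h4 h6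
      · exact h6 (hkk 1 2 (by decide) h5)
      · exact hbb 1 2 (by decide) h5 h6
      · exact h6 (hkk 0 2 (by decide) h4)
      · exact h5 (hkk 0 1 (by decide) h4)
      · exact h5 (hkk 0 1 (by decide) h4)
    obtain ⟨i, hi1, hi2⟩ := this
    exact tendsto_nhds_unique (hlim _ hi2) (hab'.tendsto hi1)
  refine ⟨φ, hφ, q, hqa, ?_, ?_⟩
  · have hv₀C := hKC hv₀
    have hp : 0 < τ (A v₀) := pos_of_interior h ho.1 hAc hAo hv₀C
    have h1 : Tendsto (fun n => nA τ ρ o (g (φ n)) (v (φ n))) atTop (𝓝 (A v₀)) :=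
      tendsto_clm hA hvlim
    have h2 := (continuousAt_proj hp.ne').tendsto.comp h1
    rw [hproj v₀ (subset_closure hv₀C) hp] at h2
    refine h2.congr fun n => ?_
    change proj τ (nA τ ρ o (g (φ n)) (v (φ n))) = _
    rw [nA_apply, proj_smul (inv_ne_zero (ho0 _).ne')]
  · by_cases hall : ∀ y : Λ, 0 < τ (A y)
    · exact ⟨q, fun y _ => hqa ▸ hlim y (hall y)⟩
    · push Not at hall
      obtain ⟨y', hy'⟩ := hall
      exact ⟨y', fun y hne => hqa ▸ hlim y (hkill y' y hne.symm (not_lt.2 hy'))⟩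

theorem proper_factor_on [FiniteDimensional ℝ V] (hα : IsConvergenceAction α)
    (hf : IsFactorOn C τ α ρ Λ hh) {K : Set V} (hK : IsCompact K)
    (hKD : K ⊆ Dom C τ) : {g : G | ∃ v ∈ K, proj τ (ρ g v) ∈ K}.Finite := by
  by_contra hinf
  have hinf' : {g : G | ∃ v ∈ K, proj τ (ρ g v) ∈ K}.Infinite := hinf
  set e := hinf'.natEmbedding
  have hg : Function.Injective fun n => (e n : G) := fun m n h => e.injective (Subtype.ext h)
  obtain ⟨φ, hφ, a, b, hab⟩ := hα _ (tendsto_cofinite_of_inj hg)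
  choose v hv hv' using fun n => (e n).2
  obtain ⟨ψ, hψ, q, hq, hlim, -⟩ := accumulate_on hf (g := fun n => (e (φ n) : G)) (a := a) (b := b)
    hab hK (fun v hv => (hKD hv).1) (fun n => v (φ n)) (fun n => hv _)
  have h1 : (q : V) ∈ K := hK.isClosed.mem_of_tendsto hlim (Eventually.of_forall fun n => hv' _)
  exact (hf.sub q.2).2.1 (hKD h1).1

end FactorOn

section Main

variable {V : Type} [NormedAddCommGroup V] [NormedSpace ℝ V] {G : Type} [Group G] {E : Type}
  [NormedAddCommGroup E] [InnerProductSpace ℝ E]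
variable {C : Set V} {τ : V →L[ℝ] ℝ} {α : G →* (Sph E ≃ₜ Sph E)} {ρ : G →* (V ≃L[ℝ] V)}
  {Λ : Set V} {hh : Λ → Sph E}

/-- Equivariant maps from closed invariant subsets of the boundary to the sphere are
homeomorphisms. -/
theorem homeo_on [FiniteDimensional ℝ E] [FiniteDimensional ℝ V] (hE : 2 ≤ Module.finrank ℝ E)
    (hα : IsConvergenceAction α) (hco : CocompactOnTriples α) (hf : IsFactorOn C τ α ρ Λ hh) :
    IsHomeomorph hh := by
  have : ProperSpace E := FiniteDimensional.proper ℝ E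
  have hcS : CompactSpace (Sph E) := isCompact_iff_compactSpace.1 (isCompact_sphere (0 : E) 1)
  have h := hf.cone
  obtain ⟨y₀, hy₀⟩ := hf.three
  have h0 : (0 : V) ∉ C := h.zero_notMem (hf.sub (y₀ 0).2)
  obtain ⟨o₁, ho₁⟩ := h.nonempty
  set o := proj τ o₁ with hodef
  have ho : o ∈ Dom C τ := proj_mem_Dom h ho₁ (h.pos_of_mem h0 ho₁)
  have hco' := hco
  obtain ⟨ε, hε, hco⟩ := hco
  have hcB : CompactSpace Λ := by
    rw [← isCompact_iff_compactSpace]
    exact (isCompact_Kbar h).of_isClosed_subset hf.closed fun v hv =>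
      ⟨(hf.sub hv).1, (hf.sub hv).2.2⟩
  rw [isHomeomorph_iff_continuous_bijective]
  refine ⟨hf.cont, ?_, ?_⟩
  · intro y₁ y₂ hyy
    obtain ⟨g, a, δ, hδ, hconv, hfar⟩ := conical hE hα hco' (hh y₁)
    obtain ⟨φ, hφ, q, hq, -, y', hy'⟩ := accumulate_on hf hconv (K := {o}) isCompact_singleton
      (by simpa using ho.1) (fun _ => o) (fun _ => rfl)
    have key : ∀ y : Λ, hh y = hh y₁ → y = y' := by
      intro y hy
      by_contra hne
      have h1 := hy' y hne
      rw [hy] at h1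
      obtain ⟨n, hn⟩ := ((Metric.tendsto_nhds.1 h1) δ hδ).exists
      exact absurd hn (not_lt.2 (hfar _))
    rw [key y₁ rfl, key y₂ hyy.symm]
  · intro x
    have hinv : ∀ n : ℕ, ∃ t : Fin 3 → Sph E, 0 < sep t ∧ Near x (1 / ((n : ℝ) + 1)) t := by
      intro n
      have ha : ∀ i j, i ≠ j → (fun i => hh (y₀ i)) i ≠ (fun i => hh (y₀ i)) j := hy₀
      have h1 := near_sig ha x (η := 1 / ((n : ℝ) + 1)) (by positivity)
      have h2 : ∃ᶠ p in 𝓝 (x : E), ‖p‖ < 1 := by
        have h3 : Tendsto (fun s : ℝ => s • (x : E)) (𝓝[<] 1) (𝓝 (x : E)) := by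
          have : Tendsto (fun s : ℝ => s • (x : E)) (𝓝 1) (𝓝 ((1 : ℝ) • (x : E))) :=
            (continuous_id.smul continuous_const).tendsto 1
          rw [one_smul] at this
          exact this.mono_left nhdsWithin_le_nhds
        refine h3.frequently (Filter.Eventually.frequently ?_)
        have h4 : ∀ᶠ s : ℝ in 𝓝[<] 1, 0 < s :=
          nhdsWithin_le_nhds (lt_mem_nhds zero_lt_one)
        filter_upwards [h4, self_mem_nhdsWithin] with s hs hs1
        rw [norm_smul, norm_coe, mul_one, Real.norm_of_nonneg hs.le]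
        exact hs1
      obtain ⟨p, hp1, hp2⟩ := (h2.and_eventually h1).exists
      exact ⟨_, sep_sig ha hp1, hp2⟩
    choose t ht1 ht2 using hinv
    choose k hk using fun n => exists_wt_pos hε hco (ht1 n)
    obtain ⟨φ, hφ, b, hb⟩ := attract_of_near hα hε (fun n => (k n)⁻¹) t ht2
      (fun n => by rw [inv_inv]; exact hk n)
    obtain ⟨ψ, hψ, q, hq, -, -⟩ := accumulate_on hf (g := fun n => (k (φ n))⁻¹) (a := x) (b := b)
      hb (K := {o}) isCompact_singleton (by simpa using ho.1) (fun _ => o) (fun _ => rfl)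
    exact ⟨q, hq⟩

/-- A nonconstant map with invariant image takes at least three values. -/
theorem three_on [FiniteDimensional ℝ E] (hE : 2 ≤ Module.finrank ℝ E)
    (hα : IsConvergenceAction α) (hco : CocompactOnTriples α) {L : Type} (hh : L → Sph E)
    (move : ∀ g (y : L), ∃ z : L, hh z = α g (hh y)) (hne : ∃ x y, hh x ≠ hh y) :
    ∃ y : Fin 3 → L, ∀ i j, i ≠ j → hh (y i) ≠ hh (y j) := by
  obtain ⟨y₁, y₂, hy⟩ := hne
  by_contra hcon
  push Not at hcon
  have htwo : ∀ y, hh y = hh y₁ ∨ hh y = hh y₂ := by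
    intro y
    by_contra h1
    push Not at h1
    obtain ⟨i, j, hij, h2⟩ := hcon ![y₁, y₂, y]
    fin_cases i <;> fin_cases j <;>
      first
        | exact hij rfl
        | exact hy h2
        | exact hy h2.symm
        | exact h1.1 h2
        | exact h1.1 h2.symm
        | exact h1.2 h2
        | exact h1.2 h2.symm
  have hrank : 1 < Module.rank ℝ E := by
    rw [← Module.finrank_eq_rank]
    exact_mod_cast hE
  have hpre : IsPreconnected (Metric.sphere (0 : E) 1) := isPreconnected_sphere hrank 0 1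
  have hps : PreconnectedSpace (Sph E) := Subtype.preconnectedSpace hpre
  have hinf : (univ : Set (Sph E)).Infinite :=
    isPreconnected_univ.infinite_of_nontrivial ⟨hh y₁, trivial, hh y₂, trivial, hy⟩
  obtain ⟨x, -, hx⟩ := hinf.exists_notMem_finite (Set.toFinite ({hh y₁, hh y₂} : Set (Sph E)))
  have hx' : x ≠ hh y₁ ∧ x ≠ hh y₂ := by
    rw [mem_insert_iff, mem_singleton_iff] at hx
    push Not at hx
    exact hx
  obtain ⟨g, a, δ, hδ, hconv, hfar⟩ := conical hE hα hco x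
  have l1 := hconv.tendsto hx'.1.symm
  have l2 := hconv.tendsto hx'.2.symm
  have l3 : Tendsto (fun n => dist (α (g n) (hh y₁)) (α (g n) (hh y₂))) atTop (𝓝 (dist a a)) :=
    l1.dist l2
  rw [dist_self] at l3
  have hconst : ∀ n, dist (α (g n) (hh y₁)) (α (g n) (hh y₂)) = dist (hh y₁) (hh y₂) := by
    intro n
    obtain ⟨z₁, hz₁⟩ := move (g n) y₁
    obtain ⟨z₂, hz₂⟩ := move (g n) y₂
    have hd : α (g n) (hh y₁) ≠ α (g n) (hh y₂) := fun h => hy ((α (g n)).injective h)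
    rw [← hz₁, ← hz₂] at hd ⊢
    rcases htwo z₁ with h1 | h1 <;> rcases htwo z₂ with h2 | h2
    · exact absurd (h1.trans h2.symm) hd
    · rw [h1, h2]
    · rw [h1, h2, dist_comm]
    · exact absurd (h1.trans h2.symm) hd
  have l4 : Tendsto (fun _ : ℕ => dist (hh y₁) (hh y₂)) atTop (𝓝 0) :=
    l3.congr hconst
  exact hy (dist_eq_zero.1 (tendsto_nhds_unique tendsto_const_nhds l4))

end Main

end Pool.Agent.TH289.C
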