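import Pool.Agent.TH289.C.C12
import Pool.Agent.Helper514.IoD

/-!
# Equivariant maps from closed invariant subsets of the sphere at infinity
-/

set_option autoImplicit false

open Filter Topology Set

namespace Pool.Agent.TH289.C

section Inj

variable {E : Type} [NormedAddCommGroup E] [InnerProductSpace ℝ E] [FiniteDimensional ℝ E]

/-- There is no continuous injection from a sphere to the Euclidean space of the same dimension. -/
theorem no_inj {n : ℕ} (hn : 1 ≤ n) [hfact : Fact (Module.finrank ℝ E = n + 1)]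
    (F : Sph E → EuclideanSpace ℝ (Fin n)) (hF : Continuous F) (hinj : Function.Injective F) :
    False := by
  have hps : ProperSpace E := FiniteDimensional.proper ℝ E
  have hcS : CompactSpace (Sph E) := isCompact_iff_compactSpace.1 (isCompact_sphere (0 : E) 1)
  have hpos : 0 < Module.finrank ℝ E := by rw [hfact.out]; omega
  have hnt : Nontrivial E := Module.finrank_pos_iff.1 hpos
  have hnf : Nontrivial (EuclideanSpace ℝ (Fin n)) := by
    apply Module.finrank_pos_iff (R := ℝ) |>.1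
    rw [finrank_euclideanSpace_fin]
    exact hn
  obtain ⟨x₀, hx₀⟩ : (Metric.sphere (0 : E) 1).Nonempty := NormedSpace.sphere_nonempty.2 zero_le_one
  have hopen : IsOpen (range F) := by
    rw [isOpen_iff_mem_nhds]
    rintro _ ⟨x, rfl⟩
    set v : Metric.sphere (0 : E) 1 := ⟨-(x : E), by simp [norm_coe x]⟩ with hv
    set e := stereographic' n v with he
    have hxs : x ∈ e.source := by
      rw [he, stereographic'_source, mem_compl_iff, mem_singleton_iff]
      intro h1
      have h2 : (x : E) = -(x : E) := congrArg Subtype.val h1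
      have h3 : (x : E) = 0 := zero_of_neg h2.symm
      have h4 := norm_coe x
      rw [h3] at h4
      simp at h4
    have ht : e.target = univ := stereographic'_target v
    have hc : Continuous e.symm := by
      rw [← continuousOn_univ, ← ht]
      exact e.continuousOn_symm
    have hi : Function.Injective e.symm := by
      intro a b hab
      have h1 := e.right_inv (x := a) (by rw [ht]; trivial)
      have h2 := e.right_inv (x := b) (by rw [ht]; trivial)
      rw [← h1, ← h2, hab]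
    have h1 := Helper514.IoD.image_mem_nhds (fun p => F (e.symm p)) (e x) 1 one_pos
      (hF.comp hc).continuousOn (hinj.comp hi).injOn
    simp only [e.left_inv hxs] at h1
    refine mem_of_superset h1 ?_
    rintro _ ⟨p, -, rfl⟩
    exact ⟨_, rfl⟩
  have hcomp : IsCompact (range F) := isCompact_range hF
  have huniv : range F = univ :=
    IsClopen.eq_univ ⟨hcomp.isClosed, hopen⟩ ⟨F ⟨x₀, hx₀⟩, ⟨_, rfl⟩⟩
  rw [huniv] at hcomp
  exact noncompact_univ _ hcomp

/-- A continuous injection of a sphere to itself is surjective. -/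
theorem inj_surj (hE : 2 ≤ Module.finrank ℝ E) (k : Sph E → Sph E) (hk : Continuous k)
    (hinj : Function.Injective k) : Function.Surjective k := by
  by_contra hcon
  unfold Function.Surjective at hcon
  push Not at hcon
  obtain ⟨v, hv⟩ := hcon
  obtain ⟨n, hn⟩ : ∃ n, Module.finrank ℝ E = n + 1 := ⟨Module.finrank ℝ E - 1, by omega⟩
  have : Fact (Module.finrank ℝ E = n + 1) := ⟨hn⟩
  set e := stereographic' n v with he
  have hs : ∀ x, k x ∈ e.source := fun x => by
    rw [he, stereographic'_source]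
    exact hv x
  refine no_inj (E := E) (n := n) (by omega) (fun x => e (k x)) ?_ ?_
  · rw [continuous_iff_continuousAt]
    intro x
    exact (e.continuousAt (hs x)).comp hk.continuousAt
  · intro a b hab
    exact hinj (e.injOn (hs a) (hs b) hab)

end Inj

section Lor

variable {E : Type} [NormedAddCommGroup E] [InnerProductSpace ℝ E] {G : Type} [Group G]
variable {ρ : G →* ((ℝ × E) ≃L[ℝ] (ℝ × E))}

/-- The set of light-like vectors `(1, x)`, `x` in `Λ`. -/
def Lam (Λ : Set (Sph E)) : Set (ℝ × E) :=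
  {v | v.1 = 1 ∧ ∃ h : v.2 ∈ Metric.sphere (0 : E) 1, (⟨v.2, h⟩ : Sph E) ∈ Λ}

theorem isClosed_Lam {Λ : Set (Sph E)} (hΛ : IsClosed Λ) : IsClosed (Lam Λ) := by
  have h1 : IsClosed (Subtype.val '' Λ : Set E) :=
    (Metric.isClosed_sphere.isClosedEmbedding_subtypeVal).isClosedMap Λ hΛ
  have h2 : Lam Λ = (Prod.fst ⁻¹' {(1 : ℝ)}) ∩ (Prod.snd ⁻¹' (Subtype.val '' Λ : Set E)) := by
    ext v
    constructor
    · rintro ⟨h3, h4, h5⟩
      exact ⟨h3, ⟨_, h5, rfl⟩⟩
    · rintro ⟨h3, ⟨x, hx, hxv⟩⟩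
      refine ⟨h3, ?_⟩
      have hxv' : (x : E) = v.2 := hxv
      refine ⟨hxv' ▸ x.2, ?_⟩
      have : (⟨v.2, hxv' ▸ x.2⟩ : Sph E) = x := Subtype.ext hxv'.symm
      rw [this]
      exact hx
  rw [h2]
  exact (isClosed_singleton.preimage continuous_fst).inter (h1.preimage continuous_snd)

/-- The map from `Lam Λ` to `Λ`. -/
def kap {Λ : Set (Sph E)} (v : Lam Λ) : Λ := ⟨⟨(v : ℝ × E).2, v.2.2.choose⟩, v.2.2.choose_spec⟩

/-- The inverse map. -/
def kapInv {Λ : Set (Sph E)} (x : Λ) : Lam Λ := ⟨((1 : ℝ), ((x : Sph E) : E)), rfl, x.1.2, x.2⟩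

theorem continuous_kap {Λ : Set (Sph E)} : Continuous (kap (Λ := Λ)) :=
  Continuous.subtype_mk (Continuous.subtype_mk (continuous_snd.comp continuous_subtype_val) _) _

theorem continuous_kapInv {Λ : Set (Sph E)} : Continuous (kapInv (Λ := Λ)) :=
  Continuous.subtype_mk (continuous_const.prodMk
    (continuous_subtype_val.comp continuous_subtype_val)) _

theorem kapInv_kap {Λ : Set (Sph E)} (v : Lam Λ) : kapInv (kap v) = v :=
  Subtype.ext (Prod.ext v.2.1.symm rfl)

/-- The identification of `Lam Λ` with `Λ`. -/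
def kapHomeo {Λ : Set (Sph E)} : Lam Λ ≃ₜ Λ where
  toFun := kap
  invFun := kapInv
  left_inv := kapInv_kap
  right_inv _ := rfl
  continuous_toFun := continuous_kap
  continuous_invFun := continuous_kapInv

theorem light_kap {Λ : Set (Sph E)} (v : Lam Λ) :
    ((1 : ℝ), (((kap v : Λ) : Sph E) : E)) = (v : ℝ × E) :=
  Prod.ext v.2.1.symm rfl

/-- The theorem for closed invariant subsets of the sphere at infinity. -/
theorem main_on_hyp {E' : Type} [NormedAddCommGroup E'] [InnerProductSpace ℝ E']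
    [FiniteDimensional ℝ E'] [FiniteDimensional ℝ E]
    (hE' : 2 ≤ Module.finrank ℝ E')
    {α : G →* (Sph E' ≃ₜ Sph E')} (hα : IsConvergenceAction α) (hco : CocompactOnTriples α)
    (hρ : ∀ g, IsIso (ρ g)) (Λ : Set (Sph E)) (hΛ : IsClosed Λ)
    (hinv : ∀ g (x y : Sph E) (c : ℝ), 0 < c → ρ g (1, (x : E)) = c • (1, (y : E)) →
      x ∈ Λ → y ∈ Λ) (f : C(Λ, Sph E'))
    (hne : ∃ x y, f x ≠ f y)
    (hequi : ∀ g (x y : Λ) (c : ℝ), 0 < c → ρ g (1, ((x : Sph E) : E)) =
      c • (1, ((y : Sph E) : E)) → f y = α g (f x)) :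
    (∀ K ⊆ Hyp E, IsCompact K → {g : G | ∃ v ∈ K, ρ g v ∈ K}.Finite) ∧ IsHomeomorph f := by
  have hpres : ∀ g, ∀ v ∈ Lc E, ρ g v ∈ Lc E := fun g v hv => isIso_pres (hρ g) hv
  have hsub : Lam Λ ⊆ Bd (Lc E) (ContinuousLinearMap.fst ℝ ℝ E) := by
    rintro v ⟨h1, h2, -⟩
    exact Bd_Lc.2 ⟨h1, by simpa using h2⟩
  have hinvL : ∀ g, ∀ v ∈ Lam Λ, proj (ContinuousLinearMap.fst ℝ ℝ E) (ρ g v) ∈ Lam Λ := by
      intro g v hv
      have hb := rho_bd isStrictCone_Lc hpres g (hsub hv)
      have hp : 0 < ContinuousLinearMap.fst ℝ ℝ E (ρ g v) :=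
        rho_pos isStrictCone_Lc hpres g (hsub hv).1 (ne_zero_of_one (hsub hv).2.2)
      have hb' := Bd_Lc.1 hb
      have hs : (proj (ContinuousLinearMap.fst ℝ ℝ E) (ρ g v)).2 ∈ Metric.sphere (0 : E) 1 := by
        rw [mem_sphere_zero_iff_norm]
        exact hb'.2
      refine ⟨hb'.1, hs, ?_⟩
      refine hinv g ⟨v.2, hv.2.choose⟩ ⟨_, hs⟩ _ hp ?_ hv.2.choose_spec
      have h1 : ((1 : ℝ), v.2) = v := Prod.ext hv.1.symm rfl
      have h2 : ((1 : ℝ), (proj (ContinuousLinearMap.fst ℝ ℝ E) (ρ g v)).2) =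
          proj (ContinuousLinearMap.fst ℝ ℝ E) (ρ g v) := Prod.ext hb'.1.symm rfl
      change ρ g ((1 : ℝ), v.2) = _ • ((1 : ℝ), (proj (ContinuousLinearMap.fst ℝ ℝ E) (ρ g v)).2)
      rw [h1, h2, proj, smul_smul, mul_inv_cancel₀ hp.ne', one_smul]
  have hequiL : ∀ g (y w : Lam Λ), (w : ℝ × E) = proj (ContinuousLinearMap.fst ℝ ℝ E) (ρ g y) →
      f (kapHomeo w) = α g (f (kapHomeo y)) := by
      intro g y w hw
      have hp : 0 < ContinuousLinearMap.fst ℝ ℝ E (ρ g y) :=
        rho_pos isStrictCone_Lc hpres g (hsub y.2).1 (ne_zero_of_one (hsub y.2).2.2)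
      refine hequi g (kap y) (kap w) _ hp ?_
      rw [light_kap, light_kap, hw, proj, smul_smul, mul_inv_cancel₀ hp.ne', one_smul]
  have hf : IsFactorOn (Lc E) (ContinuousLinearMap.fst ℝ ℝ E) α ρ (Lam Λ)
      (fun v => f (kapHomeo v)) := by
    refine ⟨isStrictCone_Lc, hsub, isClosed_Lam hΛ, hinvL, f.continuous.comp kapHomeo.continuous,
      hpres, hequiL, ?_⟩
    have hmove : ∀ g (y : Lam Λ), ∃ z : Lam Λ, f (kapHomeo z) = α g (f (kapHomeo y)) :=
      fun g y => ⟨⟨_, hinvL g y y.2⟩, hequiL g y ⟨_, hinvL g y y.2⟩ rfl⟩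
    have hne' : ∃ x y : Lam Λ, f (kapHomeo x) ≠ f (kapHomeo y) := by
      obtain ⟨x, y, hxy⟩ := hne
      exact ⟨kapHomeo.symm x, kapHomeo.symm y, by simpa using hxy⟩
    exact three_on (α := α) hE' hα hco (fun v : Lam Λ => f (kapHomeo v)) hmove hne'
  refine ⟨hyp_proper fun K hK hKc => proper_factor_on hα hf hKc hK, ?_⟩
  have h4 := (homeo_on hE' hα hco hf).comp kapHomeo.symm.isHomeomorph
  have h5 : (fun v => f (kapHomeo v)) ∘ kapHomeo.symm = (f : Λ → Sph E') := by
    funext x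
    simp
  rwa [h5] at h4

/-- A closed subset of the sphere that is homeomorphic to the sphere is the whole sphere. -/
theorem eq_univ_of_homeo [FiniteDimensional ℝ E] (hE : 2 ≤ Module.finrank ℝ E) (Λ : Set (Sph E))
    (f : C(Λ, Sph E)) (hf : IsHomeomorph f) : Λ = univ := by
  set F := hf.homeomorph f with hF
  have h1 := inj_surj hE (fun x => ((F.symm x : Λ) : Sph E))
    (continuous_subtype_val.comp F.symm.continuous)
    (Subtype.val_injective.comp F.symm.injective)
  refine eq_univ_of_forall fun x => ?_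
  obtain ⟨y, hy⟩ := h1 x
  rw [← hy]
  exact (F.symm y).2

end Lor

/-- Padding with zeros. -/
noncomputable def pad (k l : ℕ) (x : EuclideanSpace ℝ (Fin k)) : EuclideanSpace ℝ (Fin l) :=
  WithLp.toLp 2 fun i => if h : i.1 < k then x ⟨i.1, h⟩ else 0

theorem continuous_pad (k l : ℕ) : Continuous (pad k l) := by
  unfold pad
  refine (PiLp.continuous_toLp 2 _).comp (continuous_pi fun i => ?_)
  by_cases h : i.1 < k
  · simp only [h, dif_pos]
    fun_prop
  · simp only [h, dif_neg, not_false_eq_true]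
    exact continuous_const

theorem pad_injective {k l : ℕ} (h : k ≤ l) : Function.Injective (pad k l) := by
  intro x y hxy
  ext i
  have h1 := congrArg (fun z : EuclideanSpace ℝ (Fin l) => z ⟨i.1, i.2.trans_le h⟩) hxy
  simpa [pad, i.2] using h1

/-- There is no continuous injection from `S^l` to `S^k` if `k < l`. -/
theorem no_inj_sphere {k l : ℕ} (hkl : k < l) (f : Sph (Euc l) → Sph (Euc k)) (hf : Continuous f)
    (hinj : Function.Injective f) : False := by
  have : Fact (Module.finrank ℝ (Euc l) = l + 1) := ⟨by simp⟩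
  refine no_inj (E := Euc l) (n := l) (by omega)
    (fun x => pad (k + 1) l ((f x : Sph (Euc k)) : Euc k)) ?_ ?_
  · exact (continuous_pad _ _).comp (continuous_subtype_val.comp hf)
  · exact (pad_injective (by omega)).comp (Subtype.val_injective.comp hinj)

/-- The theorem for hyperbolic spaces of any dimension. -/
theorem main_all {m n : ℕ} (hn : 1 ≤ n) {G : Type} [Group G]
    {ρ : G →* ((ℝ × Euc m) ≃L[ℝ] (ℝ × Euc m))}
    {α : G →* (Sph (Euc n) ≃ₜ Sph (Euc n))} (hα : IsConvergenceAction α)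
    (hco : CocompactOnTriples α)
    (hρ : ∀ g, IsIso (ρ g)) (Λ : Set (Sph (Euc m))) (hΛ : IsClosed Λ)
    (hinv : ∀ g (x y : Sph (Euc m)) (c : ℝ), 0 < c → ρ g (1, (x : Euc m)) = c • (1, (y : Euc m)) →
      x ∈ Λ → y ∈ Λ) (h : C(Λ, Sph (Euc n)))
    (hne : ∃ x y, h x ≠ h y)
    (hequi : ∀ g (x y : Λ) (c : ℝ), 0 < c → ρ g (1, ((x : Sph (Euc m)) : Euc m)) =
      c • (1, ((y : Sph (Euc m)) : Euc m)) → h y = α g (h x)) :
    (∀ K ⊆ Hyp (Euc m), IsCompact K → {g : G | ∃ v ∈ K, ρ g v ∈ K}.Finite) ∧ IsHomeomorph h ∧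
    (m ≤ n ∨ Λ = univ → m = n ∧ Λ = univ ∧
      ∃ K ⊆ Hyp (Euc m), IsCompact K ∧ ∀ v ∈ Hyp (Euc m), ∃ g, ρ g v ∈ K) := by
  have hE : ∀ k : ℕ, 1 ≤ k → 2 ≤ Module.finrank ℝ (Euc k) := fun k hk => by simp; omega
  obtain ⟨hprop, hhom⟩ := main_on_hyp (E' := Euc n) (E := Euc m) (α := α) (ρ := ρ)
    (hE n hn) hα hco hρ Λ hΛ hinv h hne hequi
  refine ⟨hprop, hhom, fun hm => ?_⟩
  set F := hhom.homeomorph h with hF
  have hmn : m = n := by
    rcases lt_trichotomy m n with hlt | heq | hgt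
    · exact (no_inj_sphere hlt (fun x => ((F.symm x : Λ) : Sph (Euc m)))
        (continuous_subtype_val.comp F.symm.continuous)
        (Subtype.val_injective.comp F.symm.injective)).elim
    · exact heq
    · rcases hm with hm | hm
      · omega
      · subst hm
        exact (no_inj_sphere hgt (fun x => h ⟨x, trivial⟩)
          (h.continuous.comp (Continuous.subtype_mk continuous_id _))
          (fun x y hxy => congrArg Subtype.val (hhom.injective hxy))).elim
  subst hmn
  have hΛu : Λ = univ := eq_univ_of_homeo (E := Euc m) (hE m hn) Λ h hhom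
  subst hΛu
  refine ⟨rfl, rfl, ?_⟩
  set f : C(Sph (Euc m), Sph (Euc m)) := ⟨fun x => h ⟨x, trivial⟩,
    h.continuous.comp (Continuous.subtype_mk continuous_id _)⟩ with hf
  have hne' : ∃ x y, f x ≠ f y := by
    obtain ⟨x, y, hxy⟩ := hne
    exact ⟨x, y, hxy⟩
  exact (main_factor_hyp (E' := Euc m) (E := Euc m) (α := α) (ρ := ρ) (hE m hn) (hE m hn)
    hα hco hρ f hne'
    (fun g x y c hc hxy => hequi g ⟨x, trivial⟩ ⟨y, trivial⟩ c hc hxy)).2.1

/-- `ρ` is an action by isometries of hyperbolic space `H^{m+1}`, `Λ` is a closed invariant subset of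
its boundary sphere `S^m`, and `h` is an equivariant map from `Λ` to the `G`-space `S^n`. -/
def HypFactorOn {m n : ℕ} {G : Type} [Group G] (α : Action G (Sn n)) (ρ : LinAction G (Mink m))
    (Λ : Set (Sn m)) (h : Λ → Sn n) : Prop :=
  (∀ g v, lor (ρ.map g v) = lor v) ∧ (∀ g, 0 < time (ρ.map g (origin m))) ∧ IsClosed Λ ∧
    (∀ g x y (c : ℝ), 0 < c → ρ.map g (light x) = c • light y → x ∈ Λ → y ∈ Λ) ∧
    ∀ g (x y : Λ) (c : ℝ), 0 < c → ρ.map g (light x.1) = c • light y.1 → h y = α.map g (h x)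

/-- `ρ` is a linear action preserving the strictly convex cone `C`, `Λ` is a closed invariant subset
of the boundary of the domain `P(C)` and `h` is an equivariant map from `Λ` to the `G`-space
`S^n`. -/
def ProjFactorOn {n : ℕ} {G : Type} [Group G] (α : Action G (Sn n)) {V : Type}
    [NormedAddCommGroup V] [NormedSpace ℝ V] (C : Set V) (τ : V →L[ℝ] ℝ) (ρ : LinAction G V)
    (Λ : Set V) (h : Λ → Sn n) : Prop :=
  IsStrictCone C τ ∧ (∀ g, ∀ v ∈ C, ρ.map g v ∈ C) ∧ Λ ⊆ Bd C τ ∧ IsClosed Λ ∧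
    (∀ g, ∀ v ∈ Λ, projAct τ ρ g v ∈ Λ) ∧
    ∀ g (y z : Λ), z.1 = projAct τ ρ g y.1 → h z = α.map g (h y)

end Pool.Agent.TH289.C
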