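import Pool.Agent.TH289.C.C1

/-!
# Equivariant maps from a convergence action to the boundary of a strictly convex domain
-/

set_option autoImplicit false

open Filter Topology Set

namespace Pool.Agent.TH289.C

section Eq

variable {V : Type} [NormedAddCommGroup V] [NormedSpace ℝ V] {G : Type} [Group G] {X : Type}
  [MetricSpace X]

/-- The data: a linear representation preserving the cone and an equivariant map of the boundary. -/
structure IsEquivariant (α : G →* (X ≃ₜ X)) (C : Set V) (τ : V →L[ℝ] ℝ) (ρ : G →* (V ≃L[ℝ] V))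
    (f : X → V) : Prop where
  cont : Continuous f
  bd : ∀ x, f x ∈ Bd C τ
  pres : ∀ g, ∀ v ∈ C, ρ g v ∈ C
  equi : ∀ g x, f (α g x) = proj τ (ρ g (f x))

variable {C : Set V} {τ : V →L[ℝ] ℝ} {α : G →* (X ≃ₜ X)} {ρ : G →* (V ≃L[ℝ] V)} {f : X → V}

theorem rho_mul (ρ : G →* (V ≃L[ℝ] V)) (g h : G) (v : V) : ρ (g * h) v = ρ g (ρ h v) := by
  rw [map_mul]; rfl

theorem rho_one (ρ : G →* (V ≃L[ℝ] V)) (v : V) : ρ 1 v = v := by
  rw [map_one]; rfl

theorem rho_inv (ρ : G →* (V ≃L[ℝ] V)) (g : G) (v : V) : ρ g⁻¹ (ρ g v) = v := by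
  rw [← rho_mul, inv_mul_cancel, rho_one]

theorem IsEquivariant.pres_cl (hf : IsEquivariant α C τ ρ f) (g : G) {v : V}
    (hv : v ∈ closure C) : ρ g v ∈ closure C := by
  have h1 : MapsTo (fun v : V => ρ g v) C C := fun v hv => hf.pres g v hv
  exact h1.closure (ρ g).continuous hv

theorem IsEquivariant.pos (hf : IsEquivariant α C τ ρ f) (h : IsStrictCone C τ) (g : G) {v : V}
    (hv : v ∈ closure C) (h0 : v ≠ 0) : 0 < τ (ρ g v) :=
  h.pos _ (hf.pres_cl g hv) (by simpa using h0)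

/-- Uniform convergence to a boundary point on compact sets of the domain. -/
theorem attract [FiniteDimensional ℝ V] (h : IsStrictCone C τ) (hf : IsEquivariant α C τ ρ f)
    {z : Fin 3 → X} (hz : ∀ i j, i ≠ j → f (z i) ≠ f (z j)) {g : ℕ → G} {a b : X}
    (hab : ∀ U ∈ 𝓝 a, ∀ W ∈ 𝓝 b, ∀ᶠ n in atTop, ∀ x, x ∉ W → α (g n) x ∈ U) {K : Set V}
    (hK : IsCompact K) (hKC : K ⊆ C) {U : Set V} (hU : U ∈ 𝓝 (f a)) :
    ∀ᶠ n in atTop, ∀ v ∈ K, proj τ (ρ (g n) v) ∈ U := by
  have hlim : ∀ x, x ≠ b → Tendsto (fun n => proj τ (ρ (g n) (f x))) atTop (𝓝 (f a)) := by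
    intro x hx
    have h1 : Tendsto (fun n => α (g n) x) atTop (𝓝 a) := by
      intro W hW
      have := hab W hW {x}ᶜ (isOpen_compl_singleton.mem_nhds (by simpa using hx.symm))
      rw [Filter.mem_map]
      filter_upwards [this] with n hn
      exact hn x (by simp)
    have h2 := (hf.cont.tendsto a).comp h1
    refine h2.congr fun n => ?_
    exact hf.equi _ _
  obtain ⟨i, j, hij, hi, hj⟩ : ∃ i j : Fin 3, i ≠ j ∧ z i ≠ b ∧ z j ≠ b := by
    have hzz : ∀ i j, i ≠ j → z i = b → z j ≠ b := by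
      intro i j hij h1 h2
      exact hz i j hij (by rw [h1, h2])
    by_cases h0 : z 0 = b
    · exact ⟨1, 2, by decide, hzz 0 1 (by decide) h0, hzz 0 2 (by decide) h0⟩
    · by_cases h1 : z 1 = b
      · exact ⟨0, 2, by decide, h0, hzz 1 2 (by decide) h1⟩
      · exact ⟨0, 1, by decide, h0, h1⟩
  have hkb : ∀ x, f x ∈ Kbar C τ := fun x => ⟨(hf.bd x).1, (hf.bd x).2.2⟩
  exact attract_compact h (r := fun n => (ρ (g n) : V →L[ℝ] V)) (fun n v hv => hf.pres _ v hv)
    (hkb (z i)) (hkb (z j)) (hz i j hij) (hf.bd a)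
    (fun n => hf.pos h (g n) (hkb (z i)).1 (ne_zero_of_one (hkb (z i)).2))
    (fun n => hf.pos h (g n) (hkb (z j)).1 (ne_zero_of_one (hkb (z j)).2))
    (hlim _ hi) (hlim _ hj) hK hKC hU

/-- The action on the domain is properly discontinuous, with finite stabilizers and finite
kernel. -/
theorem proper [FiniteDimensional ℝ V] (hα : IsConvergenceAction α) (h : IsStrictCone C τ)
    (hf : IsEquivariant α C τ ρ f)
    {z : Fin 3 → X} (hz : ∀ i j, i ≠ j → f (z i) ≠ f (z j)) {K : Set V} (hK : IsCompact K)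
    (hKD : K ⊆ Dom C τ) : {g : G | ∃ v ∈ K, proj τ (ρ g v) ∈ K}.Finite := by
  by_contra hinf
  have hinf' : {g : G | ∃ v ∈ K, proj τ (ρ g v) ∈ K}.Infinite := hinf
  set e := hinf'.natEmbedding
  have hg : Function.Injective fun n => (e n : G) := fun m n h => e.injective (Subtype.ext h)
  obtain ⟨φ, hφ, a, b, hab⟩ := hα _ (tendsto_cofinite_of_inj hg)
  have hfa : f a ∉ K := fun hm => (hf.bd a).2.1 (hKD hm).1
  have h1 := attract h hf hz hab hK (fun v hv => (hKD hv).1)
    (hK.isClosed.isOpen_compl.mem_nhds hfa)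
  obtain ⟨n, hn⟩ := h1.exists
  obtain ⟨v, hv, hv'⟩ := (e (φ n)).2
  exact hn v hv hv'

end Eq

end Pool.Agent.TH289.C
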