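import Pool.Agent.TH289.C.C2

/-!
# The equivariant barycentre map on triples
-/

set_option autoImplicit false

open Filter Topology Set

namespace Pool.Agent.TH289.C

section Bary

variable {V : Type} [NormedAddCommGroup V] [NormedSpace ℝ V] {G : Type} [Group G] {X : Type}
  [MetricSpace X]
variable {C : Set V} {τ : V →L[ℝ] ℝ} {α : G →* (X ≃ₜ X)} {ρ : G →* (V ≃L[ℝ] V)} {f : X → V}

/-- The weight of `g` at a triple. -/
noncomputable def wt (α : G →* (X ≃ₜ X)) (ε : ℝ) (g : G) (t : Fin 3 → X) : ℝ :=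
  max 0 (sep (act α g⁻¹ t) - ε / 2)

theorem continuous_wt (α : G →* (X ≃ₜ X)) (ε : ℝ) (g : G) : Continuous (wt α ε g) := by
  unfold wt
  have := continuous_sep.comp (continuous_act α g⁻¹)
  exact continuous_const.max (this.sub continuous_const)

theorem wt_nonneg (ε : ℝ) (g : G) (t : Fin 3 → X) : 0 ≤ wt α ε g t := le_max_left _ _

theorem wt_pos {ε : ℝ} {g : G} {t : Fin 3 → X} : 0 < wt α ε g t ↔ ε / 2 < sep (act α g⁻¹ t) := by
  unfold wt
  rw [lt_max_iff]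
  constructor
  · rintro (h | h)
    · exact absurd h (lt_irrefl _)
    · linarith
  · intro h
    right
    linarith

theorem wt_act (ε : ℝ) (g h : G) (t : Fin 3 → X) :
    wt α ε g (act α h t) = wt α ε (h⁻¹ * g) t := by
  unfold wt
  rw [← act_mul]
  congr 4
  group

/-- The barycentre (a vector of the cone). -/
noncomputable def Wv (α : G →* (X ≃ₜ X)) (ρ : G →* (V ≃L[ℝ] V)) (ε : ℝ) (o : V)
    (t : Fin 3 → X) : V := ∑ᶠ g, wt α ε g t • ρ g o

theorem finite_supp (hα : IsConvergenceAction α) {ε : ℝ} (hε : 0 < ε) {c : ℝ} (hc : 0 < c) :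
    {g : G | ∃ t, c ≤ sep t ∧ 0 < wt α ε g t}.Finite := by
  refine (finite_meet hα (half_pos hε) hc).subset ?_
  rintro g ⟨t, ht, hw⟩
  refine ⟨act α g⁻¹ t, (wt_pos.1 hw).le, ?_⟩
  rw [← act_mul, mul_inv_cancel, act_one]
  exact ht

theorem Wv_eq_sum (hα : IsConvergenceAction α) {ε : ℝ} (hε : 0 < ε) {c : ℝ} (hc : 0 < c) (o : V)
    {t : Fin 3 → X} (ht : c ≤ sep t) :
    Wv α ρ ε o t = ∑ g ∈ (finite_supp hα hε hc).toFinset, wt α ε g t • ρ g o := by
  unfold Wv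
  refine finsum_eq_sum_of_support_subset _ ?_
  intro g hg
  simp only [Finite.coe_toFinset]
  refine ⟨t, ht, ?_⟩
  refine lt_of_le_of_ne (wt_nonneg _ _ _) ?_
  intro h0
  apply hg
  simp [← h0]

theorem continuousAt_Wv (hα : IsConvergenceAction α) {ε : ℝ} (hε : 0 < ε) (o : V)
    {t : Fin 3 → X} (ht : 0 < sep t) : ContinuousAt (Wv α ρ ε o) t := by
  have h1 : ∀ᶠ t' in 𝓝 t, sep t / 2 < sep t' :=
    continuous_sep.continuousAt.eventually_const_lt (by linarith)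
  have h2 : (fun t' => ∑ g ∈ (finite_supp hα hε (half_pos ht)).toFinset, wt α ε g t' • ρ g o)
      =ᶠ[𝓝 t] Wv α ρ ε o := by
    filter_upwards [h1] with t' ht'
    exact (Wv_eq_sum hα hε (half_pos ht) o ht'.le).symm
  refine ContinuousAt.congr ?_ h2
  have : Continuous fun t' : Fin 3 → X =>
      ∑ g ∈ (finite_supp hα hε (half_pos ht)).toFinset, wt α ε g t' • ρ g o :=
    continuous_finsetSum _ fun g _ => (continuous_wt α ε g).smul continuous_const
  exact this.continuousAt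

/-- The support of the weights at a triple. -/
theorem exists_finset (hα : IsConvergenceAction α) {ε : ℝ} (hε : 0 < ε) (o : V)
    (ρ : G →* (V ≃L[ℝ] V)) {t : Fin 3 → X} (ht : 0 < sep t) :
    ∃ s : Finset G, (∀ g, g ∈ s ↔ 0 < wt α ε g t) ∧
      Wv α ρ ε o t = ∑ g ∈ s, wt α ε g t • ρ g o := by
  have hfin : {g : G | 0 < wt α ε g t}.Finite :=
    (finite_supp hα hε ht).subset fun g hg => ⟨t, le_rfl, hg⟩
  refine ⟨hfin.toFinset, fun g => by simp, ?_⟩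
  unfold Wv
  refine finsum_eq_sum_of_support_subset _ ?_
  intro g hg
  simp only [Finite.coe_toFinset]
  refine lt_of_le_of_ne (wt_nonneg _ _ _) ?_
  intro h0
  apply hg
  simp [← h0]

theorem exists_wt_pos {ε : ℝ} (hε : 0 < ε)
    (hco : ∀ x y z : X, x ≠ y → y ≠ z → x ≠ z → ∃ g : G,
      ε ≤ dist (α g x) (α g y) ∧ ε ≤ dist (α g y) (α g z) ∧ ε ≤ dist (α g x) (α g z))
    {t : Fin 3 → X} (ht : 0 < sep t) : ∃ g, ε ≤ sep (act α g t) := by
  have hne : ∀ i j, i ≠ j → t i ≠ t j := fun i j hij => dist_pos.1 (ht.trans_le (sep_le t hij))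
  obtain ⟨g, h1, h2, h3⟩ := hco (t 0) (t 1) (t 2) (hne 0 1 (by decide)) (hne 1 2 (by decide))
    (hne 0 2 (by decide))
  exact ⟨g, le_min h1 (le_min h2 h3)⟩

theorem Wv_mem (hα : IsConvergenceAction α) (h : IsStrictCone C τ)
    (hf : IsEquivariant α C τ ρ f) {ε : ℝ} (hε : 0 < ε)
    (hco : ∀ x y z : X, x ≠ y → y ≠ z → x ≠ z → ∃ g : G,
      ε ≤ dist (α g x) (α g y) ∧ ε ≤ dist (α g y) (α g z) ∧ ε ≤ dist (α g x) (α g z))
    {o : V} (ho : o ∈ C) {t : Fin 3 → X} (ht : 0 < sep t) : Wv α ρ ε o t ∈ C := by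
  obtain ⟨s, hs, hW⟩ := exists_finset hα hε o ρ ht
  obtain ⟨g, hg⟩ := exists_wt_pos hε hco ht
  have hg' : g⁻¹ ∈ s := (hs _).2 (wt_pos.2 (by rw [inv_inv]; linarith))
  rw [hW]
  refine Finset.sum_induction_nonempty _ (fun v => v ∈ C) (fun v w hv hw => h.add_mem v hv w hw)
    ⟨_, hg'⟩ ?_
  intro g hg
  exact h.smul_mem _ ((hs g).1 hg) _ (hf.pres g o ho)

theorem proj_Wv_mem (hα : IsConvergenceAction α) (h : IsStrictCone C τ)
    (hf : IsEquivariant α C τ ρ f) (h0 : (0 : V) ∉ C) {ε : ℝ} (hε : 0 < ε)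
    (hco : ∀ x y z : X, x ≠ y → y ≠ z → x ≠ z → ∃ g : G,
      ε ≤ dist (α g x) (α g y) ∧ ε ≤ dist (α g y) (α g z) ∧ ε ≤ dist (α g x) (α g z))
    {o : V} (ho : o ∈ C) {t : Fin 3 → X} (ht : 0 < sep t) {U : Set V} (hU : Convex ℝ U)
    (hmem : ∀ g, 0 < wt α ε g t → proj τ (ρ g o) ∈ U) : proj τ (Wv α ρ ε o t) ∈ U := by
  obtain ⟨s, hs, hW⟩ := exists_finset hα hε o ρ ht
  obtain ⟨g₀, hg₀⟩ := exists_wt_pos hε hco ht
  have hg' : g₀⁻¹ ∈ s := (hs _).2 (wt_pos.2 (by rw [inv_inv]; linarith))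
  have hτ : ∀ g, 0 < τ (ρ g o) := fun g => h.pos_of_mem h0 (hf.pres g o ho)
  have hpos : 0 < ∑ g ∈ s, wt α ε g t * τ (ρ g o) :=
    Finset.sum_pos (fun g hg => mul_pos ((hs g).1 hg) (hτ g)) ⟨_, hg'⟩
  have := hU.centerMass_mem (t := s) (w := fun g => wt α ε g t * τ (ρ g o))
    (z := fun g => proj τ (ρ g o)) (fun g hg => (mul_pos ((hs g).1 hg) (hτ g)).le) hpos
    (fun g hg => hmem g ((hs g).1 hg))
  convert this using 1
  unfold Finset.centerMass proj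
  rw [hW, map_sum]
  congr 1
  · congr 1
    refine Finset.sum_congr rfl fun g _ => ?_
    rw [map_smul, smul_eq_mul]
  · refine Finset.sum_congr rfl fun g _ => ?_
    rw [smul_smul, mul_assoc, mul_inv_cancel₀ (hτ g).ne', mul_one]

theorem Wv_act (hα : IsConvergenceAction α) {ε : ℝ} (hε : 0 < ε) (o : V) (h : G)
    {t : Fin 3 → X} (ht : 0 < sep t) : Wv α ρ ε o (act α h t) = ρ h (Wv α ρ ε o t) := by
  unfold Wv
  have h1 : (∑ᶠ g, wt α ε g (act α h t) • ρ g o) = ∑ᶠ g, wt α ε g t • ρ (h * g) o := by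
    rw [← finsum_comp_equiv (Equiv.mulLeft h)]
    refine finsum_congr fun g => ?_
    simp only [Equiv.coe_mulLeft]
    rw [wt_act, inv_mul_cancel_left]
  rw [h1]
  have hfin : {g : G | 0 < wt α ε g t}.Finite :=
    (finite_supp hα hε ht).subset fun g hg => ⟨t, le_rfl, hg⟩
  have hsupp : (Function.support fun g => wt α ε g t • ρ g o).Finite := by
    refine hfin.subset fun g hg => ?_
    refine lt_of_le_of_ne (wt_nonneg _ _ _) ?_
    intro h0
    apply hg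
    simp [← h0]
  have h2 := AddMonoidHom.map_finsum ((ρ h).toLinearEquiv.toLinearMap.toAddMonoidHom) hsupp
  have h3 : ρ h (∑ᶠ g, wt α ε g t • ρ g o) = ∑ᶠ g, ρ h (wt α ε g t • ρ g o) := h2
  rw [h3]
  refine finsum_congr fun g => ?_
  rw [rho_mul, map_smul]

/-- The barycentre map extends continuously by `f`. -/
theorem boundary_ext [CompactSpace X] [FiniteDimensional ℝ V] (hα : IsConvergenceAction α)
    (h : IsStrictCone C τ) (hf : IsEquivariant α C τ ρ f)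
    {z : Fin 3 → X} (hz : ∀ i j, i ≠ j → f (z i) ≠ f (z j)) {ε : ℝ} (hε : 0 < ε)
    (hco : ∀ x y z : X, x ≠ y → y ≠ z → x ≠ z → ∃ g : G,
      ε ≤ dist (α g x) (α g y) ∧ ε ≤ dist (α g y) (α g z) ∧ ε ≤ dist (α g x) (α g z))
    {o : V} (ho : o ∈ C) (ξ : X) {U : Set V} (hU : U ∈ 𝓝 (f ξ)) :
    ∃ η > 0, ∀ t : Fin 3 → X, 0 < sep t → Near ξ η t → proj τ (Wv α ρ ε o t) ∈ U := by
  obtain ⟨r, hr, hrU⟩ := Metric.mem_nhds_iff.1 hU
  by_contra hcon
  push Not at hcon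
  have h1 : ∀ n : ℕ, ∃ t : Fin 3 → X, 0 < sep t ∧ Near ξ (1 / ((n : ℝ) + 1)) t ∧
      proj τ (Wv α ρ ε o t) ∉ U := fun n => by
    obtain ⟨t, h1, h2, h3⟩ := hcon (1 / ((n : ℝ) + 1)) (by positivity)
    exact ⟨t, h1, h2, h3⟩
  choose t ht1 ht2 ht3 using h1
  have h0 : (0 : V) ∉ C := h.zero_notMem (hf.bd ξ)
  have h2 : ∀ n, ∃ g, 0 < wt α ε g (t n) ∧ proj τ (ρ g o) ∉ Metric.ball (f ξ) r := by
    intro n
    by_contra hc
    push Not at hc
    exact ht3 n (hrU (proj_Wv_mem hα h hf h0 hε hco ho (ht1 n) (convex_ball _ _) hc))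
  choose g hg1 hg2 using h2
  obtain ⟨φ, hφ, b, hb⟩ := attract_of_near hα (half_pos hε) g t ht2
    (fun n => (wt_pos.1 (hg1 n)).le)
  have h3 := attract h hf hz hb (K := {o}) isCompact_singleton (by simpa using ho)
    (Metric.ball_mem_nhds (f ξ) hr)
  obtain ⟨n, hn⟩ := h3.exists
  exact hg2 (φ n) (hn o rfl)

end Bary

end Pool.Agent.TH289.C
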