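import Pool.Agent.TH289.C.C3

/-!
# The ball maps to triples on the sphere, by the identity on the boundary
-/

set_option autoImplicit false

open Filter Topology Set

namespace Pool.Agent.TH289.C

section Mob

variable {E : Type} [NormedAddCommGroup E] [InnerProductSpace ℝ E]

/-- The Möbius translation of the unit ball with parameter `p`, on the unit sphere. -/
noncomputable def mob (p x : E) : E := p + ((1 - ‖p‖ ^ 2) / ‖x + p‖ ^ 2) • (x + p)

theorem add_ne_zero_of {p x : E} (hx : ‖x‖ = 1) (hp : ‖p‖ < 1) : x + p ≠ 0 := by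
  intro h
  have : x = -p := eq_neg_of_add_eq_zero_left h
  rw [this, norm_neg] at hx
  linarith

theorem norm_mob {p x : E} (hx : ‖x‖ = 1) (hp : x + p ≠ 0) : ‖mob p x‖ = 1 := by
  have hD : 0 < ‖x + p‖ ^ 2 := by
    have := norm_pos_iff.2 hp
    positivity
  have h1 : ‖x + p‖ ^ 2 = 1 + 2 * inner ℝ x p + ‖p‖ ^ 2 := by
    rw [norm_add_sq_real, hx]; ring
  have h2 : ‖mob p x‖ ^ 2 = 1 := by
    unfold mob
    rw [norm_add_sq_real, norm_smul, mul_pow, inner_smul_right, inner_add_right,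
      real_inner_self_eq_norm_sq, real_inner_comm]
    rw [Real.norm_eq_abs, sq_abs]
    field_simp
    rw [h1]
    ring
  have h3 : (0 : ℝ) ≤ ‖mob p x‖ := norm_nonneg _
  nlinarith

theorem mob_inj {p x y : E} (hx : ‖x‖ = 1) (hy : ‖y‖ = 1) (hp : ‖p‖ < 1)
    (h : mob p x = mob p y) : x = y := by
  have hpx := add_ne_zero_of hx hp
  have hpy := add_ne_zero_of hy hp
  have hnx : 0 < ‖x + p‖ := norm_pos_iff.2 hpx
  have hny : 0 < ‖y + p‖ := norm_pos_iff.2 hpy
  have hP : 0 < 1 - ‖p‖ ^ 2 := by nlinarith [norm_nonneg p]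
  unfold mob at h
  have h1 := add_left_cancel h
  have h2 := congrArg norm h1
  rw [norm_smul, norm_smul, Real.norm_of_nonneg (by positivity), Real.norm_of_nonneg (by positivity)]
    at h2
  have h3 : ‖x + p‖ = ‖y + p‖ := by
    field_simp at h2
    linarith
  rw [h3] at h1
  have h4 : (1 - ‖p‖ ^ 2) / ‖y + p‖ ^ 2 ≠ 0 := by positivity
  have h5 := smul_right_injective E h4 h1
  exact add_right_cancel h5

theorem continuousAt_mob {p x : E} (h : x + p ≠ 0) : ContinuousAt (fun p => mob p x) p := by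
  unfold mob
  have h1 : ‖x + p‖ ^ 2 ≠ 0 := by
    have := norm_pos_iff.2 h
    positivity
  have h2 : ContinuousAt (fun p : E => (1 - ‖p‖ ^ 2) / ‖x + p‖ ^ 2) p := by
    refine ContinuousAt.div (by fun_prop) (by fun_prop) h1
  exact continuousAt_id.add (h2.smul (by fun_prop))

theorem mob_boundary {p x : E} (hp : ‖p‖ = 1) : mob p x = p := by
  simp [mob, hp]

/-- The unit sphere. -/
abbrev Sph (E : Type) [NormedAddCommGroup E] : Type := Metric.sphere (0 : E) 1

open Classical in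
/-- Radial projection to the unit sphere. -/
noncomputable def nrm (a₀ : Sph E) (y : E) : Sph E :=
  if h : y = 0 then a₀ else ⟨‖y‖⁻¹ • y, by
    have := norm_pos_iff.2 h
    simp [norm_smul, this.ne']⟩

theorem nrm_coe (a₀ : Sph E) {y : E} (h : y ≠ 0) : (nrm a₀ y : E) = ‖y‖⁻¹ • y := by
  simp [nrm, h]

theorem nrm_self (a₀ : Sph E) (x : Sph E) : nrm a₀ (x : E) = x := by
  have hx : ‖(x : E)‖ = 1 := by simpa using x.2
  have h0 : (x : E) ≠ 0 := by
    rw [← norm_pos_iff, hx]; norm_num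
  ext1
  rw [nrm_coe a₀ h0, hx]
  simp

theorem continuousAt_nrm (a₀ : Sph E) {y : E} (h : y ≠ 0) : ContinuousAt (nrm a₀) y := by
  rw [Topology.IsInducing.subtypeVal.continuousAt_iff]
  have h1 : (fun y : E => ‖y‖⁻¹ • y) =ᶠ[𝓝 y] (Subtype.val ∘ nrm a₀) := by
    filter_upwards [isOpen_ne.mem_nhds h] with z hz
    exact (nrm_coe a₀ hz).symm
  refine ContinuousAt.congr ?_ h1
  exact (continuousAt_id.norm.inv₀ (norm_ne_zero_iff.2 h)).smul continuousAt_id

/-- The triple of points attached to a point of the ball. -/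
noncomputable def sig (a : Fin 3 → Sph E) (p : E) : Fin 3 → Sph E :=
  fun i => nrm (a 0) (mob p (a i))

theorem norm_coe (x : Sph E) : ‖(x : E)‖ = 1 := by simpa using x.2

theorem mob_ne_zero {p : E} {x : Sph E} (h : (x : E) + p ≠ 0) : mob p (x : E) ≠ 0 := by
  rw [← norm_pos_iff, norm_mob (norm_coe x) h]; norm_num

theorem sig_coe (a : Fin 3 → Sph E) {p : E} {i : Fin 3} (h : (a i : E) + p ≠ 0) :
    (sig a p i : E) = mob p (a i) := by
  unfold sig
  rw [nrm_coe _ (mob_ne_zero h), norm_mob (norm_coe _) h]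
  simp

theorem continuousAt_sig_apply (a : Fin 3 → Sph E) {p : E} {i : Fin 3} (h : (a i : E) + p ≠ 0) :
    ContinuousAt (fun p => sig a p i) p := by
  unfold sig
  exact ContinuousAt.comp (f := fun p => mob p (a i : E)) (g := nrm (a 0))
    (continuousAt_nrm _ (mob_ne_zero h)) (continuousAt_mob h)

theorem continuousAt_sig (a : Fin 3 → Sph E) {p : E} (hp : ‖p‖ < 1) :
    ContinuousAt (sig a) p :=
  continuousAt_pi.2 fun i => continuousAt_sig_apply a (add_ne_zero_of (norm_coe _) hp)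

theorem sep_sig {a : Fin 3 → Sph E} (ha : ∀ i j, i ≠ j → a i ≠ a j) {p : E} (hp : ‖p‖ < 1) :
    0 < sep (sig a p) := by
  refine lt_sep fun i j hij => ?_
  rw [dist_pos]
  intro h
  have h1 := congrArg Subtype.val h
  rw [sig_coe a (add_ne_zero_of (norm_coe _) hp), sig_coe a (add_ne_zero_of (norm_coe _) hp)] at h1
  exact ha i j hij (Subtype.ext (mob_inj (norm_coe _) (norm_coe _) hp h1))

/-- Near a boundary point two of the three points are near that point. -/
theorem near_sig {a : Fin 3 → Sph E} (ha : ∀ i j, i ≠ j → a i ≠ a j) (ξ : Sph E) {η : ℝ}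
    (hη : 0 < η) : ∀ᶠ p in 𝓝 (ξ : E), Near ξ η (sig a p) := by
  have hlim : ∀ i, (a i : E) + ξ ≠ 0 → ∀ᶠ p in 𝓝 (ξ : E), dist (sig a p i) ξ < η := by
    intro i hi
    have h1 := continuousAt_sig_apply a hi
    have h2 : sig a (ξ : E) i = ξ := by
      ext1
      rw [sig_coe a hi, mob_boundary (norm_coe ξ)]
    have h3 := Metric.tendsto_nhds.1 h1 η hη
    simpa [h2] using h3
  have hzz : ∀ i j, i ≠ j → (a i : E) + ξ = 0 → (a j : E) + ξ ≠ 0 := by
    intro i j hij h1 h2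
    exact ha i j hij (Subtype.ext (add_right_cancel (h1.trans h2.symm)))
  by_cases h0 : (a 0 : E) + ξ = 0
  · filter_upwards [hlim 1 (hzz 0 1 (by decide) h0), hlim 2 (hzz 0 2 (by decide) h0)] with p h1 h2
    exact ⟨1, 2, by decide, h1, h2⟩
  · by_cases h1 : (a 1 : E) + ξ = 0
    · filter_upwards [hlim 0 h0, hlim 2 (hzz 1 2 (by decide) h1)] with p h1 h2
      exact ⟨0, 2, by decide, h1, h2⟩
    · filter_upwards [hlim 0 h0, hlim 1 h1] with p h1 h2
      exact ⟨0, 1, by decide, h1, h2⟩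

end Mob

section Phi

variable {V : Type} [NormedAddCommGroup V] [NormedSpace ℝ V] {G : Type} [Group G] {E : Type}
  [NormedAddCommGroup E] [InnerProductSpace ℝ E]
variable {C : Set V} {τ : V →L[ℝ] ℝ} {α : G →* (Sph E ≃ₜ Sph E)} {ρ : G →* (V ≃L[ℝ] V)}
  {f : Sph E → V}

open Classical in
/-- The extension of `f` to the ball. -/
noncomputable def Phi (a : Fin 3 → Sph E) (α : G →* (Sph E ≃ₜ Sph E)) (τ : V →L[ℝ] ℝ)
    (ρ : G →* (V ≃L[ℝ] V)) (ε : ℝ) (o : V) (f : Sph E → V) (p : E) : V :=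
  if ‖p‖ < 1 then proj τ (Wv α ρ ε o (sig a p)) else f (nrm (a 0) p)

theorem Phi_sphere (a : Fin 3 → Sph E) (ε : ℝ) (o : V) (x : Sph E) :
    Phi a α τ ρ ε o f (x : E) = f x := by
  simp [Phi, norm_coe, nrm_self]

theorem continuous_Phi [FiniteDimensional ℝ E] [FiniteDimensional ℝ V]
    (hα : IsConvergenceAction α)
    (h : IsStrictCone C τ) (hf : IsEquivariant α C τ ρ f)
    {z : Fin 3 → Sph E} (hz : ∀ i j, i ≠ j → f (z i) ≠ f (z j)) {ε : ℝ} (hε : 0 < ε)
    (hco : ∀ x y z : Sph E, x ≠ y → y ≠ z → x ≠ z → ∃ g : G,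
      ε ≤ dist (α g x) (α g y) ∧ ε ≤ dist (α g y) (α g z) ∧ ε ≤ dist (α g x) (α g z))
    {a : Fin 3 → Sph E} (ha : ∀ i j, i ≠ j → a i ≠ a j)
    {o : V} (ho : o ∈ C) : Continuous (Phi a α τ ρ ε o f) := by
  have : ProperSpace E := FiniteDimensional.proper ℝ E
  have h0 : (0 : V) ∉ C := h.zero_notMem (hf.bd (a 0))
  rw [continuous_iff_continuousAt]
  intro p
  rcases lt_trichotomy ‖p‖ 1 with hp | hp | hp
  · have h1 : ∀ᶠ q in 𝓝 p, ‖q‖ < 1 := continuous_norm.continuousAt.eventually_lt_const hp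
    have h2 : (fun q => proj τ (Wv α ρ ε o (sig a q))) =ᶠ[𝓝 p] Phi a α τ ρ ε o f := by
      filter_upwards [h1] with q hq
      simp [Phi, hq]
    refine ContinuousAt.congr ?_ h2
    have hs := sep_sig ha hp
    have hW : Wv α ρ ε o (sig a p) ∈ C := Wv_mem hα h hf hε hco ho hs
    have h3 : ContinuousAt (fun q => Wv α ρ ε o (sig a q)) p :=
      ContinuousAt.comp (f := sig a) (g := Wv α ρ ε o) (continuousAt_Wv hα hε o hs)
        (continuousAt_sig a hp)
    exact ContinuousAt.comp (f := fun q => Wv α ρ ε o (sig a q)) (g := proj τ)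
      (continuousAt_proj (h.pos_of_mem h0 hW).ne') h3
  · obtain ⟨ξ, rfl⟩ : ∃ ξ : Sph E, (ξ : E) = p := ⟨⟨p, by simpa using hp⟩, rfl⟩
    intro U hU
    rw [Phi_sphere] at hU
    obtain ⟨η, hη, hη'⟩ := boundary_ext hα h hf hz hε hco ho ξ hU
    have h1 := near_sig ha ξ hη
    have hξ0 : (ξ : E) ≠ 0 := by rw [← norm_pos_iff, hp]; norm_num
    have h2 : ContinuousAt (fun q => f (nrm (a 0) q)) (ξ : E) :=
      ContinuousAt.comp (f := nrm (a 0)) (g := f) hf.cont.continuousAt (continuousAt_nrm _ hξ0)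
    have h3 : ∀ᶠ q in 𝓝 (ξ : E), f (nrm (a 0) q) ∈ U := by
      refine h2 ?_
      change U ∈ 𝓝 (f (nrm (a 0) (ξ : E)))
      rwa [nrm_self]
    rw [Filter.mem_map]
    filter_upwards [h1, h3] with q hq1 hq2
    change Phi a α τ ρ ε o f q ∈ U
    unfold Phi
    split_ifs with hq
    · exact hη' _ (sep_sig ha hq) hq1
    · exact hq2
  · have h1 : ∀ᶠ q in 𝓝 p, 1 < ‖q‖ := continuous_norm.continuousAt.eventually_const_lt hp
    have h2 : (fun q => f (nrm (a 0) q)) =ᶠ[𝓝 p] Phi a α τ ρ ε o f := by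
      filter_upwards [h1] with q hq
      simp [Phi, not_lt.2 hq.le]
    refine ContinuousAt.congr ?_ h2
    have hp0 : p ≠ 0 := by rw [← norm_pos_iff]; linarith
    exact ContinuousAt.comp (f := nrm (a 0)) (g := f) hf.cont.continuousAt (continuousAt_nrm _ hp0)

theorem Phi_mem [FiniteDimensional ℝ V]
    (hα : IsConvergenceAction α)
    (h : IsStrictCone C τ) (hf : IsEquivariant α C τ ρ f) {ε : ℝ} (hε : 0 < ε)
    (hco : ∀ x y z : Sph E, x ≠ y → y ≠ z → x ≠ z → ∃ g : G,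
      ε ≤ dist (α g x) (α g y) ∧ ε ≤ dist (α g y) (α g z) ∧ ε ≤ dist (α g x) (α g z))
    {a : Fin 3 → Sph E} (ha : ∀ i j, i ≠ j → a i ≠ a j)
    {o : V} (ho : o ∈ C) (p : E) : Phi a α τ ρ ε o f p ∈ Kbar C τ := by
  have h0 : (0 : V) ∉ C := h.zero_notMem (hf.bd (a 0))
  unfold Phi
  split_ifs with hp
  · have hW : Wv α ρ ε o (sig a p) ∈ C := Wv_mem hα h hf hε hco ho (sep_sig ha hp)
    exact proj_mem_Kbar h (subset_closure hW) (h.pos_of_mem h0 hW)
  · exact ⟨(hf.bd _).1, (hf.bd _).2.2⟩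

end Phi

end Pool.Agent.TH289.C
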