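import Pool.Agent.TH289.C.C4

/-!
# Essential equivariant maps: surjectivity, cocompactness, injectivity
-/

set_option autoImplicit false

open Filter Topology Set

namespace Pool.Agent.TH289.C

section Retr

variable {V : Type} [NormedAddCommGroup V] [NormedSpace ℝ V] {C : Set V} {τ : V →L[ℝ] ℝ}

/-- The cone translated by `-v₀`. -/
def Tr (C : Set V) (v₀ : V) : Set V := {u | v₀ + u ∈ C}

theorem IsStrictCone.convex (h : IsStrictCone C τ) : Convex ℝ C := by
  intro v hv w hw a b ha hb hab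
  rcases ha.eq_or_lt with rfl | ha
  · have : b = 1 := by linarith
    simpa [this] using hw
  · exact h.add_cl (h.smul_mem a ha v hv) (h.smul_cl' hb (subset_closure hw))

theorem convex_Tr (h : IsStrictCone C τ) (v₀ : V) : Convex ℝ (Tr C v₀) := by
  have := h.convex.translate_preimage_right v₀
  exact this

theorem isOpen_Tr (h : IsStrictCone C τ) (v₀ : V) : IsOpen (Tr C v₀) :=
  h.isOpen.preimage (by fun_prop)

theorem Tr_nhds (h : IsStrictCone C τ) {v₀ : V} (hv : v₀ ∈ C) : Tr C v₀ ∈ 𝓝 (0 : V) :=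
  (isOpen_Tr h v₀).mem_nhds (by simpa [Tr] using hv)

theorem gauge_pos_Tr [FiniteDimensional ℝ V] (h : IsStrictCone C τ) {v₀ : V}
    (hv : v₀ ∈ Dom C τ) {u : V} (hu : u ≠ 0) (hτ : τ u = 0) : 0 < gauge (Tr C v₀) u := by
  by_contra hcon
  have h0 : gauge (Tr C v₀) u = 0 := le_antisymm (not_lt.1 hcon) (gauge_nonneg _)
  obtain ⟨M, hM⟩ := (isCompact_Kbar h).isBounded.exists_norm_le
  have hn : 0 < ‖u‖ := norm_pos_iff.2 hu
  set s : ℝ := (|M| + ‖v₀‖ + 1) / ‖u‖ with hs
  have hs0 : 0 < s := by positivity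
  have h1 : gauge (Tr C v₀) (s • u) < 1 := by
    rw [gauge_smul_of_nonneg hs0.le, h0]
    simp
  have h2 : s • u ∈ Tr C v₀ := by
    have := setOfPred_gauge_lt_one_eq_self_of_isOpen (convex_Tr h v₀) (mem_of_mem_nhds (Tr_nhds h hv.1))
      (isOpen_Tr h v₀)
    rw [← this]
    exact h1
  have h3 : v₀ + s • u ∈ Kbar C τ := by
    refine ⟨subset_closure h2, ?_⟩
    rw [map_add, map_smul, hτ, hv.2]
    simp
  have h4 := hM _ h3
  have h5 : ‖s • u‖ = |M| + ‖v₀‖ + 1 := by
    rw [norm_smul, Real.norm_of_nonneg hs0.le, hs]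
    field_simp
  have h6 : ‖s • u‖ ≤ ‖v₀ + s • u‖ + ‖v₀‖ := by
    have := norm_sub_le (v₀ + s • u) v₀
    simpa using this
  linarith [le_abs_self M]

/-- Radial retraction of the closed domain minus `v₀` to the boundary. -/
noncomputable def retr (C : Set V) (v₀ : V) (v : V) : V :=
  v₀ + (gauge (Tr C v₀) (v - v₀))⁻¹ • (v - v₀)

theorem mem_bd_iff (h : IsStrictCone C τ) {v₀ : V} (hv : v₀ ∈ C) (u : V) :
    gauge (Tr C v₀) u = 1 ↔ (v₀ + u ∈ closure C ∧ v₀ + u ∉ C) := by
  rw [gauge_eq_one_iff_mem_frontier (convex_Tr h v₀) (Tr_nhds h hv)]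
  have h1 : frontier (Tr C v₀) = (Homeomorph.addLeft v₀) ⁻¹' (frontier C) :=
    ((Homeomorph.addLeft v₀).preimage_frontier C).symm
  rw [h1, h.isOpen.frontier_eq]
  rfl

theorem retr_mem [FiniteDimensional ℝ V] (h : IsStrictCone C τ) {v₀ : V}
    (hv : v₀ ∈ Dom C τ) {v : V} (hne : v ≠ v₀) (hτ : τ v = 1) : retr C v₀ v ∈ Bd C τ := by
  have hu : v - v₀ ≠ 0 := sub_ne_zero.2 hne
  have hτu : τ (v - v₀) = 0 := by rw [map_sub, hτ, hv.2, sub_self]
  have hg := gauge_pos_Tr h hv hu hτu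
  have h1 : gauge (Tr C v₀) ((gauge (Tr C v₀) (v - v₀))⁻¹ • (v - v₀)) = 1 := by
    rw [gauge_smul_of_nonneg (inv_nonneg.2 hg.le), smul_eq_mul, inv_mul_cancel₀ hg.ne']
  have h2 := (mem_bd_iff h hv.1 _).1 h1
  refine ⟨h2.1, h2.2, ?_⟩
  unfold retr
  rw [map_add, map_smul, hτu, hv.2]
  simp

theorem retr_of_bd (h : IsStrictCone C τ) {v₀ : V}
    (hv : v₀ ∈ Dom C τ) {v : V} (hb : v ∈ Bd C τ) : retr C v₀ v = v := by
  have h1 : gauge (Tr C v₀) (v - v₀) = 1 := by
    rw [mem_bd_iff h hv.1]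
    simpa using ⟨hb.1, hb.2.1⟩
  simp [retr, h1]

theorem continuousAt_retr [FiniteDimensional ℝ V] (h : IsStrictCone C τ) {v₀ : V}
    (hv : v₀ ∈ Dom C τ) {v : V} (hne : v ≠ v₀) (hτ : τ v = 1) :
    ContinuousAt (retr C v₀) v := by
  have hu : v - v₀ ≠ 0 := sub_ne_zero.2 hne
  have hτu : τ (v - v₀) = 0 := by rw [map_sub, hτ, hv.2, sub_self]
  have hg := gauge_pos_Tr h hv hu hτu
  have hc : Continuous (gauge (Tr C v₀)) := continuous_gauge (convex_Tr h v₀) (Tr_nhds h hv.1)
  unfold retr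
  have h1 : ContinuousAt (fun v : V => (gauge (Tr C v₀) (v - v₀))⁻¹) v :=
    (hc.comp (continuous_id.sub continuous_const)).continuousAt.inv₀ hg.ne'
  exact continuousAt_const.add (h1.smul (by fun_prop))

end Retr

section Main

variable {V : Type} [NormedAddCommGroup V] [NormedSpace ℝ V] {G : Type} [Group G] {E : Type}
  [NormedAddCommGroup E] [InnerProductSpace ℝ E]
variable {C : Set V} {τ : V →L[ℝ] ℝ} {α : G →* (Sph E ≃ₜ Sph E)} {ρ : G →* (V ≃L[ℝ] V)}

/-- The map `f` extends to the ball, hence is null-homotopic, if the extension misses a point. -/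
theorem surj [FiniteDimensional ℝ E] [FiniteDimensional ℝ V]
    (hα : IsConvergenceAction α)
    (h : IsStrictCone C τ) (f : C(Sph E, Bd C τ)) (hess : ¬ f.Nullhomotopic)
    (hf : IsEquivariant α C τ ρ (fun x => (f x : V)))
    {z : Fin 3 → Sph E} (hz : ∀ i j, i ≠ j → (f (z i) : V) ≠ f (z j)) {ε : ℝ} (hε : 0 < ε)
    (hco : ∀ x y z : Sph E, x ≠ y → y ≠ z → x ≠ z → ∃ g : G,
      ε ≤ dist (α g x) (α g y) ∧ ε ≤ dist (α g y) (α g z) ∧ ε ≤ dist (α g x) (α g z))
    {a : Fin 3 → Sph E} (ha : ∀ i j, i ≠ j → a i ≠ a j)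
    {o : V} (ho : o ∈ C) {v₀ : V} (hv₀ : v₀ ∈ Dom C τ) :
    ∃ p : E, Phi a α τ ρ ε o (fun x => (f x : V)) p = v₀ := by
  by_contra hcon
  push Not at hcon
  set Ph := Phi a α τ ρ ε o (fun x => (f x : V)) with hPh
  have hcont : Continuous Ph := continuous_Phi hα h hf hz hε hco ha ho
  have hmem : ∀ p, Ph p ∈ Kbar C τ := Phi_mem hα h hf hε hco ha ho
  have hR : Continuous fun p => retr C v₀ (Ph p) := by
    rw [continuous_iff_continuousAt]
    intro p
    exact ContinuousAt.comp (g := retr C v₀) (continuousAt_retr h hv₀ (hcon p) (hmem p).2)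
      hcont.continuousAt
  have hRm : ∀ p, retr C v₀ (Ph p) ∈ Bd C τ := fun p => retr_mem h hv₀ (hcon p) (hmem p).2
  apply hess
  refine ⟨⟨retr C v₀ (Ph 0), hRm 0⟩, ⟨{
    toFun := fun q => ⟨retr C v₀ (Ph ((1 - (q.1 : ℝ)) • (q.2 : E))), hRm _⟩
    continuous_toFun := ?_
    map_zero_left := ?_
    map_one_left := ?_ }⟩⟩
  · refine Continuous.subtype_mk (hR.comp ?_) _
    fun_prop
  · intro x
    ext1
    have e : ((1 - ((0 : unitInterval) : ℝ)) • (x : E)) = x := by simp
    change retr C v₀ (Ph ((1 - ((0 : unitInterval) : ℝ)) • (x : E))) = f x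
    rw [e, hPh, Phi_sphere, retr_of_bd h hv₀ (f x).2]
  · intro x
    ext1
    simp

theorem exists_ne_of_ess [FiniteDimensional ℝ E] {Y : Type} [TopologicalSpace Y]
    (hE : 2 ≤ Module.finrank ℝ E)
    (f : C(Sph E, Y)) (hess : ¬ f.Nullhomotopic) : ∃ x y, f x ≠ f y := by
  have hrank : 1 < Module.rank ℝ E := by
    rw [← Module.finrank_eq_rank]
    exact_mod_cast hE
  have hne : Nonempty (Sph E) := by
    have := isConnected_sphere hrank (0 : E) zero_le_one
    exact this.nonempty.to_subtype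
  by_contra hcon
  push Not at hcon
  obtain ⟨x₀⟩ := hne
  apply hess
  refine ⟨f x₀, ?_⟩
  have : f = ContinuousMap.const _ (f x₀) := by
    ext1 x
    exact hcon x x₀
  rw [← this]

theorem exists_three'' [FiniteDimensional ℝ E] {Y : Type} [TopologicalSpace Y] [T1Space Y]
    (hE : 2 ≤ Module.finrank ℝ E)
    (f : C(Sph E, Y)) (hne : ∃ x y, f x ≠ f y) :
    ∃ z : Fin 3 → Sph E, ∀ i j, i ≠ j → f (z i) ≠ f (z j) := by
  have hrank : 1 < Module.rank ℝ E := by
    rw [← Module.finrank_eq_rank]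
    exact_mod_cast hE
  have hpre : IsPreconnected (Metric.sphere (0 : E) 1) := isPreconnected_sphere hrank 0 1
  have hps : PreconnectedSpace (Sph E) := Subtype.preconnectedSpace hpre
  have hnt : (range f).Nontrivial := by
    obtain ⟨x, y, hxy⟩ := hne
    exact ⟨f x, ⟨x, rfl⟩, f y, ⟨y, rfl⟩, hxy⟩
  have hinf := (isPreconnected_range f.continuous).infinite_of_nontrivial hnt
  set e := hinf.natEmbedding
  choose z hz using fun i : Fin 3 => (e (i : ℕ)).2
  refine ⟨z, fun i j hij h => ?_⟩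
  rw [hz, hz] at h
  have h2 := e.injective (Subtype.ext h)
  exact hij (Fin.ext h2)

theorem exists_three' [FiniteDimensional ℝ E] (hE : 2 ≤ Module.finrank ℝ E)
    (f : C(Sph E, Bd C τ)) (hne : ∃ x y, f x ≠ f y) :
    ∃ z : Fin 3 → Sph E, ∀ i j, i ≠ j → (f (z i) : V) ≠ f (z j) := by
  obtain ⟨z, hz⟩ := exists_three'' hE f hne
  exact ⟨z, fun i j hij h => hz i j hij (Subtype.ext h)⟩

theorem exists_three [FiniteDimensional ℝ E] (hE : 2 ≤ Module.finrank ℝ E)
    (f : C(Sph E, Bd C τ)) (hess : ¬ f.Nullhomotopic) :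
    ∃ z : Fin 3 → Sph E, ∀ i j, i ≠ j → (f (z i) : V) ≠ f (z j) :=
  exists_three' hE f (exists_ne_of_ess hE f hess)

theorem comb_mem_Dom (h : IsStrictCone C τ) {q o : V} (hq : q ∈ Bd C τ) (ho : o ∈ Dom C τ) {s : ℝ}
    (hs0 : 0 < s) (hs1 : s < 1) : (1 - s) • q + s • o ∈ Dom C τ := by
  refine ⟨?_, ?_⟩
  · rw [add_comm]
    exact h.add_cl (h.smul_mem _ hs0 _ ho.1) (h.smul_cl (by linarith) hq.1)
  · rw [map_add, map_smul, map_smul, hq.2.2, ho.2]
    simp

/-- The main theorem. -/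
theorem main [FiniteDimensional ℝ E] [FiniteDimensional ℝ V] (hE : 2 ≤ Module.finrank ℝ E)
    (hα : IsConvergenceAction α) (hco : CocompactOnTriples α)
    (h : IsStrictCone C τ) (hpres : ∀ g, ∀ v ∈ C, ρ g v ∈ C) (f : C(Sph E, Bd C τ))
    (hess : ¬ f.Nullhomotopic)
    (hequi : ∀ g x, ∃ c : ℝ, 0 < c ∧ ρ g (f x) = c • (f (α g x) : V)) :
    (∀ K ⊆ Dom C τ, IsCompact K → {g : G | ∃ v ∈ K, proj τ (ρ g v) ∈ K}.Finite) ∧
    (∃ K ⊆ Dom C τ, IsCompact K ∧ ∀ v ∈ Dom C τ, ∃ g, proj τ (ρ g v) ∈ K) ∧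
    IsHomeomorph f := by
  have : ProperSpace E := FiniteDimensional.proper ℝ E
  have hcS : CompactSpace (Sph E) := isCompact_iff_compactSpace.1 (isCompact_sphere (0 : E) 1)
  obtain ⟨z, hz⟩ := exists_three hE f hess
  have hzne : ∀ i j, i ≠ j → z i ≠ z j := fun i j hij h => hz i j hij (by rw [h])
  have hf : IsEquivariant α C τ ρ (fun x => (f x : V)) := by
    refine ⟨continuous_subtype_val.comp f.continuous, fun x => (f x).2, hpres, fun g x => ?_⟩
    obtain ⟨c, hc, hc'⟩ := hequi g x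
    rw [hc', proj_smul hc.ne', proj_of_one (f (α g x)).2.2.2]
  obtain ⟨ε, hε, hco⟩ := hco
  have h0 : (0 : V) ∉ C := h.zero_notMem (f (z 0)).2
  obtain ⟨o₁, ho₁⟩ := h.nonempty
  set o := proj τ o₁ with ho
  have hoD : o ∈ Dom C τ := proj_mem_Dom h ho₁ (h.pos_of_mem h0 ho₁)
  have hsurj : ∀ v₀ ∈ Dom C τ, ∃ p : E, Phi z α τ ρ ε o (fun x => (f x : V)) p = v₀ :=
    fun v₀ hv₀ => surj hα h f hess hf hz hε hco hzne hoD.1 hv₀
  have hint : ∀ v₀ ∈ Dom C τ, ∃ p : E, ‖p‖ < 1 ∧
      Phi z α τ ρ ε o (fun x => (f x : V)) p = v₀ := by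
    intro v₀ hv₀
    obtain ⟨p, hp⟩ := hsurj v₀ hv₀
    refine ⟨p, ?_, hp⟩
    by_contra hcon
    rw [Phi, if_neg hcon] at hp
    have := (f (nrm (z 0) p)).2
    rw [hp] at this
    exact this.2.1 hv₀.1
  have hW : ∀ t : Fin 3 → Sph E, 0 < sep t → Wv α ρ ε o t ∈ C := fun t ht =>
    Wv_mem hα h hf hε hco hoD.1 ht
  -- cocompactness
  have hcoc : ∃ K ⊆ Dom C τ, IsCompact K ∧ ∀ v ∈ Dom C τ, ∃ g, proj τ (ρ g v) ∈ K := by
    have hcl : IsCompact {t : Fin 3 → Sph E | ε ≤ sep t} :=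
      (isClosed_le continuous_const continuous_sep).isCompact
    refine ⟨(fun t => proj τ (Wv α ρ ε o t)) '' {t | ε ≤ sep t}, ?_, ?_, ?_⟩
    · rintro _ ⟨t, ht, rfl⟩
      have := hW t (hε.trans_le ht)
      exact proj_mem_Dom h this (h.pos_of_mem h0 this)
    · refine hcl.image_of_continuousOn fun t ht => ?_
      have h1 := hW t (hε.trans_le ht)
      exact (ContinuousAt.comp (g := proj τ) (f := Wv α ρ ε o)
        (continuousAt_proj (h.pos_of_mem h0 h1).ne')
        (continuousAt_Wv hα hε o (hε.trans_le ht))).continuousWithinAt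
    · intro v hv
      obtain ⟨p, hp, hpv⟩ := hint v hv
      rw [Phi, if_pos hp] at hpv
      have hs := sep_sig hzne hp
      obtain ⟨g, hg⟩ := exists_wt_pos hε hco hs
      refine ⟨g, act α g (sig z p), hg, ?_⟩
      change proj τ (Wv α ρ ε o (act α g (sig z p))) = _
      rw [Wv_act hα hε o g hs, ← hpv]
      have hτ : τ (Wv α ρ ε o (sig z p)) ≠ 0 := (h.pos_of_mem h0 (hW _ hs)).ne'
      conv_rhs => rw [proj.eq_1 τ (Wv α ρ ε o (sig z p)), map_smul, proj_smul (inv_ne_zero hτ)]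
  refine ⟨fun K hK hKc => proper hα h hf hz hKc hK, hcoc, ?_⟩
  rw [isHomeomorph_iff_continuous_bijective]
  refine ⟨f.continuous, ?_, ?_⟩
  · -- injectivity
    obtain ⟨K, hKD, hKc, hK⟩ := hcoc
    have key : ∀ q : V, q ∈ Bd C τ → ∃ b : Sph E, ∀ w : Sph E, (f w : V) = q → w = b := by
      intro q hq
      set s : ℕ → ℝ := fun n => 1 / ((n : ℝ) + 2) with hs
      have hs0 : ∀ n, 0 < s n := fun n => by positivity
      have hs1 : ∀ n, s n < 1 := fun n => by
        rw [hs]
        simp only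
        rw [div_lt_one (by positivity)]
        have : (0 : ℝ) ≤ n := Nat.cast_nonneg n
        linarith
      set v : ℕ → V := fun n => (1 - s n) • q + s n • o with hv
      have hvD : ∀ n, v n ∈ Dom C τ := fun n => comb_mem_Dom h hq hoD (hs0 n) (hs1 n)
      choose g hg using fun n => hK (v n) (hvD n)
      have hslim : Tendsto s atTop (𝓝 0) := by
        have h1 : Tendsto (fun n : ℕ => 1 / (((n + 1 : ℕ) : ℝ) + 1)) atTop (𝓝 0) :=
          (tendsto_one_div_add_atTop_nhds_zero_nat (𝕜 := ℝ)).comp (tendsto_add_atTop_nat 1)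
        refine h1.congr fun n => ?_
        rw [hs]
        push_cast
        congr 1
        ring
      have hvlim : Tendsto v atTop (𝓝 q) := by
        have : Tendsto v atTop (𝓝 ((1 - (0 : ℝ)) • q + (0 : ℝ) • o)) :=
          ((tendsto_const_nhds.sub hslim).smul_const q).add (hslim.smul_const o)
        simpa using this
      have hq0 : q ≠ 0 := ne_zero_of_one hq.2.2
      have hcof : Tendsto g atTop cofinite := by
        refine tendsto_cofinite_of_ne fun g₀ => ?_
        have hpos := hf.pos h g₀ hq.1 hq0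
        have h1 : Tendsto (fun n => proj τ (ρ g₀ (v n))) atTop (𝓝 (proj τ (ρ g₀ q))) :=
          ((continuousAt_proj hpos.ne').tendsto).comp (((ρ g₀).continuous.tendsto q).comp hvlim)
        have h2 : proj τ (ρ g₀ q) ∉ K := by
          intro hm
          have h3 := (hKD hm).1
          have h4 : ρ g₀ q ∈ C := by
            have := h.smul_mem _ hpos _ h3
            rwa [proj, smul_smul, mul_inv_cancel₀ hpos.ne', one_smul] at this
          have h5 := hpres g₀⁻¹ _ h4
          rw [rho_inv] at h5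
          exact hq.2.1 h5
        filter_upwards [h1 (hKc.isClosed.isOpen_compl.mem_nhds h2)] with n hn heq
        exact hn (heq ▸ hg n)
      obtain ⟨φ, hφ, a, b, hab⟩ := hα g hcof
      refine ⟨b, fun w hw => ?_⟩
      by_contra hwb
      have ha : (f a : V) ∉ K := fun hm => (f a).2.2.1 (hKD hm).1
      have hl1 : Tendsto (fun n => proj τ (ρ (g (φ n)) q)) atTop (𝓝 (f a : V)) := by
        have h1 : Tendsto (fun n => α (g (φ n)) w) atTop (𝓝 a) := by
          intro W hW
          have := hab W hW {w}ᶜ (isOpen_compl_singleton.mem_nhds (by simpa using Ne.symm hwb))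
          rw [Filter.mem_map]
          filter_upwards [this] with n hn
          exact hn w (by simp)
        have h2 := (hf.cont.tendsto a).comp h1
        refine h2.congr fun n => ?_
        rw [← hw]
        exact hf.equi _ _
      have hl2 : Tendsto (fun n => proj τ (ρ (g (φ n)) o)) atTop (𝓝 (f a : V)) := by
        intro W hW
        have := attract h hf hz hab (K := {o}) isCompact_singleton (by simpa using hoD.1) hW
        rw [Filter.mem_map]
        filter_upwards [this] with n hn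
        exact hn o rfl
      have hA : ∀ n, 0 < τ (ρ (g (φ n)) ((1 - s (φ n)) • q)) := fun n =>
        hf.pos h _ (h.smul_cl (by linarith [hs1 (φ n)]) hq.1)
          (smul_ne_zero (by linarith [hs1 (φ n)]) hq0)
      have hB : ∀ n, 0 < τ (ρ (g (φ n)) (s (φ n) • o)) := fun n =>
        hf.pos h _ (subset_closure (h.smul_mem _ (hs0 _) _ hoD.1))
          (smul_ne_zero (hs0 _).ne' (ne_zero_of_one hoD.2))
      have hl3 : Tendsto (fun n => proj τ (ρ (g (φ n)) (v (φ n)))) atTop (𝓝 (f a : V)) := by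
        have := tendsto_comb (c := fun n => τ (ρ (g (φ n)) ((1 - s (φ n)) • q)) /
          (τ (ρ (g (φ n)) ((1 - s (φ n)) • q) + ρ (g (φ n)) (s (φ n) • o)))) hl1 hl2 (fun n => by
            have a1 := hA n
            have a2 := hB n
            rw [map_add τ]
            exact ⟨by positivity, by rw [div_le_one (by positivity)]; linarith⟩)
        refine this.congr fun n => ?_
        rw [hv]
        simp only
        rw [map_add (ρ (g (φ n))), proj_add (hA n) (hB n)]
        congr 2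
        · rw [map_smul, proj_smul (by linarith [hs1 (φ n)])]
        · rw [map_smul, proj_smul (hs0 _).ne']
      have h4 : (f a : V) ∈ K := hKc.isClosed.mem_of_tendsto hl3
        (Eventually.of_forall fun n => hg (φ n))
      exact ha h4
    intro x y hxy
    obtain ⟨b, hb⟩ := key (f x) (f x).2
    rw [hb x rfl, hb y (by rw [hxy])]
  · -- surjectivity
    rintro ⟨q, hq⟩
    have hcomp : IsCompact ((Phi z α τ ρ ε o (fun x => (f x : V))) '' Metric.closedBall 0 1) :=
      (isCompact_closedBall (0 : E) 1).image (continuous_Phi hα h hf hz hε hco hzne hoD.1)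
    have hmem : q ∈ (Phi z α τ ρ ε o (fun x => (f x : V))) '' Metric.closedBall 0 1 := by
      have hslim : Tendsto (fun n : ℕ => 1 / (((n + 1 : ℕ) : ℝ) + 1)) atTop (𝓝 0) :=
        (tendsto_one_div_add_atTop_nhds_zero_nat (𝕜 := ℝ)).comp (tendsto_add_atTop_nat 1)
      have hvlim : Tendsto (fun n : ℕ => (1 - 1 / (((n + 1 : ℕ) : ℝ) + 1)) • q +
          (1 / (((n + 1 : ℕ) : ℝ) + 1)) • o) atTop (𝓝 q) := by
        have := ((tendsto_const_nhds (x := (1 : ℝ)).sub hslim).smul_const q).add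
          (hslim.smul_const o)
        simpa using this
      refine hcomp.isClosed.mem_of_tendsto hvlim (Eventually.of_forall fun n => ?_)
      have h1 : (0 : ℝ) < 1 / (((n + 1 : ℕ) : ℝ) + 1) := by positivity
      have h2 : 1 / (((n + 1 : ℕ) : ℝ) + 1) < 1 := by
        rw [div_lt_one (by positivity)]
        push_cast
        have : (0 : ℝ) ≤ n := Nat.cast_nonneg n
        linarith
      obtain ⟨p, hp, hpv⟩ := hint _ (comb_mem_Dom h hq hoD h1 h2)
      exact ⟨p, by simpa using hp.le, hpv⟩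
    obtain ⟨p, hp, hpq⟩ := hmem
    have hp' : ¬ ‖p‖ < 1 := by
      intro hlt
      rw [Phi, if_pos hlt] at hpq
      have h1 := hW _ (sep_sig hzne hlt)
      have h2 := proj_mem_Dom h h1 (h.pos_of_mem h0 h1)
      rw [hpq] at h2
      exact hq.2.1 h2.1
    rw [Phi, if_neg hp'] at hpq
    exact ⟨nrm (z 0) p, Subtype.ext hpq⟩

end Main

end Pool.Agent.TH289.C
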