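import Pool.Agent.TH289.C.C5

/-!
# The Lorentz cone and hyperbolic space
-/

set_option autoImplicit false

open Filter Topology Set

namespace Pool.Agent.TH289.C

section Lor

variable {E : Type} [NormedAddCommGroup E] [InnerProductSpace ℝ E]

/-- The Lorentz form on `ℝ × E`. -/
noncomputable def qf (v : ℝ × E) : ℝ := v.1 ^ 2 - ‖v.2‖ ^ 2

/-- The polar form. -/
noncomputable def bf (v w : ℝ × E) : ℝ := v.1 * w.1 - inner ℝ v.2 w.2

/-- The hyperboloid model of hyperbolic space. -/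
def Hyp (E : Type) [NormedAddCommGroup E] [InnerProductSpace ℝ E] : Set (ℝ × E) :=
  {v | qf v = 1 ∧ 0 < v.1}

/-- The open light cone. -/
def Lc (E : Type) [NormedAddCommGroup E] [InnerProductSpace ℝ E] : Set (ℝ × E) :=
  {v | ‖v.2‖ < v.1}

/-- `T` preserves the Lorentz form and the upper sheet: an isometry of hyperbolic space. -/
def IsIso (T : (ℝ × E) ≃L[ℝ] (ℝ × E)) : Prop := (∀ v, qf (T v) = qf v) ∧ 0 < (T (1, 0)).1

theorem qf_add (v w : ℝ × E) : qf (v + w) = qf v + qf w + 2 * bf v w := by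
  unfold qf bf
  simp only [Prod.fst_add, Prod.snd_add]
  rw [norm_add_sq_real]
  ring

theorem mem_Lc_iff {v : ℝ × E} : v ∈ Lc E ↔ 0 < qf v ∧ 0 < v.1 := by
  unfold Lc qf
  simp only [mem_ofPred_eq]
  have h := norm_nonneg v.2
  constructor
  · intro h1
    exact ⟨by nlinarith, by linarith⟩
  · rintro ⟨h1, h2⟩
    nlinarith

theorem bf_pos {v w : ℝ × E} (hv : v ∈ Lc E) (hw : w ∈ Lc E) : 0 < bf v w := by
  unfold Lc at hv hw
  simp only [mem_ofPred_eq] at hv hw
  have h1 := real_inner_le_norm v.2 w.2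
  have h2 := norm_nonneg v.2
  have h3 := norm_nonneg w.2
  unfold bf
  nlinarith

theorem isIso_pres {T : (ℝ × E) ≃L[ℝ] (ℝ × E)} (hT : IsIso T) {v : ℝ × E} (hv : v ∈ Lc E) :
    T v ∈ Lc E := by
  have he : ((1 : ℝ), (0 : E)) ∈ Lc E := by simp [Lc]
  have hTe : T (1, 0) ∈ Lc E := by
    rw [mem_Lc_iff]
    refine ⟨?_, hT.2⟩
    rw [hT.1]
    simp [qf]
  have hb : bf (T v) (T (1, 0)) = bf v (1, 0) := by
    have h1 := qf_add (T v) (T (1, 0))
    have h2 := qf_add v ((1 : ℝ), (0 : E))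
    rw [← map_add, hT.1, hT.1, hT.1] at h1
    linarith
  have hbp := bf_pos hv he
  have hq : 0 < qf (T v) := by
    rw [hT.1]
    exact (mem_Lc_iff.1 hv).1
  rw [mem_Lc_iff]
  refine ⟨hq, ?_⟩
  by_contra hcon
  have hneg : -(T v) ∈ Lc E := by
    rw [mem_Lc_iff]
    have hq' : qf (-(T v)) = qf (T v) := by simp [qf]
    refine ⟨by rw [hq']; exact hq, ?_⟩
    have h0 : (T v).1 ≠ 0 := by
      intro h0
      unfold qf at hq
      rw [h0] at hq
      nlinarith [norm_nonneg (T v).2]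
    have : (T v).1 < 0 := lt_of_le_of_ne (not_lt.1 hcon) h0
    simpa using this
  have h3 := bf_pos hneg hTe
  have h4 : bf (-(T v)) (T (1, 0)) = - bf (T v) (T (1, 0)) := by
    simp [bf]
    ring
  rw [h4, hb] at h3
  linarith

theorem closure_Lc : closure (Lc E) = {v : ℝ × E | ‖v.2‖ ≤ v.1} := by
  apply Subset.antisymm
  · refine closure_minimal (fun v hv => ?_) (isClosed_le (by fun_prop) (by fun_prop))
    have hv' : ‖v.2‖ < v.1 := hv
    exact hv'.le
  · intro v hv
    rw [mem_closure_iff_seq_limit]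
    refine ⟨fun n : ℕ => v + (1 / ((n : ℝ) + 1), (0 : E)), fun n => ?_, ?_⟩
    · have : (0 : ℝ) < 1 / ((n : ℝ) + 1) := by positivity
      simp only [Lc, mem_ofPred_eq, Prod.snd_add, add_zero, Prod.fst_add]
      simp only [mem_ofPred_eq] at hv
      linarith
    · have h1 : Tendsto (fun n : ℕ => ((1 / ((n : ℝ) + 1), (0 : E)) : ℝ × E)) atTop (𝓝 (0, 0)) :=
        (tendsto_one_div_add_atTop_nhds_zero_nat (𝕜 := ℝ)).prodMk_nhds tendsto_const_nhds
      have h2 := (tendsto_const_nhds (x := v)).add h1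
      have h3 : v + ((0 : ℝ), (0 : E)) = v := by
        ext <;> simp
      rw [h3] at h2
      exact h2

theorem isStrictCone_Lc : IsStrictCone (Lc E) (ContinuousLinearMap.fst ℝ ℝ E) where
  isOpen := isOpen_lt (by fun_prop) (by fun_prop)
  nonempty := ⟨(1, 0), by simp [Lc]⟩
  smul_mem := by
    intro c hc v hv
    simp only [Lc, mem_ofPred_eq, Prod.smul_snd, Prod.smul_fst, smul_eq_mul] at hv ⊢
    rw [norm_smul, Real.norm_of_nonneg hc.le]
    exact mul_lt_mul_of_pos_left hv hc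
  add_mem := by
    intro v hv w hw
    simp only [Lc, mem_ofPred_eq, Prod.snd_add, Prod.fst_add] at hv hw ⊢
    exact (norm_add_le _ _).trans_lt (add_lt_add hv hw)
  pos := by
    intro v hv hne
    rw [closure_Lc] at hv
    simp only [mem_ofPred_eq] at hv
    simp only [ContinuousLinearMap.coe_fst']
    rcases ((norm_nonneg _).trans hv).eq_or_lt with h | h
    · exfalso
      apply hne
      rw [← h] at hv
      have h2 : v.2 = 0 := norm_le_zero_iff.1 hv
      exact Prod.ext h.symm h2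
    · exact h
  strict := by
    intro v hv w hw hv1 hw1 hne
    rw [closure_Lc] at hv hw
    simp only [mem_ofPred_eq, ContinuousLinearMap.coe_fst'] at hv hw hv1 hw1
    rw [hv1] at hv
    rw [hw1] at hw
    simp only [Lc, mem_ofPred_eq, Prod.snd_add, Prod.fst_add, hv1, hw1]
    have hne2 : v.2 ≠ w.2 := fun h => hne (Prod.ext (hv1.trans hw1.symm) h)
    have h1 : ‖v.2 + w.2‖ ^ 2 + ‖v.2 - w.2‖ ^ 2 = 2 * (‖v.2‖ ^ 2 + ‖w.2‖ ^ 2) := by
      have := parallelogram_law_with_norm ℝ v.2 w.2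
      nlinarith
    have h2 : 0 < ‖v.2 - w.2‖ := norm_pos_iff.2 (sub_ne_zero.2 hne2)
    have h3 := norm_nonneg v.2
    have h4 := norm_nonneg w.2
    have h5 := norm_nonneg (v.2 + w.2)
    by_contra hcon
    push Not at hcon
    nlinarith

theorem Bd_Lc {v : ℝ × E} : v ∈ Bd (Lc E) (ContinuousLinearMap.fst ℝ ℝ E) ↔
    v.1 = 1 ∧ ‖v.2‖ = 1 := by
  unfold Bd
  rw [closure_Lc]
  simp only [mem_ofPred_eq, Lc, not_lt, ContinuousLinearMap.coe_fst']
  constructor
  · rintro ⟨h1, h2, h3⟩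
    exact ⟨h3, by rw [h3] at h1 h2; exact le_antisymm h1 h2⟩
  · rintro ⟨h1, h2⟩
    exact ⟨by rw [h1, h2], by rw [h1, h2], h1⟩

/-- The map to the boundary of the Lorentz cone. -/
noncomputable def lift (f : C(Sph E, Sph E)) :
    C(Sph E, Bd (Lc E) (ContinuousLinearMap.fst ℝ ℝ E)) where
  toFun x := ⟨((1 : ℝ), (f x : E)), Bd_Lc.2 ⟨rfl, norm_coe _⟩⟩
  continuous_toFun := by
    refine Continuous.subtype_mk ?_ _
    exact continuous_const.prodMk (continuous_subtype_val.comp f.continuous)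

theorem lift_null {f : C(Sph E, Sph E)} (h : (lift f).Nullhomotopic) : f.Nullhomotopic := by
  set g : C(Bd (Lc E) (ContinuousLinearMap.fst ℝ ℝ E), Sph E) :=
    ⟨fun v => ⟨v.1.2, by simpa using (Bd_Lc.1 v.2).2⟩, by
      refine Continuous.subtype_mk ?_ _
      exact continuous_snd.comp continuous_subtype_val⟩ with hg
  have h1 := h.comp_right g
  have h2 : g.comp (lift f) = f := by
    ext x
    rfl
  rwa [h2] at h1

/-- The main theorem for hyperbolic space. -/
theorem main_hyp [FiniteDimensional ℝ E] (hE : 2 ≤ Module.finrank ℝ E) {G : Type} [Group G]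
    {α : G →* (Sph E ≃ₜ Sph E)} (hα : IsConvergenceAction α) (hco : CocompactOnTriples α)
    (ρ : G →* ((ℝ × E) ≃L[ℝ] (ℝ × E))) (hρ : ∀ g, IsIso (ρ g)) (f : C(Sph E, Sph E))
    (hess : ¬ f.Nullhomotopic)
    (hequi : ∀ g x, ∃ c : ℝ, 0 < c ∧ ρ g (1, (f x : E)) = c • (1, (f (α g x) : E))) :
    (∀ K ⊆ Hyp E, IsCompact K → {g : G | ∃ v ∈ K, ρ g v ∈ K}.Finite) ∧
    (∃ K ⊆ Hyp E, IsCompact K ∧ ∀ v ∈ Hyp E, ∃ g, ρ g v ∈ K) ∧
    IsHomeomorph f := by
  set τ := ContinuousLinearMap.fst ℝ ℝ E with hτ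
  have hS : IsStrictCone (Lc E) τ := isStrictCone_Lc
  have hpres : ∀ g, ∀ v ∈ Lc E, ρ g v ∈ Lc E := fun g v hv => isIso_pres (hρ g) hv
  obtain ⟨h1, ⟨K, hKD, hKc, hK⟩, h3⟩ := main (ρ := ρ) hE hα hco hS hpres (lift f)
    (fun h => hess (lift_null h)) hequi
  have hHL : ∀ v ∈ Hyp E, v ∈ Lc E := fun v hv => mem_Lc_iff.2 ⟨by rw [hv.1]; exact one_pos, hv.2⟩
  have hposH : ∀ v ∈ Lc E, 0 < τ v := fun v hv => (mem_Lc_iff.1 hv).2
  refine ⟨?_, ?_, ?_⟩
  · intro K hK hKc
    have hc : ContinuousOn (proj τ) K := fun v hv =>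
      (continuousAt_proj (hposH v (hHL v (hK hv))).ne').continuousWithinAt
    refine (h1 (proj τ '' K) ?_ (hKc.image_of_continuousOn hc)).subset ?_
    · rintro _ ⟨v, hv, rfl⟩
      exact proj_mem_Dom hS (hHL v (hK hv)) (hposH v (hHL v (hK hv)))
    · rintro g ⟨v, hv, hgv⟩
      refine ⟨proj τ v, ⟨v, hv, rfl⟩, ρ g v, hgv, ?_⟩
      have hp := hposH v (hHL v (hK hv))
      conv_rhs => rw [proj.eq_1 τ v, map_smul, proj_smul (inv_ne_zero hp.ne')]
  · -- normalisation to the hyperboloid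
    set nm : ℝ × E → ℝ × E := fun v => (Real.sqrt (qf v))⁻¹ • v with hnm
    have hnmc : ContinuousOn nm K := by
      intro v hv
      have hq : 0 < qf v := (mem_Lc_iff.1 (hKD hv).1).1
      have hqc : Continuous (qf : ℝ × E → ℝ) := by
        unfold qf; fun_prop
      have : ContinuousAt (fun v : ℝ × E => (Real.sqrt (qf v))⁻¹) v :=
        ((Real.continuous_sqrt.comp hqc).continuousAt).inv₀ (Real.sqrt_pos.2 hq).ne'
      exact (this.smul continuousAt_id).continuousWithinAt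
    refine ⟨nm '' K, ?_, hKc.image_of_continuousOn hnmc, ?_⟩
    · rintro _ ⟨v, hv, rfl⟩
      have hq := (mem_Lc_iff.1 (hKD hv).1)
      have hs := Real.sqrt_pos.2 hq.1
      refine ⟨?_, ?_⟩
      · have hq2 : qf ((Real.sqrt (qf v))⁻¹ • v) = ((Real.sqrt (qf v))⁻¹) ^ 2 * qf v := by
          unfold qf
          simp only [Prod.smul_fst, Prod.smul_snd, smul_eq_mul]
          rw [norm_smul, Real.norm_eq_abs, mul_pow, mul_pow, sq_abs]
          ring
        rw [hnm]
        simp only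
        rw [hq2, inv_pow, Real.sq_sqrt hq.1.le, inv_mul_cancel₀ hq.1.ne']
      · simp only [hnm, Prod.smul_fst, smul_eq_mul]
        exact mul_pos (inv_pos.2 hs) hq.2
    · intro v hv
      have hvL := hHL v hv
      have hp := hposH v hvL
      obtain ⟨g, hg⟩ := hK (proj τ v) (proj_mem_Dom hS hvL hp)
      have h5 : proj τ (ρ g (proj τ v)) = proj τ (ρ g v) := by
        conv_lhs => rw [proj.eq_1 τ v, map_smul, proj_smul (inv_ne_zero hp.ne')]
      rw [h5] at hg
      refine ⟨g, proj τ (ρ g v), hg, ?_⟩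
      have hw : ρ g v ∈ Lc E := hpres g v hvL
      have hwp := hposH _ hw
      have hq1 : qf (ρ g v) = 1 := by rw [(hρ g).1, hv.1]
      have hq2 : qf (proj τ (ρ g v)) = ((τ (ρ g v))⁻¹) ^ 2 := by
        unfold proj
        have : qf ((τ (ρ g v))⁻¹ • ρ g v) = ((τ (ρ g v))⁻¹) ^ 2 * qf (ρ g v) := by
          unfold qf
          simp only [Prod.smul_fst, Prod.smul_snd, smul_eq_mul]
          rw [norm_smul, Real.norm_eq_abs, mul_pow, mul_pow, sq_abs]
          ring
        rw [this, hq1, mul_one]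
      rw [hnm]
      simp only
      rw [hq2, Real.sqrt_sq (inv_pos.2 hwp).le, inv_inv, proj, smul_smul, mul_inv_cancel₀ hwp.ne',
        one_smul]
  · have hcS : CompactSpace (Sph E) := by
      have : ProperSpace E := FiniteDimensional.proper ℝ E
      exact isCompact_iff_compactSpace.1 (isCompact_sphere (0 : E) 1)
    rw [isHomeomorph_iff_continuous_bijective]
    refine ⟨f.continuous, ?_, ?_⟩
    · intro x y hxy
      apply h3.bijective.1
      apply Subtype.ext
      change ((1 : ℝ), (f x : E)) = ((1 : ℝ), (f y : E))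
      rw [hxy]
    · intro y
      obtain ⟨x, hx⟩ := h3.bijective.2 ⟨((1 : ℝ), (y : E)), Bd_Lc.2 ⟨rfl, norm_coe _⟩⟩
      refine ⟨x, ?_⟩
      have h6 := congrArg (fun v => (v : ℝ × E).2) (congrArg Subtype.val hx)
      exact Subtype.ext h6

end Lor

end Pool.Agent.TH289.C
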