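import Pool.Agent.TH289.C.C5
import Pool.Agent.Helper31.GZ.Brouwer

/-!
# Linear dynamics on strictly convex cones and factors of projective actions
-/

set_option autoImplicit false

open Filter Topology Set

namespace Pool.Agent.TH289.C

section LinDyn

variable {V : Type} [NormedAddCommGroup V] [NormedSpace ℝ V] {C : Set V} {τ : V →L[ℝ] ℝ}

/-- `v ≤ D o` on compact sets. -/
theorem exists_dom (h : IsStrictCone C τ) {o : V} (ho : o ∈ C) {K : Set V}
    (hK : Bornology.IsBounded K) : ∃ D : ℝ, 0 < D ∧ ∀ v ∈ K, D • o - v ∈ C := by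
  obtain ⟨M, hM⟩ := hK.exists_norm_le
  obtain ⟨δ, hδ, hδ'⟩ := Metric.isOpen_iff.1 h.isOpen o ho
  have hM1 : 0 ≤ |M| := abs_nonneg M
  refine ⟨(|M| + 1) / δ, by positivity, fun v hv => ?_⟩
  have h1 : o - (δ / (|M| + 1)) • v ∈ C := by
    refine hδ' ?_
    rw [Metric.mem_ball, dist_eq_norm]
    have : o - (δ / (|M| + 1)) • v - o = -((δ / (|M| + 1)) • v) := by abel
    rw [this, norm_neg, norm_smul, Real.norm_of_nonneg (by positivity)]
    have hv' := (hM v hv).trans (le_abs_self M)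
    rw [div_mul_eq_mul_div, div_lt_iff₀ (by positivity)]
    nlinarith
  have h2 := h.smul_mem ((|M| + 1) / δ) (by positivity) _ h1
  have h3 : ((|M| + 1) / δ) • (o - (δ / (|M| + 1)) • v) = ((|M| + 1) / δ) • o - v := by
    rw [smul_sub, smul_smul]
    congr 1
    have : (|M| + 1) / δ * (δ / (|M| + 1)) = 1 := by field_simp
    rw [this, one_smul]
  rwa [h3] at h2

theorem exists_low [FiniteDimensional ℝ V] (h : IsStrictCone C τ) :
    ∃ m : ℝ, 0 < m ∧ ∀ v ∈ closure C, m * ‖v‖ ≤ τ v := by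
  have : ProperSpace V := FiniteDimensional.proper ℝ V
  have hS : IsCompact (closure C ∩ Metric.sphere (0 : V) 1) :=
    (isCompact_sphere (0 : V) 1).inter_left isClosed_closure
  obtain ⟨m, hm, hm'⟩ := hS.exists_forall_le' (f := τ) τ.continuous.continuousOn (a := 0)
    (fun v hv => h.pos v hv.1 (by
      rintro rfl
      simp at hv))
  refine ⟨m, hm, fun v hv => ?_⟩
  rcases eq_or_ne v 0 with rfl | hv0
  · simp
  have hn : 0 < ‖v‖ := norm_pos_iff.2 hv0
  have h1 := hm' (‖v‖⁻¹ • v) ⟨h.smul_cl (inv_pos.2 hn) hv, by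
    simp [norm_smul, hn.ne']⟩
  rw [map_smul, smul_eq_mul] at h1
  have := mul_le_mul_of_nonneg_left h1 hn.le
  rw [← mul_assoc, mul_inv_cancel₀ hn.ne', one_mul] at this
  linarith

theorem tau_nonneg (h : IsStrictCone C τ) {v : V} (hv : v ∈ closure C) : 0 ≤ τ v := by
  rcases eq_or_ne v 0 with rfl | hv0
  · simp
  · exact (h.pos v hv hv0).le

/-- Operator bound for maps preserving the cone. -/
theorem op_bound [FiniteDimensional ℝ V] (h : IsStrictCone C τ) {o : V} (ho : o ∈ C) :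
    ∃ M : ℝ, 0 ≤ M ∧ ∀ A : V →L[ℝ] V, (∀ v ∈ C, A v ∈ C) → ‖A‖ ≤ M * τ (A o) := by
  obtain ⟨m, hm, hm'⟩ := exists_low h
  obtain ⟨D, hD, hD'⟩ := exists_dom h ho (K := Metric.closedBall (0 : V) 1)
    Metric.isBounded_closedBall
  refine ⟨D / m, by positivity, fun A hA => ?_⟩
  have hAo : 0 ≤ τ (A o) := tau_nonneg h (subset_closure (hA o ho))
  refine A.opNorm_le_bound (by positivity) fun v => ?_
  rcases eq_or_ne v 0 with rfl | hv0
  · simp
  have hn : 0 < ‖v‖ := norm_pos_iff.2 hv0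
  obtain ⟨u, hu⟩ : ∃ u, u = ‖v‖⁻¹ • v := ⟨_, rfl⟩
  have hun : ‖u‖ = 1 := by simp [hu, norm_smul, hn.ne']
  have h1 : D • o - u ∈ C := hD' u (by simp [hun])
  have h2 : D • o - (-u) ∈ C := hD' (-u) (by simp [hun])
  have h3 := hm' _ (subset_closure (hA _ h1))
  have h4 := hm' _ (subset_closure (hA _ h2))
  rw [map_sub, map_sub, map_smul, map_smul, smul_eq_mul] at h3
  rw [map_sub, map_sub, map_smul, map_smul, smul_eq_mul, map_neg, map_neg] at h4
  have h5 : ‖(2 : ℝ) • A u‖ ≤ ‖D • A o - A u‖ + ‖D • A o - -A u‖ := by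
    have : (2 : ℝ) • A u = -(D • A o - A u) + (D • A o - -A u) := by module
    rw [this]
    refine (norm_add_le _ _).trans ?_
    rw [norm_neg]
  rw [norm_smul, Real.norm_of_nonneg (by norm_num)] at h5
  have h6 : ‖A u‖ ≤ D / m * τ (A o) := by
    rw [div_mul_eq_mul_div, le_div_iff₀ hm]
    nlinarith
  have h7 : v = ‖v‖ • u := by
    rw [hu, smul_smul, mul_inv_cancel₀ hn.ne', one_smul]
  rw [h7, map_smul, norm_smul, norm_smul, norm_norm, hun, mul_one, mul_comm]
  exact mul_le_mul_of_nonneg_right h6 hn.le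

/-- If `A` preserves the closed cone and `A o` is a boundary point, then `A` maps the cone to the
ray through `A o`. -/
theorem rank_one (h : IsStrictCone C τ) {o : V} (ho : o ∈ C) {A : V →L[ℝ] V}
    (hA : ∀ v ∈ closure C, A v ∈ closure C) (hAo : A o ∈ Bd C τ) {v : V} (hv : v ∈ closure C) :
    A v = (τ (A v)) • A o := by
  obtain ⟨D, hD, hD'⟩ := exists_dom h ho (K := {v}) Bornology.isBounded_singleton
  have h1 : D • o - v ∈ C := hD' v rfl
  set w := D • o - v with hw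
  have hAv := hA v hv
  have hAw := hA w (subset_closure h1)
  have hsum : A v + A w = D • A o := by
    rw [← map_add, ← map_smul]
    congr 1
    rw [hw]; abel
  rcases eq_or_ne (A v) 0 with hv0 | hv0
  · rw [hv0]; simp
  rcases eq_or_ne (A w) 0 with hw0 | hw0
  · rw [hw0, add_zero] at hsum
    rw [hsum, map_smul, hAo.2.2, smul_eq_mul, mul_one]
  have hpv := h.pos _ hAv hv0
  have hpw := h.pos _ hAw hw0
  have h2 := proj_add hpv hpw
  rw [hsum, proj_smul hD.ne', proj_of_one hAo.2.2] at h2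
  have h3 : proj τ (A v) = proj τ (A w) := by
    by_contra hne
    have h4 := comb_mem h (proj_mem_Kbar h hAv hpv) (proj_mem_Kbar h hAw hpw) hne
      (l := τ (A v) / τ (D • A o)) (by
        rw [← hsum, map_add]; positivity) (by
        rw [← hsum, map_add, div_lt_one (by positivity)]; linarith)
    rw [← h2] at h4
    exact hAo.2.1 h4
  rw [← h3] at h2
  have h5 : A o = proj τ (A v) := by
    rw [h2]; module
  rw [h5, proj, smul_smul, mul_inv_cancel₀ hpv.ne', one_smul]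

theorem pos_of_interior (h : IsStrictCone C τ) {o : V} (ho : o ∈ C) {A : V →L[ℝ] V}
    (hA : ∀ v ∈ closure C, A v ∈ closure C) (hAo : τ (A o) = 1) {v : V} (hv : v ∈ C) :
    0 < τ (A v) := by
  obtain ⟨D, hD, hD'⟩ := exists_dom h hv (K := {o}) Bornology.isBounded_singleton
  have h1 := tau_nonneg h (hA _ (subset_closure (hD' o rfl)))
  rw [map_sub, map_sub, map_smul, map_smul, smul_eq_mul, hAo] at h1
  by_contra hcon
  nlinarith

/-- If `A o` is interior, `A` maps the open cone to itself. -/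
theorem int_of_interior (h : IsStrictCone C τ) {o : V} {A : V →L[ℝ] V}
    (hA : ∀ v ∈ closure C, A v ∈ closure C) (hAo : A o ∈ C) {v : V} (hv : v ∈ C) :
    A v ∈ C := by
  obtain ⟨D, hD, hD'⟩ := exists_dom h hv (K := {o}) Bornology.isBounded_singleton
  have h1 := hA _ (subset_closure (hD' o rfl))
  rw [map_sub, map_smul] at h1
  have h2 : A v = D⁻¹ • (A o + (D • A v - A o)) := by
    rw [add_sub_cancel, smul_smul, inv_mul_cancel₀ hD.ne', one_smul]
  rw [h2]
  exact h.smul_mem _ (inv_pos.2 hD) _ (h.add_cl hAo h1)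

end LinDyn

section Factor

variable {V : Type} [NormedAddCommGroup V] [NormedSpace ℝ V] {G : Type} [Group G] {X : Type}
  [MetricSpace X]
variable {C : Set V} {τ : V →L[ℝ] ℝ} {α : G →* (X ≃ₜ X)} {ρ : G →* (V ≃L[ℝ] V)}

/-- The normalised linear maps. -/
noncomputable def nA (τ : V →L[ℝ] ℝ) (ρ : G →* (V ≃L[ℝ] V)) (o : V) (g : G) : V →L[ℝ] V :=
  (τ (ρ g o))⁻¹ • (ρ g : V →L[ℝ] V)

theorem nA_apply (o : V) (g : G) (v : V) : nA τ ρ o g v = (τ (ρ g o))⁻¹ • ρ g v := rfl

variable (C τ α ρ) in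
/-- `hh` is an equivariant map from the boundary of the domain to `X`. -/
structure IsFactor (hh : Bd C τ → X) : Prop where
  cone : IsStrictCone C τ
  cont : Continuous hh
  pres : ∀ g, ∀ v ∈ C, ρ g v ∈ C
  equi : ∀ g (y z : Bd C τ), (z : V) = proj τ (ρ g y) → hh z = α g (hh y)
  three : ∃ y : Fin 3 → Bd C τ, ∀ i j, i ≠ j → hh (y i) ≠ hh (y j)

theorem rho_pos (h : IsStrictCone C τ) (hpres : ∀ g, ∀ v ∈ C, ρ g v ∈ C) (g : G) {v : V}
    (hv : v ∈ closure C) (h0 : v ≠ 0) : 0 < τ (ρ g v) := by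
  have h1 : MapsTo (fun v : V => ρ g v) C C := fun v hv => hpres g v hv
  exact h.pos _ (h1.closure (ρ g).continuous hv) (by simpa using h0)

theorem rho_bd (h : IsStrictCone C τ) (hpres : ∀ g, ∀ v ∈ C, ρ g v ∈ C) (g : G) {v : V}
    (hv : v ∈ Bd C τ) : proj τ (ρ g v) ∈ Bd C τ := by
  have h1 : MapsTo (fun v : V => ρ g v) C C := fun v hv => hpres g v hv
  have h2 : ρ g v ∈ closure C := h1.closure (ρ g).continuous hv.1
  have h3 := rho_pos h hpres g hv.1 (ne_zero_of_one hv.2.2)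
  have h4 := proj_mem_Kbar h h2 h3
  refine ⟨h4.1, fun hC => ?_, h4.2⟩
  have h5 := h.smul_mem _ h3 _ hC
  rw [proj, smul_smul, mul_inv_cancel₀ h3.ne', one_smul] at h5
  have h6 := hpres g⁻¹ _ h5
  rw [rho_inv] at h6
  exact hv.2.1 h6

theorem IsFactor.tendsto_of_lim {hh : Bd C τ → X} (hf : IsFactor C τ α ρ hh) {o : V}
    (ho : o ∈ Dom C τ) {g : ℕ → G} {A : V →L[ℝ] V}
    (hA : Tendsto (fun n => nA τ ρ o (g n)) atTop (𝓝 A)) {y z : Bd C τ}
    (hz : (z : V) = proj τ (A y)) (hpos : 0 < τ (A y)) :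
    Tendsto (fun n => α (g n) (hh y)) atTop (𝓝 (hh z)) := by
  have h0 : (0 : V) ∉ C := hf.cone.zero_notMem y.2
  have ho0 : ∀ g, 0 < τ (ρ g o) := fun g =>
    rho_pos hf.cone hf.pres g (subset_closure ho.1) (ne_zero_of_one ho.2)
  set w : ℕ → Bd C τ := fun n => ⟨proj τ (ρ (g n) y), rho_bd hf.cone hf.pres (g n) y.2⟩ with hw
  have h1 : Tendsto (fun n => nA τ ρ o (g n) (y : V)) atTop (𝓝 (A y)) :=
    ((ContinuousLinearMap.apply ℝ V (y : V)).continuous.tendsto A).comp hA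
  have h2 : Tendsto (fun n => proj τ (nA τ ρ o (g n) (y : V))) atTop (𝓝 (proj τ (A y))) :=
    (continuousAt_proj hpos.ne').tendsto.comp h1
  have h3 : Tendsto (fun n => (w n : V)) atTop (𝓝 (z : V)) := by
    rw [hz]
    refine h2.congr fun n => ?_
    rw [nA_apply, proj_smul (inv_ne_zero (ho0 _).ne')]
  have h4 : Tendsto w atTop (𝓝 z) := tendsto_subtype_rng.2 h3
  have h5 := (hf.cont.tendsto z).comp h4
  refine h5.congr fun n => ?_
  exact hf.equi (g n) y (w n) rfl

/-- Compactness of the normalised maps. -/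
theorem exists_lim [FiniteDimensional ℝ V] (h : IsStrictCone C τ) (h0 : (0 : V) ∉ C)
    (hpres : ∀ g, ∀ v ∈ C, ρ g v ∈ C)
    {o : V} (ho : o ∈ Dom C τ) (g : ℕ → G) {K : Set V} (hK : IsCompact K) (v : ℕ → V)
    (hv : ∀ n, v n ∈ K) : ∃ φ : ℕ → ℕ, StrictMono φ ∧ ∃ A : V →L[ℝ] V, ∃ v₀ ∈ K,
      Tendsto (fun n => nA τ ρ o (g (φ n))) atTop (𝓝 A) ∧
      Tendsto (fun n => v (φ n)) atTop (𝓝 v₀) ∧ (∀ v ∈ closure C, A v ∈ closure C) ∧
      τ (A o) = 1 := by
  obtain ⟨M, hM, hM'⟩ := op_bound h ho.1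
  have hprop : ProperSpace (V →L[ℝ] V) := FiniteDimensional.proper ℝ _
  have ho0 : ∀ g, 0 < τ (ρ g o) := fun g =>
    rho_pos h hpres g (subset_closure ho.1) (ne_zero_of_one ho.2)
  have hpresA : ∀ g, ∀ v ∈ C, nA τ ρ o g v ∈ C := fun g v hv => by
    rw [nA_apply]
    exact h.smul_mem _ (inv_pos.2 (ho0 g)) _ (hpres g v hv)
  have hone : ∀ g, τ (nA τ ρ o g o) = 1 := fun g => by
    rw [nA_apply, map_smul, smul_eq_mul, inv_mul_cancel₀ (ho0 g).ne']
  have hcomp : IsCompact (Metric.closedBall (0 : V →L[ℝ] V) M ×ˢ K) :=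
    (isCompact_closedBall _ _).prod hK
  obtain ⟨⟨A, v₀⟩, ⟨-, hv₀⟩, φ, hφ, hlim⟩ := hcomp.tendsto_subseq
    (x := fun n => (nA τ ρ o (g n), v n)) (fun n => ⟨by
      have := hM' _ (hpresA (g n))
      rw [hone, mul_one] at this
      simpa using this, hv n⟩)
  have hlimA : Tendsto (fun n => nA τ ρ o (g (φ n))) atTop (𝓝 A) :=
    (continuous_fst.tendsto _).comp hlim
  have hev : ∀ v, Tendsto (fun n => nA τ ρ o (g (φ n)) v) atTop (𝓝 (A v)) := fun v =>
    ((ContinuousLinearMap.apply ℝ V v).continuous.tendsto A).comp hlimA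
  refine ⟨φ, hφ, A, v₀, hv₀, hlimA, (continuous_snd.tendsto _).comp hlim, ?_, ?_⟩
  · intro v hv
    refine isClosed_closure.mem_of_tendsto (hev v) (Eventually.of_forall fun n => ?_)
    have h1 : MapsTo (fun v : V => nA τ ρ o (g (φ n)) v) C C := fun v hv => hpresA _ v hv
    exact h1.closure (nA τ ρ o (g (φ n))).continuous hv
  · have h1 := (τ.continuous.tendsto _).comp (hev o)
    refine tendsto_nhds_unique h1 ?_
    refine tendsto_const_nhds.congr fun n => ?_
    exact (hone _).symm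

end Factor

end Pool.Agent.TH289.C
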