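import Pool.Agent.TH289.C.C8

/-!
# Factors of projective actions: properness, cocompactness, injectivity
-/

set_option autoImplicit false

open Filter Topology Set

namespace Pool.Agent.TH289.C

section Factor

variable {V : Type} [NormedAddCommGroup V] [NormedSpace ℝ V] {G : Type} [Group G] {X : Type}
  [MetricSpace X]
variable {C : Set V} {τ : V →L[ℝ] ℝ} {α : G →* (X ≃ₜ X)} {ρ : G →* (V ≃L[ℝ] V)}
  {hh : Bd C τ → X}

theorem tendsto_clm {A : ℕ → V →L[ℝ] V} {A₀ : V →L[ℝ] V} {v : ℕ → V} {v₀ : V}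
    (hA : Tendsto A atTop (𝓝 A₀)) (hv : Tendsto v atTop (𝓝 v₀)) :
    Tendsto (fun n => A n (v n)) atTop (𝓝 (A₀ v₀)) := by
  have h1 : Continuous fun p : (V →L[ℝ] V) × V => p.1 p.2 :=
    (isBoundedBilinearMap_apply (𝕜 := ℝ) (E := V) (F := V)).continuous
  exact (h1.tendsto (A₀, v₀)).comp (hA.prodMk_nhds hv)

/-- Convergence of a sequence to `a`, off `b`. -/
def Conv (α : G →* (X ≃ₜ X)) (g : ℕ → G) (a b : X) : Prop :=
  ∀ U ∈ 𝓝 a, ∀ W ∈ 𝓝 b, ∀ᶠ n in atTop, ∀ x, x ∉ W → α (g n) x ∈ U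

theorem Conv.comp {g : ℕ → G} {a b : X} (h : Conv α g a b) {φ : ℕ → ℕ} (hφ : StrictMono φ) :
    Conv α (fun n => g (φ n)) a b := fun U hU W hW =>
  hφ.tendsto_atTop.eventually (h U hU W hW)

theorem Conv.tendsto {g : ℕ → G} {a b : X} (h : Conv α g a b) {x : X} (hx : x ≠ b) :
    Tendsto (fun n => α (g n) x) atTop (𝓝 a) := by
  intro W hW
  have := h W hW {x}ᶜ (isOpen_compl_singleton.mem_nhds (by simpa using hx.symm))
  rw [Filter.mem_map]
  filter_upwards [this] with n hn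
  exact hn x (by simp)

theorem Bd_ne_zero (y : Bd C τ) : (y : V) ≠ 0 := ne_zero_of_one y.2.2.2

/-- Limits of the normalised maps along converging sequences are singular. -/
theorem not_interior [FiniteDimensional ℝ V] (hf : IsFactor C τ α ρ hh) {o : V}
    (ho : o ∈ Dom C τ) {g : ℕ → G} {a b : X} (hab : Conv α g a b) {A : V →L[ℝ] V}
    (hA : Tendsto (fun n => nA τ ρ o (g n)) atTop (𝓝 A))
    (hAc : ∀ v ∈ closure C, A v ∈ closure C) (hAo : τ (A o) = 1) : A o ∈ Bd C τ := by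
  have h := hf.cone
  obtain ⟨y, hy⟩ := hf.three
  have h0 : (0 : V) ∉ C := h.zero_notMem (y 0).2
  refine ⟨hAc o (subset_closure ho.1), fun hAC => ?_, hAo⟩
  have ho0 : ∀ g, 0 < τ (ρ g o) := fun g =>
    rho_pos h hf.pres g (subset_closure ho.1) (ne_zero_of_one ho.2)
  -- inverses
  obtain ⟨φ, hφ, B, v₀, -, hB, -, hBc, hBo⟩ := exists_lim h h0 hf.pres ho (fun n => (g n)⁻¹)
    (K := {o}) isCompact_singleton (fun _ => o) (fun _ => rfl)
  have hA' : Tendsto (fun n => nA τ ρ o (g (φ n))) atTop (𝓝 A) := hA.comp hφ.tendsto_atTop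
  set c : ℕ → ℝ := fun n => (τ (ρ (g (φ n))⁻¹ o))⁻¹ * (τ (ρ (g (φ n)) o))⁻¹ with hc
  have hBA : ∀ n v, nA τ ρ o (g (φ n))⁻¹ (nA τ ρ o (g (φ n)) v) = c n • v := by
    intro n v
    rw [nA_apply, nA_apply, map_smul, rho_inv, smul_smul]
  have hAB : ∀ n v, nA τ ρ o (g (φ n)) (nA τ ρ o (g (φ n))⁻¹ v) = c n • v := by
    intro n v
    rw [nA_apply, nA_apply, map_smul, ← rho_mul, mul_inv_cancel, rho_one, smul_smul, hc, mul_comm]
  have hcompc : ∀ v, Tendsto (fun n => nA τ ρ o (g (φ n))⁻¹ (nA τ ρ o (g (φ n)) v)) atTop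
      (𝓝 (B (A v))) := by
    intro v
    have h1 : Tendsto (fun n => nA τ ρ o (g (φ n)) v) atTop (𝓝 (A v)) :=
      tendsto_clm hA' tendsto_const_nhds
    exact tendsto_clm hB h1
  have hcompc' : ∀ v, Tendsto (fun n => nA τ ρ o (g (φ n)) (nA τ ρ o (g (φ n))⁻¹ v)) atTop
      (𝓝 (A (B v))) := by
    intro v
    have h1 : Tendsto (fun n => nA τ ρ o (g (φ n))⁻¹ v) atTop (𝓝 (B v)) :=
      tendsto_clm hB tendsto_const_nhds
    exact tendsto_clm hA' h1
  -- the constants converge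
  have hclim : Tendsto c atTop (𝓝 (τ (B (A o)))) := by
    have h1 := (τ.continuous.tendsto _).comp (hcompc o)
    refine h1.congr fun n => ?_
    change τ (nA τ ρ o (g (φ n))⁻¹ (nA τ ρ o (g (φ n)) o)) = c n
    rw [hBA, map_smul, ho.2, smul_eq_mul, mul_one]
  set c₀ := τ (B (A o)) with hc₀
  have hc₀pos : 0 < c₀ := pos_of_interior h ho.1 hBc hBo hAC
  have hABv : ∀ v, A (B v) = c₀ • v := by
    intro v
    refine tendsto_nhds_unique (hcompc' v) ?_
    refine (hclim.smul_const v).congr fun n => ?_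
    rw [hAB]
  -- preimages
  have hz : ∀ i, ∃ z : Bd C τ, (y i : V) = proj τ (A z) ∧ 0 < τ (A z) := by
    intro i
    have hBy : B (y i) ∈ closure C := hBc _ (y i).2.1
    have hBy0 : B (y i) ≠ 0 := by
      intro hb
      have h1 := hABv (y i)
      rw [hb, map_zero] at h1
      exact Bd_ne_zero (y i) ((smul_eq_zero.1 h1.symm).resolve_left hc₀pos.ne')
    have hp := h.pos _ hBy hBy0
    have hnC : B (y i) ∉ C := by
      intro hC
      have h1 := int_of_interior h hAc hAC hC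
      rw [hABv] at h1
      have h2 := h.smul_mem _ (inv_pos.2 hc₀pos) _ h1
      rw [smul_smul, inv_mul_cancel₀ hc₀pos.ne', one_smul] at h2
      exact (y i).2.2.1 h2
    have hk := proj_mem_Kbar h hBy hp
    have hAz : A (proj τ (B (y i))) = ((τ (B (y i)))⁻¹ * c₀) • (y i : V) := by
      rw [proj, map_smul, hABv, smul_smul]
    refine ⟨⟨proj τ (B (y i)), hk.1, fun hC => hnC ?_, hk.2⟩, ?_, ?_⟩
    · have := h.smul_mem _ hp _ hC
      rwa [proj, smul_smul, mul_inv_cancel₀ hp.ne', one_smul] at this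
    · change (y i : V) = proj τ (A (proj τ (B (y i))))
      rw [hAz, proj_smul (by positivity), proj_of_one (y i).2.2.2]
    · change 0 < τ (A (proj τ (B (y i))))
      rw [hAz, map_smul, (y i).2.2.2]
      simp only [smul_eq_mul, mul_one]
      positivity
  choose z hz1 hz2 using hz
  have hlim : ∀ i, Tendsto (fun n => α (g n) (hh (z i))) atTop (𝓝 (hh (y i))) := fun i =>
    hf.tendsto_of_lim ho hA (hz1 i) (hz2 i)
  have hone : ∀ i, hh (y i) ≠ a → hh (z i) = b := by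
    intro i hi
    by_contra hne
    exact hi (tendsto_nhds_unique (hlim i) (hab.tendsto hne))
  have htwo : ∃ i j, i ≠ j ∧ hh (z i) = b ∧ hh (z j) = b := by
    have key : ∀ i j, i ≠ j → hh (y i) = a → hh (z j) = b := by
      intro i j hij h1
      exact hone j fun h2 => hy i j hij (h1.trans h2.symm)
    by_cases h1 : hh (y 0) = a
    · exact ⟨1, 2, by decide, key 0 1 (by decide) h1, key 0 2 (by decide) h1⟩
    · by_cases h2 : hh (y 1) = a
      · exact ⟨0, 2, by decide, hone 0 h1, key 1 2 (by decide) h2⟩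
      · exact ⟨0, 1, by decide, hone 0 h1, hone 1 h2⟩
  obtain ⟨i, j, hij, hi, hj⟩ := htwo
  have h1 := hlim i
  have h2 := hlim j
  rw [hi] at h1
  rw [hj] at h2
  exact hy i j hij (tendsto_nhds_unique h1 h2)

/-- The key dynamical fact: orbits along a sequence converging to `a` accumulate at points of the
fibre of `a`. -/
theorem accumulate [FiniteDimensional ℝ V] (hf : IsFactor C τ α ρ hh) {g : ℕ → G} {a b : X}
    (hab : Conv α g a b) {K : Set V} (hK : IsCompact K) (hKC : K ⊆ C) (v : ℕ → V)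
    (hv : ∀ n, v n ∈ K) : ∃ φ : ℕ → ℕ, StrictMono φ ∧ ∃ q : Bd C τ, hh q = a ∧
      Tendsto (fun n => proj τ (ρ (g (φ n)) (v (φ n)))) atTop (𝓝 (q : V)) ∧
      ∃ y' : Bd C τ, ∀ y : Bd C τ, y ≠ y' →
        Tendsto (fun n => α (g (φ n)) (hh y)) atTop (𝓝 a) := by
  have h := hf.cone
  obtain ⟨y, hy⟩ := hf.three
  have h0 : (0 : V) ∉ C := h.zero_notMem (y 0).2
  obtain ⟨o₁, ho₁⟩ := h.nonempty
  set o := proj τ o₁ with hodef
  have ho : o ∈ Dom C τ := proj_mem_Dom h ho₁ (h.pos_of_mem h0 ho₁)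
  have ho0 : ∀ g, 0 < τ (ρ g o) := fun g =>
    rho_pos h hf.pres g (subset_closure ho.1) (ne_zero_of_one ho.2)
  obtain ⟨φ, hφ, A, v₀, hv₀, hA, hvlim, hAc, hAo⟩ := exists_lim h h0 hf.pres ho g hK v hv
  have hab' := hab.comp hφ
  have hq : A o ∈ Bd C τ := not_interior hf ho hab' hA hAc hAo
  set q : Bd C τ := ⟨A o, hq⟩ with hqdef
  have hrank : ∀ v ∈ closure C, A v = τ (A v) • A o := fun v hv => rank_one h ho.1 hAc hq hv
  have hproj : ∀ v ∈ closure C, 0 < τ (A v) → proj τ (A v) = A o := by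
    intro v hv hp
    conv_lhs => rw [hrank v hv]
    rw [proj_smul hp.ne', proj_of_one hAo]
  -- at most one boundary point is killed
  have hkill : ∀ y₁ y₂ : Bd C τ, y₁ ≠ y₂ → ¬ 0 < τ (A y₁) → 0 < τ (A y₂) := by
    intro y₁ y₂ hne h1
    have h2 := tau_nonneg h (hAc _ y₁.2.1)
    have h3 := tau_nonneg h (hAc _ y₂.2.1)
    have hC : (y₁ : V) + y₂ ∈ C := h.strict _ y₁.2.1 _ y₂.2.1 y₁.2.2.2 y₂.2.2.2
      (fun he => hne (Subtype.ext he))
    have h4 := pos_of_interior h ho.1 hAc hAo hC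
    rw [map_add, map_add] at h4
    push Not at h1
    linarith
  have hlim : ∀ y : Bd C τ, 0 < τ (A y) →
      Tendsto (fun n => α (g (φ n)) (hh y)) atTop (𝓝 (hh q)) := fun y hp =>
    hf.tendsto_of_lim ho hA (z := q) (hproj y y.2.1 hp).symm hp
  have hqa : hh q = a := by
    -- choose `y` with `h y ≠ b` and `A y ≠ 0`
    have : ∃ i, hh (y i) ≠ b ∧ 0 < τ (A (y i)) := by
      by_contra hcon
      push Not at hcon
      have h3 : ∀ i, hh (y i) = b ∨ ¬ 0 < τ (A (y i)) := by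
        intro i
        by_cases hb : hh (y i) = b
        · exact Or.inl hb
        · exact Or.inr (not_lt.2 (hcon i hb))
      have hbb : ∀ i j, i ≠ j → hh (y i) = b → hh (y j) ≠ b := fun i j hij h1 h2 =>
        hy i j hij (h1.trans h2.symm)
      have hyy : ∀ i j, i ≠ j → y i ≠ y j := fun i j hij he => hy i j hij (by rw [he])
      have hkk : ∀ i j, i ≠ j → ¬ 0 < τ (A (y i)) → 0 < τ (A (y j)) := fun i j hij h1 =>
        hkill _ _ (hyy i j hij) h1
      rcases h3 0 with h4 | h4 <;> rcases h3 1 with h5 | h5 <;> rcases h3 2 with h6 | h6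
      · exact hbb 0 1 (by decide) h4 h5
      · exact hbb 0 1 (by decide) h4 h5
      · exact hbb 0 2 (by decide) h4 h6
      · exact h6 (hkk 1 2 (by decide) h5)
      · exact hbb 1 2 (by decide) h5 h6
      · exact h6 (hkk 0 2 (by decide) h4)
      · exact h5 (hkk 0 1 (by decide) h4)
      · exact h5 (hkk 0 1 (by decide) h4)
    obtain ⟨i, hi1, hi2⟩ := this
    exact tendsto_nhds_unique (hlim _ hi2) (hab'.tendsto hi1)
  refine ⟨φ, hφ, q, hqa, ?_, ?_⟩
  · have hv₀C := hKC hv₀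
    have hp : 0 < τ (A v₀) := pos_of_interior h ho.1 hAc hAo hv₀C
    have h1 : Tendsto (fun n => nA τ ρ o (g (φ n)) (v (φ n))) atTop (𝓝 (A v₀)) :=
      tendsto_clm hA hvlim
    have h2 := (continuousAt_proj hp.ne').tendsto.comp h1
    rw [hproj v₀ (subset_closure hv₀C) hp] at h2
    refine h2.congr fun n => ?_
    change proj τ (nA τ ρ o (g (φ n)) (v (φ n))) = _
    rw [nA_apply, proj_smul (inv_ne_zero (ho0 _).ne')]
  · by_cases hall : ∀ y : Bd C τ, 0 < τ (A y)
    · exact ⟨q, fun y _ => hqa ▸ hlim y (hall y)⟩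
    · push Not at hall
      obtain ⟨y', hy'⟩ := hall
      exact ⟨y', fun y hne => hqa ▸ hlim y (hkill y' y hne.symm (not_lt.2 hy'))⟩

theorem proper_factor [FiniteDimensional ℝ V] (hα : IsConvergenceAction α)
    (hf : IsFactor C τ α ρ hh) {K : Set V} (hK : IsCompact K)
    (hKD : K ⊆ Dom C τ) : {g : G | ∃ v ∈ K, proj τ (ρ g v) ∈ K}.Finite := by
  by_contra hinf
  have hinf' : {g : G | ∃ v ∈ K, proj τ (ρ g v) ∈ K}.Infinite := hinf
  set e := hinf'.natEmbedding
  have hg : Function.Injective fun n => (e n : G) := fun m n h => e.injective (Subtype.ext h)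
  obtain ⟨φ, hφ, a, b, hab⟩ := hα _ (tendsto_cofinite_of_inj hg)
  choose v hv hv' using fun n => (e n).2
  obtain ⟨ψ, hψ, q, hq, hlim, -⟩ := accumulate hf (g := fun n => (e (φ n) : G)) (a := a) (b := b)
    hab hK (fun v hv => (hKD hv).1) (fun n => v (φ n)) (fun n => hv _)
  have h1 : (q : V) ∈ K := hK.isClosed.mem_of_tendsto hlim (Eventually.of_forall fun n => hv' _)
  exact q.2.2.1 (hKD h1).1

end Factor

end Pool.Agent.TH289.C
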